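import Pool.Agent.Run7.h538.OS.Perm

set_option autoImplicit false

/-! Values of the partition functions at special points. -/

namespace Run7.h538.OS

variable {K : Type*} [CommRing K]

lemma row_true_zero (x : K) : ∀ (ys : List K) (k : List Bool → K),
    row x true ys k (List.replicate ys.length false) =
      (ys.map (fun y => 1 - x * y)).prod * k (List.replicate ys.length false)
  | [], k => by simp [row]
  | y :: ys, k => by
      simp only [List.length_cons, List.replicate_succ, row, List.map_cons, List.prod_cons]
      rw [row_true_zero x ys]
      ring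

lemma row_true_corner (x z : K) (hz : 1 - x * z = 0) (ys : List K) (k : List Bool → K) :
    row x true (ys ++ [z]) k (List.replicate (ys.length + 1) false) = 0 := by
  have := row_true_zero x (ys ++ [z]) k
  simp only [List.length_append, List.length_singleton] at this
  rw [this]
  simp [hz]

lemma row_false_corner (x z : K) (hz : 1 - x * z = 0) : ∀ (ys : List K) (k : List Bool → K),
    row x false (ys ++ [z]) k (List.replicate (ys.length + 1) false) =
      (ys.map (fun y => 1 - x - y)).prod * k (List.replicate ys.length false ++ [true])
  | [], k => by simp [row]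
  | y :: ys, k => by
      simp only [List.length_cons, List.replicate_succ, row, List.map_cons, List.prod_cons,
        List.cons_append]
      have h1 := row_false_corner x z hz ys (fun t => k (false :: t))
      have h2 := row_true_corner x z hz ys (fun t => k (true :: t))
      rw [List.replicate_succ] at h1 h2
      rw [h1, h2]
      ring

lemma row_last (x z : K) : ∀ (ys : List K) (h : Bool) (k : List Bool → K) (vs : List Bool),
    vs.length = ys.length →
    row x h (ys ++ [z]) k (vs ++ [true]) =
      (1 - x - z) * row x h ys (fun t => k (t ++ [true])) vs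
  | [], true, k, [], _ => by simp [row]
  | [], false, k, [], _ => by simp [row]
  | [], h, k, v :: vs, hl => by simp at hl
  | y :: ys, h, k, [], hl => by simp at hl
  | y :: ys, h, k, v :: vs, hl => by
      have hl' : vs.length = ys.length := by simpa using hl
      have ih := fun h k => row_last x z ys h k vs hl'
      cases h <;> cases v <;> simp only [List.cons_append, row, ih] <;> ring

lemma G0_last (z : K) : ∀ (ys : List K) (vs : List Bool), vs.length = ys.length →
    G0 (ys ++ [z]) (vs ++ [true]) =
      (ys.map (fun y => 1 - y - z)).prod * (1 - 2 * z) * G0 ys vs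
  | [], [], _ => by simp [G0, row]
  | [], v :: vs, hl => by simp at hl
  | y :: ys, [], hl => by simp at hl
  | y :: ys, v :: vs, hl => by
      have hl' : vs.length = ys.length := by simpa using hl
      simp only [List.cons_append, G0, List.map_cons, List.prod_cons]
      rw [row_last y z ys v _ vs hl',
        row_congr y ys v _ (fun t => (ys.map (fun y => 1 - y - z)).prod * (1 - 2 * z) * G0 ys t) vs
          (fun t ht => G0_last z ys t ht), row_smul]
      ring

lemma G1_last (z : K) : ∀ (ys : List K) (vs : List Bool), vs.length = ys.length →
    G1 (ys ++ [z]) (vs ++ [true]) =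
      (ys.map (fun y => 1 - y - z)).prod * (1 - 2 * z) * G1 ys vs
  | [], [], _ => by simp [G1, row]
  | [], v :: vs, hl => by simp at hl
  | y :: ys, [], hl => by simp at hl
  | y :: ys, v :: vs, hl => by
      have hl' : vs.length = ys.length := by simpa using hl
      simp only [List.cons_append, G1, List.map_cons, List.prod_cons]
      rw [row_last y z ys v _ vs hl', row_last y z ys (!v) _ vs hl',
        row_congr y ys v _ (fun t => (ys.map (fun y => 1 - y - z)).prod * (1 - 2 * z) * G1 ys t) vs
          (fun t ht => G1_last z ys t ht),
        row_congr y ys (!v) _ (fun t => (ys.map (fun y => 1 - y - z)).prod * (1 - 2 * z) * G0 ys t)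
          vs (fun t ht => G0_last z ys t ht), row_smul, row_smul]
      ring

lemma Z0_corner (x z : K) (hz : 1 - x * z = 0) (ys : List K) :
    Z0 (x :: (ys ++ [z])) = (1 - 2 * x) * ((ys.map (fun y => 1 - x - y)).prod *
      ((ys.map (fun y => 1 - y - z)).prod * (1 - 2 * z) * Z0 ys)) := by
  unfold Z0
  have e : (x :: (ys ++ [z])).length = (ys.length + 1) + 1 := by simp
  rw [e, List.replicate_succ]
  simp only [G0]
  rw [row_false_corner x z hz, G0_last z ys _ (by simp)]

lemma Z1_corner (x z : K) (hz : 1 - x * z = 0) (ys : List K) :
    Z1 (x :: (ys ++ [z])) = (1 - 2 * x) * ((ys.map (fun y => 1 - x - y)).prod *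
      ((ys.map (fun y => 1 - y - z)).prod * (1 - 2 * z) * Z1 ys)) := by
  unfold Z1
  have e : (x :: (ys ++ [z])).length = (ys.length + 1) + 1 := by simp
  rw [e, List.replicate_succ]
  simp only [G1, Bool.not_false]
  rw [row_false_corner x z hz, G1_last z ys _ (by simp), row_true_corner x z hz]
  ring

lemma Z1_half (x : K) (hx : 1 - 2 * x = 0) (ys : List K) :
    Z1 (x :: ys) = (ys.map (fun y => 1 - x * y)).prod * Z0 ys := by
  unfold Z1 Z0
  rw [List.length_cons, List.replicate_succ]
  simp only [G1, Bool.not_false, hx, kd]
  rw [row_true_zero]
  ring

end Run7.h538.OS
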