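import Pool.Agent.Run7.h538.OS.Sym

set_option autoImplicit false

/-! Counting symmetric alternating sign matrices with the row operators. -/

namespace Run7.h538.OS

open Finset

/-- `0` or `1` -/
def bi : Bool → ℤ
  | false => 0
  | true => 1

lemma bi_inj {a b : Bool} (h : bi a = bi b) : a = b := by
  cases a <;> cases b <;> simp_all [bi]

/-- partial sum including `k` -/
def psum {m : ℕ} (f : Fin m → ℤ) (k : Fin m) : ℤ := ∑ i ∈ Iic k, f i

lemma psum_zero {m : ℕ} (f : Fin (m + 1) → ℤ) : psum f 0 = f 0 := by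
  unfold psum
  have : (Iic (0 : Fin (m + 1))) = {0} := by
    ext i
    simp
  rw [this, sum_singleton]

lemma psum_succ {m : ℕ} (f : Fin (m + 1) → ℤ) (k : Fin m) :
    psum f k.succ = f 0 + psum (fun i => f i.succ) k := by
  unfold psum
  have : (Iic (k.succ : Fin (m + 1))) = insert 0 ((Iic k).map (Fin.succEmb m)) := by
    ext i
    refine Fin.cases ?_ (fun j => ?_) i
    · simp
    · simp [Fin.succ_ne_zero]
  rw [this, sum_insert, sum_map]
  · rfl
  · simp [Fin.succ_ne_zero]

/-- compatible rows -/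
def okp {m : ℕ} (h : Bool) (v v' : Fin m → Bool) : Prop :=
  (∀ k, bi h + psum (fun i => bi (v' i) - bi (v i)) k = 0 ∨
    bi h + psum (fun i => bi (v' i) - bi (v i)) k = 1) ∧
  bi h + ∑ i, (bi (v' i) - bi (v i)) = 1

lemma okp_zero (h : Bool) (v v' : Fin 0 → Bool) : okp h v v' ↔ h = true := by
  unfold okp
  cases h <;> simp [bi]

lemma okp_succ {m : ℕ} (h : Bool) (v v' : Fin (m + 1) → Bool) : okp h v v' ↔
    ∃ h' : Bool, bi h + (bi (v' 0) - bi (v 0)) = bi h' ∧
      okp h' (fun i => v i.succ) (fun i => v' i.succ) := by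
  unfold okp
  constructor
  · rintro ⟨h1, h2⟩
    have h0 := h1 0
    rw [psum_zero] at h0
    obtain ⟨h', hh'⟩ : ∃ h' : Bool, bi h + (bi (v' 0) - bi (v 0)) = bi h' := by
      rcases h0 with h0 | h0
      · exact ⟨false, h0⟩
      · exact ⟨true, h0⟩
    refine ⟨h', hh', fun k => ?_, ?_⟩
    · have := h1 k.succ
      rw [psum_succ, ← add_assoc, hh'] at this
      exact this
    · rw [Fin.sum_univ_succ, ← add_assoc, hh'] at h2
      exact h2
  · rintro ⟨h', hh', h1, h2⟩
    refine ⟨fun k => ?_, ?_⟩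
    · refine Fin.cases ?_ (fun k => ?_) k
      · rw [psum_zero, hh']
        cases h' <;> simp [bi]
      · rw [psum_succ, ← add_assoc, hh']
        exact h1 k
    · rw [Fin.sum_univ_succ, ← add_assoc, hh']
      exact h2

open scoped Classical in
lemma sum_cons {m : ℕ} (F : (Fin (m + 1) → Bool) → ℝ) :
    ∑ v, F v = (∑ v : Fin m → Bool, F (Fin.cons false v)) + ∑ v : Fin m → Bool, F (Fin.cons true v) := by
  rw [← (Fin.consEquiv (fun _ : Fin (m + 1) => Bool)).sum_comp, Fintype.sum_prod_type,
    Fintype.sum_bool, add_comm]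
  rfl

open scoped Classical in
lemma row_count : ∀ (m : ℕ) (h : Bool) (v : Fin m → Bool) (k : List Bool → ℝ),
    row (0 : ℝ) h (List.replicate m 0) k (List.ofFn v) =
      ∑ v' : Fin m → Bool, if okp h v v' then k (List.ofFn v') else 0
  | 0, h, v, k => by
      simp only [okp_zero]
      cases h <;> simp [row]
  | m + 1, h, v, k => by
      have ih := fun h k => row_count m h (fun i => v i.succ) k
      rw [sum_cons, List.replicate_succ, List.ofFn_succ]
      simp only [okp_succ, Fin.cons_zero, Fin.cons_succ, List.ofFn_succ]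
      cases h <;> cases hv : v 0 <;>
        simp [row, ih, bi, gq]
      rw [add_comm]

/-- symmetric matrices with prescribed initial column sums `v` -/
def SyP {m : ℕ} (v : Fin m → Bool) (B : Matrix (Fin m) (Fin m) ℤ) : Prop :=
  (∀ i j, B i j = B j i) ∧
  (∀ j k, bi (v j) + psum (fun i => B i j) k = 0 ∨ bi (v j) + psum (fun i => B i j) k = 1) ∧
  (∀ j, bi (v j) + ∑ i, B i j = 1)

/-- zero diagonal -/
def D0 {m : ℕ} (B : Matrix (Fin m) (Fin m) ℤ) : Prop := ∀ i, B i i = 0

/-- exactly one nonzero diagonal entry -/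
def D1 {m : ℕ} (B : Matrix (Fin m) (Fin m) ℤ) : Prop := ∃ d, B d d ≠ 0 ∧ ∀ i, i ≠ d → B i i = 0

/-- add a first row and column -/
def bld {m : ℕ} (v : Fin (m + 1) → Bool) (h : Bool) (v' : Fin m → Bool)
    (B : Matrix (Fin m) (Fin m) ℤ) : Matrix (Fin (m + 1)) (Fin (m + 1)) ℤ :=
  Matrix.of fun i j => Fin.cases (motive := fun _ => ℤ)
    (Fin.cases (motive := fun _ => ℤ) (bi h - bi (v 0)) (fun j => bi (v' j) - bi (v j.succ)) j)
    (fun i => Fin.cases (motive := fun _ => ℤ) (bi (v' i) - bi (v i.succ)) (fun j => B i j) j) i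

section bldlemmas

variable {m : ℕ} (v : Fin (m + 1) → Bool) (h : Bool) (v' : Fin m → Bool)
  (B : Matrix (Fin m) (Fin m) ℤ)

lemma bld00 : bld v h v' B 0 0 = bi h - bi (v 0) := rfl
lemma bld0s (j : Fin m) : bld v h v' B 0 j.succ = bi (v' j) - bi (v j.succ) := rfl
lemma blds0 (i : Fin m) : bld v h v' B i.succ 0 = bi (v' i) - bi (v i.succ) := rfl
lemma bldss (i j : Fin m) : bld v h v' B i.succ j.succ = B i j := rfl

lemma bld_SyP : SyP v (bld v h v' B) ↔ okp h (fun i => v i.succ) v' ∧ SyP v' B := by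
  unfold SyP okp
  constructor
  · rintro ⟨h1, h2, h3⟩
    refine ⟨⟨fun k => ?_, ?_⟩, ⟨fun i j => ?_, fun j k => ?_, fun j => ?_⟩⟩
    · have := h2 0 k.succ
      rw [psum_succ, bld00] at this
      simp only [blds0] at this
      rwa [← add_assoc, add_sub_cancel] at this
    · have := h3 0
      rw [Fin.sum_univ_succ, bld00] at this
      simp only [blds0] at this
      rwa [← add_assoc, add_sub_cancel] at this
    · have := h1 i.succ j.succ
      rwa [bldss, bldss] at this
    · have := h2 j.succ k.succ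
      rw [psum_succ, bld0s] at this
      simp only [bldss] at this
      rwa [← add_assoc, add_sub_cancel] at this
    · have := h3 j.succ
      rw [Fin.sum_univ_succ, bld0s] at this
      simp only [bldss] at this
      rwa [← add_assoc, add_sub_cancel] at this
  · rintro ⟨⟨a1, a2⟩, ⟨b1, b2, b3⟩⟩
    refine ⟨fun i j => ?_, fun j k => ?_, fun j => ?_⟩
    · refine Fin.cases ?_ (fun i => ?_) i <;> refine Fin.cases ?_ (fun j => ?_) j
      · rfl
      · rfl
      · rfl
      · exact b1 i j
    · refine Fin.cases ?_ (fun j => ?_) j <;> refine Fin.cases ?_ (fun k => ?_) k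
      · rw [psum_zero, bld00, add_sub_cancel]
        cases h <;> simp [bi]
      · rw [psum_succ, bld00, ← add_assoc, add_sub_cancel]
        exact a1 k
      · rw [psum_zero, bld0s, add_sub_cancel]
        cases v' j <;> simp [bi]
      · rw [psum_succ, bld0s, ← add_assoc, add_sub_cancel]
        exact b2 j k
    · refine Fin.cases ?_ (fun j => ?_) j
      · rw [Fin.sum_univ_succ, bld00, ← add_assoc, add_sub_cancel]
        exact a2
      · rw [Fin.sum_univ_succ, bld0s, ← add_assoc, add_sub_cancel]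
        exact b3 j

end bldlemmas

lemma bld_surj {m : ℕ} (v : Fin (m + 1) → Bool) (A : Matrix (Fin (m + 1)) (Fin (m + 1)) ℤ)
    (hA : SyP v A) : ∃ h v' B, bld v h v' B = A := by
  obtain ⟨h1, h2, h3⟩ := hA
  have key : ∀ j, ∃ b : Bool, A 0 j = bi b - bi (v j) := by
    intro j
    have := h2 j 0
    rw [psum_zero] at this
    rcases this with h | h
    · refine ⟨false, ?_⟩
      have e : bi false = 0 := rfl
      rw [e]; linarith
    · refine ⟨true, ?_⟩
      have e : bi true = 1 := rfl
      rw [e]; linarith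
  choose b hb using key
  refine ⟨b 0, fun j => b j.succ, Matrix.of fun i j => A i.succ j.succ, ?_⟩
  ext i j
  refine Fin.cases ?_ (fun i => ?_) i <;> refine Fin.cases ?_ (fun j => ?_) j
  · rw [bld00, hb]
  · rw [bld0s, hb]
  · rw [blds0, h1, hb]
  · rfl

lemma bld_inj {m : ℕ} (v : Fin (m + 1) → Bool) (h₁ h₂ : Bool) (v₁ v₂ : Fin m → Bool)
    (B₁ B₂ : Matrix (Fin m) (Fin m) ℤ) (h : bld v h₁ v₁ B₁ = bld v h₂ v₂ B₂) :
    h₁ = h₂ ∧ v₁ = v₂ ∧ B₁ = B₂ := by
  refine ⟨?_, ?_, ?_⟩
  · have := congrFun (congrFun h 0) 0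
    rw [bld00, bld00] at this
    exact bi_inj (by linarith)
  · funext j
    have := congrFun (congrFun h 0) j.succ
    rw [bld0s, bld0s] at this
    exact bi_inj (by linarith)
  · ext i j
    have := congrFun (congrFun h i.succ) j.succ
    rwa [bldss, bldss] at this

lemma bld_D0 {m : ℕ} (v : Fin (m + 1) → Bool) (h : Bool) (v' : Fin m → Bool)
    (B : Matrix (Fin m) (Fin m) ℤ) : D0 (bld v h v' B) ↔ h = v 0 ∧ D0 B := by
  unfold D0
  constructor
  · intro hd
    refine ⟨?_, fun i => ?_⟩
    · have := hd 0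
      rw [bld00] at this
      exact bi_inj (by linarith)
    · have := hd i.succ
      rwa [bldss] at this
  · rintro ⟨h0, hd⟩ i
    refine Fin.cases ?_ (fun i => ?_) i
    · rw [bld00, h0]; ring
    · rw [bldss]; exact hd i

lemma bld_D1 {m : ℕ} (v : Fin (m + 1) → Bool) (h : Bool) (v' : Fin m → Bool)
    (B : Matrix (Fin m) (Fin m) ℤ) : D1 (bld v h v' B) ↔ (h = v 0 ∧ D1 B) ∨ (h = !(v 0) ∧ D0 B) := by
  unfold D1 D0
  constructor
  · rintro ⟨d, hd, hall⟩
    revert hd hall
    refine Fin.cases ?_ (fun d => ?_) d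
    · intro hd hall
      right
      refine ⟨?_, fun i => ?_⟩
      · rw [bld00] at hd
        cases h <;> cases hv : v 0 <;> simp_all [bi]
      · have := hall i.succ (Fin.succ_ne_zero i)
        rwa [bldss] at this
    · intro hd hall
      left
      refine ⟨?_, d, ?_, fun i hi => ?_⟩
      · have := hall 0 (Fin.succ_ne_zero d).symm
        rw [bld00] at this
        exact bi_inj (by linarith)
      · rwa [bldss] at hd
      · have := hall i.succ (fun h' => hi (Fin.succ_injective _ h'))
        rwa [bldss] at this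
  · rintro (⟨h0, d, hd, hall⟩ | ⟨h0, hall⟩)
    · refine ⟨d.succ, by rwa [bldss], fun i hi => ?_⟩
      revert hi
      refine Fin.cases ?_ (fun i => ?_) i
      · intro _
        rw [bld00, h0]; ring
      · intro hi
        rw [bldss]
        exact hall i (fun h' => hi (by rw [h']))
    · refine ⟨0, ?_, fun i hi => ?_⟩
      · rw [bld00, h0]
        cases v 0 <;> simp [bi]
      · revert hi
        refine Fin.cases ?_ (fun i => ?_) i
        · intro hi; exact absurd rfl hi
        · intro _
          rw [bldss]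
          exact hall i

/-- the general counting step -/
noncomputable def bldEquiv {m : ℕ} (v : Fin (m + 1) → Bool)
    (Q : Matrix (Fin (m + 1)) (Fin (m + 1)) ℤ → Prop) :
    (Σ t : Bool × (Fin m → Bool), {B : Matrix (Fin m) (Fin m) ℤ //
      SyP v (bld v t.1 t.2 B) ∧ Q (bld v t.1 t.2 B)}) ≃
    {A : Matrix (Fin (m + 1)) (Fin (m + 1)) ℤ // SyP v A ∧ Q A} :=
  Equiv.ofBijective (fun x => ⟨bld v x.1.1 x.1.2 x.2.1, x.2.2⟩) (by
    constructor
    · rintro ⟨⟨h₁, v₁⟩, ⟨B₁, hB₁⟩⟩ ⟨⟨h₂, v₂⟩, ⟨B₂, hB₂⟩⟩ h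
      simp only [Subtype.mk.injEq] at h
      obtain ⟨rfl, rfl, rfl⟩ := bld_inj v _ _ _ _ _ _ h
      rfl
    · rintro ⟨A, hA, hQ⟩
      obtain ⟨h, v', B, rfl⟩ := bld_surj v A hA
      exact ⟨⟨⟨h, v'⟩, ⟨B, hA, hQ⟩⟩, rfl⟩)

lemma SyP_finite : ∀ (m : ℕ) (v : Fin m → Bool), Finite {B : Matrix (Fin m) (Fin m) ℤ // SyP v B}
  | 0, v => by
      have : Subsingleton (Matrix (Fin 0) (Fin 0) ℤ) := ⟨fun a b => by ext i; exact i.elim0⟩
      exact Finite.of_subsingleton
  | m + 1, v => by
      have ih := SyP_finite m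
      have hf : ∀ t : Bool × (Fin m → Bool), Finite {B : Matrix (Fin m) (Fin m) ℤ //
          SyP v (bld v t.1 t.2 B) ∧ True} := by
        intro t
        have := ih t.2
        apply Finite.of_injective (β := {B : Matrix (Fin m) (Fin m) ℤ // SyP t.2 B})
          (fun B => ⟨B.1, ((bld_SyP v t.1 t.2 B.1).mp B.2.1).2⟩)
        intro a b h
        simp only [Subtype.mk.injEq] at h
        exact Subtype.ext h
      have e := bldEquiv v (fun _ => True)
      have : Finite {A : Matrix (Fin (m + 1)) (Fin (m + 1)) ℤ // SyP v A ∧ True} :=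
        Finite.of_equiv _ e
      apply Finite.of_injective (β := {A : Matrix (Fin (m + 1)) (Fin (m + 1)) ℤ // SyP v A ∧ True})
        (fun A => ⟨A.1, A.2, trivial⟩)
      intro a b h
      simp only [Subtype.mk.injEq] at h
      exact Subtype.ext h

lemma SyP_finite' {m : ℕ} (v : Fin m → Bool) (R : Matrix (Fin m) (Fin m) ℤ → Prop) :
    Finite {B : Matrix (Fin m) (Fin m) ℤ // SyP v B ∧ R B} := by
  have := SyP_finite m v
  apply Finite.of_injective (β := {B : Matrix (Fin m) (Fin m) ℤ // SyP v B})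
    (fun B => ⟨B.1, B.2.1⟩)
  intro a b h
  simp only [Subtype.mk.injEq] at h
  exact Subtype.ext h

/-- number of matrices with a condition -/
noncomputable def nS {m : ℕ} (v : Fin m → Bool) (Q : Matrix (Fin m) (Fin m) ℤ → Prop) : ℕ :=
  Nat.card {B : Matrix (Fin m) (Fin m) ℤ // SyP v B ∧ Q B}

open scoped Classical in
lemma nS_step {m : ℕ} (v : Fin (m + 1) → Bool)
    (Q : Matrix (Fin (m + 1)) (Fin (m + 1)) ℤ → Prop) :
    nS v Q = ∑ h : Bool, ∑ v' : Fin m → Bool,
      if okp h (fun i => v i.succ) v' then nS v' (fun B => Q (bld v h v' B)) else 0 := by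
  have hfin : ∀ t : Bool × (Fin m → Bool), Finite {B : Matrix (Fin m) (Fin m) ℤ //
      SyP v (bld v t.1 t.2 B) ∧ Q (bld v t.1 t.2 B)} := by
    intro t
    have := SyP_finite m t.2
    apply Finite.of_injective (β := {B : Matrix (Fin m) (Fin m) ℤ // SyP t.2 B})
      (fun B => ⟨B.1, ((bld_SyP v t.1 t.2 B.1).mp B.2.1).2⟩)
    intro a b h
    simp only [Subtype.mk.injEq] at h
    exact Subtype.ext h
  unfold nS
  rw [← Nat.card_congr (bldEquiv v Q), Nat.card_sigma, Fintype.sum_prod_type]
  apply sum_congr rfl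
  intro h _
  apply sum_congr rfl
  intro v' _
  by_cases hok : okp h (fun i => v i.succ) v'
  · rw [if_pos hok]
    apply Nat.card_congr
    apply Equiv.subtypeEquivRight
    intro B
    rw [bld_SyP]
    simp [hok]
  · rw [if_neg hok]
    have : IsEmpty {B : Matrix (Fin m) (Fin m) ℤ // SyP v (bld v h v' B) ∧ Q (bld v h v' B)} := by
      constructor
      rintro ⟨B, hB, _⟩
      exact hok ((bld_SyP v h v' B).mp hB).1
    exact Nat.card_of_isEmpty

lemma nS_false {m : ℕ} (v : Fin m → Bool) (Q : Matrix (Fin m) (Fin m) ℤ → Prop)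
    (hQ : ∀ B, ¬ Q B) : nS v Q = 0 := by
  unfold nS
  have : IsEmpty {B : Matrix (Fin m) (Fin m) ℤ // SyP v B ∧ Q B} := by
    constructor
    rintro ⟨B, _, hB⟩
    exact hQ B hB
  exact Nat.card_of_isEmpty

lemma nS_congr {m : ℕ} (v : Fin m → Bool) (Q Q' : Matrix (Fin m) (Fin m) ℤ → Prop)
    (hQ : ∀ B, Q B ↔ Q' B) : nS v Q = nS v Q' := by
  have : Q = Q' := by funext B; exact propext (hQ B)
  rw [this]

open scoped Classical in
lemma nS_D0 {m : ℕ} (v : Fin (m + 1) → Bool) : nS v D0 =
    ∑ v' : Fin m → Bool, if okp (v 0) (fun i => v i.succ) v' then nS v' D0 else 0 := by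
  rw [nS_step, Fintype.sum_bool]
  cases hv : v 0
  · rw [sum_eq_zero, zero_add]
    · apply sum_congr rfl
      intro v' _
      rw [nS_congr v' _ D0 (fun B => by rw [bld_D0, hv]; simp)]
    · intro v' _
      rw [nS_false v' _ (fun B => by rw [bld_D0, hv]; simp)]
      simp
  · rw [add_comm, sum_eq_zero, zero_add]
    · apply sum_congr rfl
      intro v' _
      rw [nS_congr v' _ D0 (fun B => by rw [bld_D0, hv]; simp)]
    · intro v' _
      rw [nS_false v' _ (fun B => by rw [bld_D0, hv]; simp)]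
      simp

open scoped Classical in
lemma nS_D1 {m : ℕ} (v : Fin (m + 1) → Bool) : nS v D1 =
    (∑ v' : Fin m → Bool, if okp (v 0) (fun i => v i.succ) v' then nS v' D1 else 0) +
    ∑ v' : Fin m → Bool, if okp (!(v 0)) (fun i => v i.succ) v' then nS v' D0 else 0 := by
  rw [nS_step, Fintype.sum_bool]
  cases hv : v 0
  · rw [add_comm]
    congr 1
    · apply sum_congr rfl
      intro v' _
      rw [nS_congr v' _ D1 (fun B => by rw [bld_D1, hv]; simp)]
    · apply sum_congr rfl
      intro v' _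
      rw [nS_congr v' _ D0 (fun B => by rw [bld_D1, hv]; simp)]
      rfl
  · congr 1
    · apply sum_congr rfl
      intro v' _
      rw [nS_congr v' _ D1 (fun B => by rw [bld_D1, hv]; simp)]
    · apply sum_congr rfl
      intro v' _
      rw [nS_congr v' _ D0 (fun B => by rw [bld_D1, hv]; simp)]
      rfl

lemma nS_zero_D0 (v : Fin 0 → Bool) : nS v D0 = 1 := by
  unfold nS
  rw [Nat.card_eq_one_iff_unique]
  constructor
  · constructor
    rintro ⟨a, ha⟩ ⟨b, hb⟩
    apply Subtype.ext
    ext i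
    exact i.elim0
  · exact ⟨⟨0, ⟨fun i => i.elim0, fun i => i.elim0, fun i => i.elim0⟩, fun i => i.elim0⟩⟩

lemma nS_zero_D1 (v : Fin 0 → Bool) : nS v D1 = 0 := by
  apply nS_false
  rintro B ⟨d, _⟩
  exact d.elim0

theorem count0 : ∀ (m : ℕ) (v : Fin m → Bool),
    (nS v D0 : ℝ) = G0 (List.replicate m (0 : ℝ)) (List.ofFn v)
  | 0, v => by rw [nS_zero_D0]; simp [G0]
  | m + 1, v => by
      classical
      rw [nS_D0, List.replicate_succ, List.ofFn_succ]
      simp only [G0]
      rw [row_count]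
      push_cast
      rw [mul_zero, sub_zero, one_mul]
      apply sum_congr rfl
      intro v' _
      split_ifs
      · exact count0 m v'
      · simp

theorem count1 : ∀ (m : ℕ) (v : Fin m → Bool),
    (nS v D1 : ℝ) = G1 (List.replicate m (0 : ℝ)) (List.ofFn v)
  | 0, v => by rw [nS_zero_D1]; simp [G1]
  | m + 1, v => by
      classical
      rw [nS_D1, List.replicate_succ, List.ofFn_succ]
      simp only [G1]
      rw [row_count, row_count]
      have hk : kd (0 : ℝ) (v 0) = 1 := by cases v 0 <;> simp [kd, gq]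
      push_cast
      rw [mul_zero, sub_zero, one_mul, hk, one_mul]
      congr 1
      · apply sum_congr rfl
        intro v' _
        split_ifs
        · exact count1 m v'
        · simp
      · apply sum_congr rfl
        intro v' _
        split_ifs
        · exact count0 m v'
        · simp

end Run7.h538.OS
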