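import Pool.Agent.Run7.h538.OS.Mrr3

set_option autoImplicit false

/-! The product formula for the bordered determinant. -/

namespace Run7.h538.OS

open Finset

/-- the product -/
def FF (n : ℕ) : ℚ := 2 ^ n / 2 * ((3 * n + 2).factorial : ℚ) / ((2 * n + 1).factorial : ℚ) *
  ∏ i ∈ range n, (((6 * i + 4).factorial : ℚ) / ((2 * n + 2 * i + 3).factorial : ℚ))

lemma shift_prod (n : ℕ) : (∏ i ∈ range (n + 1), ((2 * (n + 1) + 2 * i + 3).factorial : ℚ)) *
    ((2 * n + 3).factorial : ℚ) = (∏ i ∈ range n, ((2 * n + 2 * i + 3).factorial : ℚ)) *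
      ((4 * n + 3).factorial : ℚ) * ((4 * n + 5).factorial : ℚ) := by
  have h1 : (∏ i ∈ range (n + 2), ((2 * n + 2 * i + 3).factorial : ℚ)) =
      (∏ i ∈ range (n + 1), ((2 * (n + 1) + 2 * i + 3).factorial : ℚ)) *
        ((2 * n + 3).factorial : ℚ) := by
    rw [prod_range_succ']
    congr 1
    apply prod_congr rfl
    intro i _
    rw [show 2 * n + 2 * (i + 1) + 3 = 2 * (n + 1) + 2 * i + 3 by ring]
  rw [← h1, prod_range_succ, prod_range_succ,
    show 2 * n + 2 * n + 3 = 4 * n + 3 by ring,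
    show 2 * n + 2 * (n + 1) + 3 = 4 * n + 5 by ring]

lemma FF_rec (n : ℕ) : FF (n + 1) * ((4 * n + 3) * (4 * n + 5)) =
    FF n * (3 * (3 * n + 4) * (3 * n + 5)) * hh n := by
  have h1 := hh_eq n
  have h2 := shift_prod n
  unfold FF
  rw [prod_div_distrib, prod_div_distrib, prod_range_succ (fun i => ((6 * i + 4).factorial : ℚ))]
  set A := ∏ i ∈ range n, ((6 * i + 4).factorial : ℚ) with hA
  set B := ∏ i ∈ range n, ((2 * n + 2 * i + 3).factorial : ℚ) with hB
  set B' := ∏ i ∈ range (n + 1), ((2 * (n + 1) + 2 * i + 3).factorial : ℚ) with hB'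
  have hBne : B ≠ 0 := by
    rw [hB, prod_ne_zero_iff]
    intro i _
    positivity
  have hBne' : B' ≠ 0 := by
    rw [hB', prod_ne_zero_iff]
    intro i _
    positivity
  have f1 : ((3 * (n + 1) + 2).factorial : ℚ) = (3 * n + 5) * (3 * n + 4) * (3 * n + 3) *
      ((3 * n + 2).factorial : ℚ) := by
    rw [show 3 * (n + 1) + 2 = (3 * n + 2) + 1 + 1 + 1 by ring, Nat.factorial_succ,
      Nat.factorial_succ, Nat.factorial_succ]
    push_cast
    ring
  have f2 : ((2 * (n + 1) + 1).factorial : ℚ) = ((2 * n + 3).factorial : ℚ) := by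
    rw [show 2 * (n + 1) + 1 = 2 * n + 3 by ring]
  have f3 : ((2 * n + 2).factorial : ℚ) = (2 * n + 2) * ((2 * n + 1).factorial : ℚ) := by
    rw [show 2 * n + 2 = (2 * n + 1) + 1 by ring, Nat.factorial_succ]
    push_cast
    ring
  have f4 : ((4 * n + 3).factorial : ℚ) = (4 * n + 3) * ((4 * n + 2).factorial : ℚ) := by
    rw [show 4 * n + 3 = (4 * n + 2) + 1 by ring, Nat.factorial_succ]
    push_cast
    ring
  have f5 : ((4 * n + 5).factorial : ℚ) = (4 * n + 5) * ((4 * n + 4).factorial : ℚ) := by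
    rw [show 4 * n + 5 = (4 * n + 4) + 1 by ring, Nat.factorial_succ]
    push_cast
    ring
  rw [f1, f2]
  rw [f4, f5] at h2
  rw [f3] at h1
  have g1 : ((2 * n + 3).factorial : ℚ) ≠ 0 := by positivity
  have g2 : ((2 * n + 1).factorial : ℚ) ≠ 0 := by positivity
  have g3 : ((4 * n + 2).factorial : ℚ) ≠ 0 := by positivity
  have g4 : ((4 * n + 4).factorial : ℚ) ≠ 0 := by positivity
  -- clear denominators
  have e1 : hh n = ((6 * n + 4).factorial : ℚ) * ((2 * n + 2) * ((2 * n + 1).factorial : ℚ)) /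
      (((4 * n + 2).factorial : ℚ) * ((4 * n + 4).factorial : ℚ)) := by
    rw [eq_div_iff (mul_ne_zero g3 g4)]
    exact h1
  have e2 : B' = B * ((4 * n + 3) * ((4 * n + 2).factorial : ℚ)) *
      ((4 * n + 5) * ((4 * n + 4).factorial : ℚ)) / ((2 * n + 3).factorial : ℚ) := by
    rw [eq_div_iff g1]
    exact h2
  rw [e1, e2]
  field_simp
  ring

lemma Nm_one : (Nm 1).det = 4 := by
  have h00 : Nm 1 0 0 = 1 := by simp [Nm, Bc_zero]
  have h01 : Nm 1 0 1 = 1 := by simp [Nm, wv]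
  have h10 : Nm 1 1 0 = 1 := by
    have := bz_nat 2 2
    norm_num at this
    simp [Nm, Bc, this]
  have h11 : Nm 1 1 1 = 5 := by simp [Nm, wv]; norm_num
  rw [Matrix.det_fin_two, h00, h01, h10, h11]
  norm_num

lemma FF_one : FF 1 = 4 := by
  unfold FF
  norm_num [Nat.factorial]

theorem Nm_eq : ∀ n : ℕ, 1 ≤ n → (Nm n).det = FF n
  | 0, h => by omega
  | 1, _ => by rw [Nm_one, FF_one]
  | n + 2, _ => by
      have ih := Nm_eq (n + 1) (by omega)
      have h1 := Nm_rec (n + 1) (by omega)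
      have h2 := FF_rec (n + 1)
      rw [ih] at h1
      have h3 : ((4 * ((n + 1 : ℕ) : ℚ) + 3) * (4 * ((n + 1 : ℕ) : ℚ) + 5)) ≠ 0 := by positivity
      apply mul_right_cancel₀ h3
      rw [h1, h2]

lemma FF_pos (n : ℕ) : 0 < FF n := by
  unfold FF
  apply mul_pos
  · positivity
  · apply prod_pos
    intro i _
    positivity

end Run7.h538.OS
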