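import Pool.Agent.Run7.h538.OS.Form2
import Pool.Agent.Run7.h538.OS.Mrr4
import Pool.Agent.Run7.h538.OsaPf

set_option autoImplicit false

/-! The determinant of the limiting matrix. -/

namespace Run7.h538.OS

open Finset Polynomial Run7.h538.Osa

/-- adapted basis -/
noncomputable def Qp (a : ℕ) : ℚ[X] := X ^ (a % 2) * ss ^ (a / 2)

lemma ss_deg : ss.natDegree ≤ 2 := by
  unfold ss
  refine (natDegree_sub_le _ _).trans (max_le ?_ ?_)
  · exact natDegree_X_le.trans (by norm_num)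
  · exact natDegree_X_pow_le 2

lemma ss_coeff2 : ss.coeff 2 = -1 := by
  unfold ss
  rw [coeff_sub, coeff_X, coeff_X_pow]
  norm_num

lemma Qp_deg (a : ℕ) : (Qp a).natDegree ≤ a := by
  unfold Qp
  have h1 : ((X : ℚ[X]) ^ (a % 2)).natDegree ≤ a % 2 := natDegree_X_pow_le _
  have h2 : (ss ^ (a / 2)).natDegree ≤ (a / 2) * 2 := natDegree_pow_le_of_le _ ss_deg
  refine natDegree_mul_le.trans ?_
  omega

lemma ss_pow_coeff (k : ℕ) : (ss ^ k).coeff (k * 2) = (-1) ^ k := by
  rw [coeff_pow_of_natDegree_le ss_deg, ss_coeff2]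

lemma Qp_lead (a : ℕ) : (Qp a).coeff a ^ 2 = 1 := by
  unfold Qp
  have h : (X ^ (a % 2) * ss ^ (a / 2) : ℚ[X]).coeff a = (ss ^ (a / 2)).coeff (a / 2 * 2) := by
    conv_lhs => rw [show a = a / 2 * 2 + a % 2 by omega]
    rw [coeff_X_pow_mul']
    rw [if_pos (by omega)]
    congr 1
    · congr 1
      omega
    · omega
  rw [h, ss_pow_coeff, ← pow_mul, mul_comm, pow_mul]
  norm_num

/-- matrix of the adapted basis -/
noncomputable def PP (n : ℕ) : Matrix (Fin (2 * n + 2)) (Fin (2 * n + 2)) ℚ :=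
  Matrix.of fun a b =>
    if (a : ℕ) ≤ 2 * n then (if (b : ℕ) ≤ 2 * n then (Qp a).coeff b else 0)
    else (if (b : ℕ) ≤ 2 * n then 0 else 1)

lemma PP_det (n : ℕ) : (PP n).det ^ 2 = 1 := by
  rw [Matrix.det_of_isLowerTriangular, ← prod_pow]
  · apply prod_eq_one
    intro i _
    simp only [PP, Matrix.of_apply]
    split_ifs
    · exact Qp_lead i
    · norm_num
  · intro i j hij
    have hij' : i < j := by simpa using hij
    have hv : (i : ℕ) < j := hij'
    simp only [PP, Matrix.of_apply]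
    split_ifs
    · exact coeff_eq_zero_of_natDegree_lt ((Qp_deg i).trans_lt hv)
    · rfl
    · rfl
    · exfalso; have := j.isLt; omega

lemma ssplit (n : ℕ) (f : Fin (2 * n + 2) → ℚ) (g : ℕ → ℚ) (z : ℚ)
    (h : ∀ i : Fin (2 * n + 2), (i : ℕ) ≤ 2 * n → f i = g i)
    (hz : f (Fin.last _) = z) : ∑ i, f i = (∑ i ∈ range (2 * n + 1), g i) + z := by
  rw [Fin.sum_univ_castSucc, hz]
  congr 1
  rw [← Fin.sum_univ_eq_sum_range g (2 * n + 1)]
  apply sum_congr rfl
  intro i _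
  exact h _ (by simp; omega)

lemma cf_sum (N : ℕ) (p q : ℚ[X]) (hp : p.natDegree < N) (hq : q.natDegree < N) :
    cf p q = ∑ d ∈ range N, (∑ c ∈ range N, p.coeff c * cc c d) * q.coeff d := by
  have h1 : p = ∑ i ∈ range N, C (p.coeff i) * X ^ i := as_sum_range_C_mul_X_pow' p hp
  have h2 : q = ∑ i ∈ range N, C (q.coeff i) * X ^ i := as_sum_range_C_mul_X_pow' q hq
  conv_lhs => rw [h1, h2]
  rw [map_sum]
  apply sum_congr rfl
  intro d _
  rw [map_sum, LinearMap.sum_apply, sum_mul]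
  apply sum_congr rfl
  intro c _
  rw [cf_C_left, cf_C_right, cf_mon]
  ring

/-- the transformed matrix -/
noncomputable def RR (n : ℕ) : Matrix (Fin (2 * n + 2)) (Fin (2 * n + 2)) ℚ :=
  PP n * arr n (fun a => 2 ^ a) * (PP n).transpose

lemma PA (n : ℕ) (a d : Fin (2 * n + 2)) : (PP n * arr n (fun a => 2 ^ a)) a d =
    if (a : ℕ) ≤ 2 * n then
      (if (d : ℕ) ≤ 2 * n then ∑ c ∈ range (2 * n + 1), (Qp a).coeff c * cc c d
      else (Qp a).eval 2)
    else (if (d : ℕ) ≤ 2 * n then - 2 ^ (d : ℕ) else 0) := by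
  rw [Matrix.mul_apply]
  by_cases ha : (a : ℕ) ≤ 2 * n
  · rw [if_pos ha]
    by_cases hd : (d : ℕ) ≤ 2 * n
    · rw [if_pos hd, ssplit n _ (fun c => (Qp a).coeff c * cc c d) 0, add_zero]
      · intro i hi
        simp [PP, arr, ha, hi, hd]
      · simp [PP, ha]
    · rw [if_neg hd, ssplit n _ (fun c => (Qp a).coeff c * 2 ^ c) 0, add_zero,
        eval_eq_sum_range' ((Qp_deg a).trans_lt (show (a : ℕ) < 2 * n + 1 by omega))]
      · intro i hi
        simp [PP, arr, ha, hi, hd]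
      · simp [PP, ha]
  · rw [if_neg ha]
    by_cases hd : (d : ℕ) ≤ 2 * n
    · rw [if_pos hd, ssplit n _ (fun _ => 0) (- 2 ^ (d : ℕ))]
      · simp
      · intro i hi
        simp [PP, ha, hi]
      · simp [PP, arr, ha, hd]
    · rw [if_neg hd, ssplit n _ (fun _ => 0) 0]
      · simp
      · intro i hi
        simp [PP, ha, hi]
      · simp [PP, arr, ha, hd]

lemma RR_low (n : ℕ) (a b : Fin (2 * n + 2)) (ha : (a : ℕ) ≤ 2 * n) (hb : (b : ℕ) ≤ 2 * n) :
    RR n a b = cf (Qp a) (Qp b) := by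
  unfold RR
  rw [Matrix.mul_apply, cf_sum (2 * n + 1) (Qp a) (Qp b)
    ((Qp_deg a).trans_lt (by omega)) ((Qp_deg b).trans_lt (by omega)),
    ssplit n _ (fun d => (∑ c ∈ range (2 * n + 1), (Qp a).coeff c * cc c d) * (Qp b).coeff d) 0,
    add_zero]
  · intro d hd
    rw [PA, if_pos ha, if_pos hd, Matrix.transpose_apply]
    simp [PP, hb, hd]
  · rw [Matrix.transpose_apply]
    simp [PP, hb]

lemma RR_col (n : ℕ) (a b : Fin (2 * n + 2)) (ha : (a : ℕ) ≤ 2 * n) (hb : ¬ (b : ℕ) ≤ 2 * n) :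
    RR n a b = (Qp a).eval 2 := by
  unfold RR
  rw [Matrix.mul_apply, ssplit n _ (fun _ => 0) ((Qp a).eval 2)]
  · simp
  · intro d hd
    rw [Matrix.transpose_apply]
    simp [PP, hb, hd]
  · rw [PA, if_pos ha, if_neg (by simp), Matrix.transpose_apply]
    simp [PP, hb]

lemma RR_skew (n : ℕ) (a b : Fin (2 * n + 2)) : RR n a b = - RR n b a := by
  have h : (RR n).transpose = - RR n := by
    unfold RR
    rw [Matrix.transpose_mul, Matrix.transpose_mul, Matrix.transpose_transpose]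
    have : (arr n (fun a => 2 ^ a)).transpose = - arr n (fun a => 2 ^ a) := by
      ext i j
      rw [Matrix.transpose_apply, Matrix.neg_apply]
      exact arr_skew _ _ _ _
    rw [this, Matrix.neg_mul, Matrix.mul_neg, Matrix.mul_assoc]
  have := congrFun (congrFun h b) a
  rw [Matrix.transpose_apply, Matrix.neg_apply] at this
  exact this

/-- parity splitting -/
def par (n : ℕ) : Fin (n + 1) ⊕ Fin (n + 1) ≃ Fin (2 * n + 2) where
  toFun := Sum.elim (fun i => ⟨2 * i, by omega⟩) (fun i => ⟨2 * i + 1, by omega⟩)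
  invFun k := if (k : ℕ) % 2 = 0 then Sum.inl ⟨(k : ℕ) / 2, by omega⟩
    else Sum.inr ⟨(k : ℕ) / 2, by omega⟩
  left_inv := by
    rintro (i | i)
    · simp
    · have h : ¬ ((2 * (i : ℕ) + 1) % 2 = 0) := by omega
      change (if ((2 * (i : ℕ) + 1) % 2 = 0) then
        (Sum.inl ⟨(2 * (i : ℕ) + 1) / 2, by omega⟩ : Fin (n + 1) ⊕ Fin (n + 1))
        else Sum.inr ⟨(2 * (i : ℕ) + 1) / 2, by omega⟩) = Sum.inr i
      rw [if_neg h]
      congr 1
      apply Fin.ext
      simp only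
      omega
  right_inv := by
    intro k
    by_cases h : (k : ℕ) % 2 = 0
    · simp only [h, if_true, Sum.elim_inl]
      apply Fin.ext
      simp only
      omega
    · simp only [h, if_false, Sum.elim_inr]
      apply Fin.ext
      simp only
      omega

/-- the essential block -/
noncomputable def BB (n : ℕ) : Matrix (Fin (n + 1)) (Fin (n + 1)) ℚ :=
  Matrix.of fun i j => RR n (par n (Sum.inl i)) (par n (Sum.inr j))

lemma RR_blocks (n : ℕ) : (RR n).submatrix (par n) (par n) =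
    Matrix.fromBlocks 0 (BB n) (- (BB n).transpose)
      (Matrix.of fun i j => RR n (par n (Sum.inr i)) (par n (Sum.inr j))) := by
  ext a b
  rcases a with i | i <;> rcases b with j | j
  · rw [Matrix.submatrix_apply, Matrix.fromBlocks_apply₁₁, Matrix.zero_apply, RR_low]
    · have e1 : Qp ((par n (Sum.inl i) : Fin (2 * n + 2)) : ℕ) = ss ^ (i : ℕ) := by
        simp [par, Qp]
      have e2 : Qp ((par n (Sum.inl j) : Fin (2 * n + 2)) : ℕ) = ss ^ (j : ℕ) := by
        simp [par, Qp]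
      rw [e1, e2, cf_even]
    · simp [par]; omega
    · simp [par]; omega
  · rw [Matrix.submatrix_apply, Matrix.fromBlocks_apply₁₂]; rfl
  · rw [Matrix.submatrix_apply, Matrix.fromBlocks_apply₂₁, RR_skew]; rfl
  · rw [Matrix.submatrix_apply, Matrix.fromBlocks_apply₂₂]; rfl

lemma swap_sq (n : ℕ) : (Matrix.fromBlocks (0 : Matrix (Fin n) (Fin n) ℚ)
    (1 : Matrix (Fin n) (Fin n) ℚ) (1 : Matrix (Fin n) (Fin n) ℚ)
    (0 : Matrix (Fin n) (Fin n) ℚ)).det ^ 2 = 1 := by
  rw [pow_two, ← Matrix.det_mul, Matrix.fromBlocks_multiply]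
  simp

lemma RR_det (n : ℕ) : (RR n).det ^ 2 = (BB n).det ^ 4 := by
  rw [← Matrix.det_submatrix_equiv_self (par n), RR_blocks]
  set D := (Matrix.of fun i j => RR n (par n (Sum.inr i)) (par n (Sum.inr j))) with hD
  have h1 : Matrix.fromBlocks 0 (BB n) (- (BB n).transpose) D *
      Matrix.fromBlocks (0 : Matrix (Fin (n + 1)) (Fin (n + 1)) ℚ)
        (1 : Matrix (Fin (n + 1)) (Fin (n + 1)) ℚ) (1 : Matrix (Fin (n + 1)) (Fin (n + 1)) ℚ)
        (0 : Matrix (Fin (n + 1)) (Fin (n + 1)) ℚ) =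
      Matrix.fromBlocks (BB n) 0 D (- (BB n).transpose) := by
    rw [Matrix.fromBlocks_multiply]
    simp
  have h2 := congrArg Matrix.det h1
  rw [Matrix.det_mul, Matrix.det_fromBlocks_zero₁₂, Matrix.det_neg, Matrix.det_transpose] at h2
  have h3 := swap_sq (n + 1)
  have h4 : ((-1 : ℚ) ^ Fintype.card (Fin (n + 1))) ^ 2 = 1 := by
    rw [← pow_mul, mul_comm, pow_mul]; norm_num
  have h5 := congrArg (fun x => x ^ 2) h2
  simp only [mul_pow, h3, h4] at h5
  rw [mul_one, one_mul] at h5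
  rw [h5]
  ring

end Run7.h538.OS
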