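import Pool.Agent.Run7.h538.OS.Lim

set_option autoImplicit false

/-! The homogeneous limit of the partition function. -/

namespace Run7.h538.OS

open Finset Filter Topology Run7.h538.Osa Pool.Agent.Helper929

section maps

variable {K L : Type*} [CommRing K] [CommRing L] (φ : K →+* L)

lemma G0_map : ∀ (xs : List K) (vs : List Bool), φ (G0 xs vs) = G0 (xs.map φ) vs
  | [], _ => by simp [G0]
  | _ :: _, [] => by simp [G0]
  | x :: xs, v :: vs => by
      simp only [G0, List.map_cons, map_mul, map_sub, map_one, row_map, map_ofNat]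
      congr 2
      funext t
      exact G0_map xs t

lemma kd_map (x : K) (v : Bool) : φ (kd x v) = kd (φ x) v := by
  cases v <;> simp [kd, gq]

lemma G1_map : ∀ (xs : List K) (vs : List Bool), φ (G1 xs vs) = G1 (xs.map φ) vs
  | [], _ => by simp [G1]
  | _ :: _, [] => by simp [G1]
  | x :: xs, v :: vs => by
      simp only [G1, List.map_cons, map_mul, map_sub, map_one, map_add, row_map, map_ofNat,
        kd_map]
      congr 3
      · funext t
        exact G1_map xs t
      · funext t
        exact G0_map φ xs t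

lemma Z1_map (xs : List K) : φ (Z1 xs) = Z1 (xs.map φ) := by
  unfold Z1
  rw [G1_map, List.length_map]

lemma HL_map (xs : List K) : φ (HL xs) = HL (xs.map φ) := by
  unfold HL
  rw [map_list_prod, List.map_map, List.map_map]
  congr 1
  apply List.map_congr_left
  intro a _
  simp only [Function.comp_apply, map_sub, map_one, map_mul, map_ofNat]

lemma QL_map : ∀ xs : List K, φ (QL xs) = QL (xs.map φ)
  | [] => by simp [QL]
  | x :: xs => by
      simp only [QL, List.map_cons, map_mul, QL_map xs]
      congr 1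
      rw [map_list_prod, List.map_map, List.map_map]
      congr 1
      apply List.map_congr_left
      intro a _
      simp

end maps

lemma HL_zero : ∀ N : ℕ, HL (List.replicate N (0 : ℝ)) = 1 := by
  intro N
  simp [HL]

lemma QL_zero : ∀ N : ℕ, QL (List.replicate N (0 : ℝ)) = 1
  | 0 => by simp [QL]
  | N + 1 => by
      rw [List.replicate_succ]
      simp [QL, QL_zero N]

section

variable (N : ℕ)

/-- scaled points as polynomials -/
noncomputable def ptX : List (Polynomial ℝ) :=
  List.ofFn (fun i : Fin N => Polynomial.C (zt N i) * Polynomial.X)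

/-- scaled points -/
noncomputable def sc (t : ℝ) : Fin N → ℝ := fun i => t * zt N i

lemma ptX_map (t : ℝ) : (ptX N).map (Polynomial.evalRingHom t) = List.ofFn (sc N t) := by
  unfold ptX
  rw [List.map_ofFn]
  congr 1
  funext i
  simp [sc]
  ring

lemma sc_zero : List.ofFn (sc N 0) = List.replicate N (0 : ℝ) := by
  have : sc N 0 = fun _ => 0 := by
    funext i
    simp [sc]
  rw [this, List.ofFn_const]

lemma Z1_cont : Continuous (fun t : ℝ => Z1 (List.ofFn (sc N t))) := by
  have : (fun t : ℝ => Z1 (List.ofFn (sc N t))) = fun t => (Z1 (ptX N)).eval t := by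
    funext t
    rw [← ptX_map, ← Z1_map]
    rfl
  rw [this]
  exact Polynomial.continuous _

lemma HL_cont : Continuous (fun t : ℝ => HL (List.ofFn (sc N t))) := by
  have : (fun t : ℝ => HL (List.ofFn (sc N t))) = fun t => (HL (ptX N)).eval t := by
    funext t
    rw [← ptX_map, ← HL_map]
    rfl
  rw [this]
  exact Polynomial.continuous _

lemma QL_cont : Continuous (fun t : ℝ => QL (List.ofFn (sc N t))) := by
  have : (fun t : ℝ => QL (List.ofFn (sc N t))) = fun t => (QL (ptX N)).eval t := by
    funext t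
    rw [← ptX_map, ← QL_map]
    rfl
  rw [this]
  exact Polynomial.continuous _

lemma VL_det : ∀ (m : ℕ) (z : Fin m → ℝ), VL (List.ofFn z) = (Matrix.vandermonde z).det
  | 0, z => by simp [VL]
  | m + 1, z => by
      rw [List.ofFn_succ, VL, VL_det m, Matrix.det_vandermonde, Matrix.det_vandermonde,
        Fin.prod_univ_succ]
      congr 1
      · rw [Fin.prod_Ioi_zero, List.map_ofFn, List.prod_ofFn]
        rfl
      · apply prod_congr rfl
        intro i _
        rw [Fin.prod_Ioi_succ]

lemma vand_scale (t : ℝ) : Matrix.vandermonde (sc N t) =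
    Matrix.vandermonde (zt N) * Matrix.diagonal (fun k : Fin N => t ^ (k : ℕ)) := by
  ext i k
  rw [Matrix.mul_diagonal, Matrix.vandermonde_apply, Matrix.vandermonde_apply, sc, mul_pow]
  ring

/-- the transformation matrix -/
noncomputable def WB (t : ℝ) : Matrix (Fin (N + 1)) (Fin (N + 1)) ℝ :=
  Matrix.of fun a i => Fin.lastCases (motive := fun _ => ℝ)
    (Fin.lastCases (motive := fun _ => ℝ) 1 (fun _ => 0) i)
    (fun a' => Fin.lastCases (motive := fun _ => ℝ) 0
      (fun i' => (t ^ (a' : ℕ))⁻¹ * WW N a' i') i) a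

lemma WB_det (t : ℝ) : (WB N t).det =
    (Matrix.diagonal (fun k : Fin N => (t ^ (k : ℕ))⁻¹) * WW N).det := by
  rw [Matrix.det_succ_row _ (Fin.last N), Fin.sum_univ_castSucc, sum_eq_zero, zero_add]
  · have e1 : WB N t (Fin.last N) (Fin.last N) = 1 := by simp [WB]
    have e2 : (WB N t).submatrix (Fin.last N).succAbove (Fin.last N).succAbove =
        Matrix.diagonal (fun k : Fin N => (t ^ (k : ℕ))⁻¹) * WW N := by
      ext a i
      rw [Matrix.diagonal_mul, Matrix.submatrix_apply, Fin.succAbove_last]
      simp [WB]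
    rw [e1, e2, ← two_mul, pow_mul]
    norm_num
  · intro j _
    have e1 : WB N t (Fin.last N) j.castSucc = 0 := by simp [WB]
    rw [e1]
    ring

lemma WB_VL (t : ℝ) (ht : t ≠ 0) : (WB N t).det * VL (List.ofFn (sc N t)) = 1 := by
  rw [WB_det, VL_det, vand_scale, Matrix.det_mul, Matrix.det_mul, Matrix.det_diagonal,
    Matrix.det_diagonal, prod_inv_distrib]
  have h1 : (WW N).det * (Matrix.vandermonde (zt N)).det = 1 := by
    rw [← Matrix.det_mul, WW_mul, Matrix.det_one]
  have h2 : ∏ k : Fin N, t ^ (k : ℕ) ≠ 0 := by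
    rw [prod_ne_zero_iff]
    intro k _
    exact pow_ne_zero _ ht
  field_simp
  linear_combination h1

/-- the limiting matrix -/
noncomputable def CL : Matrix (Fin (N + 1)) (Fin (N + 1)) ℝ :=
  Matrix.of fun a b => Fin.lastCases (motive := fun _ => ℝ)
    (Fin.lastCases (motive := fun _ => ℝ) 0 (fun b' => - 2 ^ (b' : ℕ)) b)
    (fun a' => Fin.lastCases (motive := fun _ => ℝ) (2 ^ (a' : ℕ))
      (fun b' => (cc a' b' : ℝ)) b) a

lemma lim_mat : Tendsto (fun t => WB N t * MM (bd (sc N t)) * (WB N t).transpose) (𝓝[>] 0)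
    (𝓝 (CL N)) := by
  refine tendsto_pi_nhds.mpr (fun a => tendsto_pi_nhds.mpr (fun b => ?_))
  have hmul : ∀ t : ℝ, (WB N t * MM (bd (sc N t)) * (WB N t).transpose) a b =
      ∑ j, ∑ i, WB N t a i * Bm (bd (sc N t) i) (bd (sc N t) j) * WB N t b j := by
    intro t
    rw [Matrix.mul_apply]
    apply sum_congr rfl
    intro j _
    rw [Matrix.mul_apply, sum_mul]
    rfl
  simp only [hmul]
  refine Fin.lastCases ?_ (fun a => ?_) a
  · refine Fin.lastCases ?_ (fun b => ?_) b
    · have h1 : CL N (Fin.last N) (Fin.last N) = 0 := by simp [CL]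
      rw [h1]
      apply tendsto_const_nhds.congr
      intro t
      simp only [Fin.sum_univ_castSucc]
      simp [WB, bd_last, bd_castSucc, Bm]
    · have h1 : CL N (Fin.last N) b.castSucc = - 2 ^ (b : ℕ) := by simp [CL]
      rw [h1]
      refine (lim_border N b).neg.congr ?_
      intro t
      simp only [Fin.sum_univ_castSucc]
      simp only [WB, Matrix.of_apply, Fin.lastCases_last, Fin.lastCases_castSucc, bd_last,
        bd_castSucc, zero_mul, sum_const_zero, zero_add, one_mul, mul_zero, add_zero]
      rw [sum_div, ← sum_neg_distrib]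
      apply sum_congr rfl
      intro i _
      rw [Bm_skew none (some (sc N t i)), sc]
      rw [div_eq_mul_inv]
      ring
  · refine Fin.lastCases ?_ (fun b => ?_) b
    · have h1 : CL N a.castSucc (Fin.last N) = 2 ^ (a : ℕ) := by simp [CL]
      rw [h1]
      refine (lim_border N a).congr ?_
      intro t
      simp only [Fin.sum_univ_castSucc]
      simp only [WB, Matrix.of_apply, Fin.lastCases_last, Fin.lastCases_castSucc, bd_last,
        bd_castSucc, zero_mul, sum_const_zero, zero_add, mul_one, mul_zero, add_zero]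
      rw [sum_div]
      apply sum_congr rfl
      intro i _
      rw [sc]
      rw [div_eq_mul_inv]
      ring
    · have h1 : CL N a.castSucc b.castSucc = cc a b := by simp [CL]
      rw [h1]
      refine (lim_entry N a b).congr ?_
      intro t
      simp only [Fin.sum_univ_castSucc]
      simp only [WB, Matrix.of_apply, Fin.lastCases_last, Fin.lastCases_castSucc, bd_last,
        bd_castSucc, zero_mul, sum_const_zero, zero_add, mul_one, mul_zero, add_zero]
      rw [sum_comm, sum_div]
      apply sum_congr rfl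
      intro j _
      rw [sum_div]
      apply sum_congr rfl
      intro i _
      rw [sc, sc, pow_add]
      rw [div_eq_mul_inv, mul_inv]
      ring

lemma good_sc : ∀ᶠ t in 𝓝[>] (0 : ℝ), Good (sc N t) := by
  have h1 : ∀ᶠ t in 𝓝[>] (0 : ℝ), ∀ i : Fin N, t * zt N i < 1 / 10 := by
    rw [eventually_all]
    intro i
    have h2 : ContinuousAt (fun t : ℝ => t * zt N i) 0 := by fun_prop
    have h3 : ∀ᶠ t in 𝓝 (0 : ℝ), t * zt N i < 1 / 10 := by
      apply h2.eventually_lt continuousAt_const
      norm_num
    exact h3.filter_mono nhdsWithin_le_nhds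
  filter_upwards [h1, self_mem_nhdsWithin] with t ht htpos
  have htpos' : (0 : ℝ) < t := htpos
  refine ⟨fun i => ⟨?_, ht i⟩, fun a b hab => ?_⟩
  · unfold sc zt
    positivity
  · apply zt_inj N
    exact mul_left_cancel₀ htpos'.ne' hab

end

theorem Z1_sq (n : ℕ) : Z1 (List.replicate (2 * n + 1) (0 : ℝ)) ^ 2 =
    (CL (2 * n + 1)).det := by
  set N := 2 * n + 1 with hN
  have hA : Tendsto (fun t => Z1 (List.ofFn (sc N t)) ^ 2) (𝓝[>] 0)
      (𝓝 (Z1 (List.replicate N (0 : ℝ)) ^ 2)) := by
    rw [← sc_zero]
    exact ((Z1_cont N).pow 2).continuousAt.tendsto.mono_left nhdsWithin_le_nhds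
  have hB : Tendsto (fun t => (HL (List.ofFn (sc N t)) * QL (List.ofFn (sc N t))) ^ 2 *
      (WB N t * MM (bd (sc N t)) * (WB N t).transpose).det) (𝓝[>] 0)
      (𝓝 (1 * (CL N).det)) := by
    apply Tendsto.mul
    · have h1 : (1 : ℝ) = (HL (List.ofFn (sc N 0)) * QL (List.ofFn (sc N 0))) ^ 2 := by
        rw [sc_zero, HL_zero, QL_zero]; norm_num
      rw [h1]
      exact (((HL_cont N).mul (QL_cont N)).pow 2).continuousAt.tendsto.mono_left
        nhdsWithin_le_nhds
    · exact ((Continuous.matrix_det continuous_id).tendsto _).comp (lim_mat N)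
  rw [one_mul] at hB
  apply tendsto_nhds_unique hA
  refine hB.congr' ?_
  filter_upwards [good_sc N, self_mem_nhdsWithin] with t ht htpos
  have htpos' : (0 : ℝ) < t := htpos
  have h1 := star_odd n (sc N t) ht
  have h2 := pf_sq (N + 1) (MM (bd (sc N t))) (fun a b => by
    simp only [MM, Matrix.of_apply]; exact Bm_skew _ _)
  have h3 := WB_VL N t htpos'.ne'
  rw [Matrix.det_mul, Matrix.det_mul, Matrix.det_transpose, ← h2]
  have h4 : Z1 (List.ofFn (sc N t)) ^ 2 = (Z1 (List.ofFn (sc N t)) * VL (List.ofFn (sc N t))) ^ 2 *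
      (WB N t).det ^ 2 := by
    calc Z1 (List.ofFn (sc N t)) ^ 2 = Z1 (List.ofFn (sc N t)) ^ 2 *
          ((WB N t).det * VL (List.ofFn (sc N t))) ^ 2 := by rw [h3]; ring
      _ = _ := by ring
  rw [h4, h1]
  ring

end Run7.h538.OS
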