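import Pool.Agent.Run7.h538.OS.Det2
import Pool.Agent.Run7.h538.OS.Lim2

set_option autoImplicit false

/-! The value of the partition function at the homogeneous point. -/

namespace Run7.h538.OS

open Finset Polynomial Run7.h538.Osa

lemma BB_low (n : ℕ) (i j : Fin (n + 1)) (hj : (j : ℕ) < n) : BB n i j = Mp i j := by
  unfold BB
  rw [Matrix.of_apply, RR_low]
  · have e1 : Qp ((par n (Sum.inl i) : Fin (2 * n + 2)) : ℕ) = ss ^ (i : ℕ) := by
      simp [par, Qp]
    have e2 : Qp ((par n (Sum.inr j) : Fin (2 * n + 2)) : ℕ) = X * ss ^ (j : ℕ) := by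
      have h1 : ((par n (Sum.inr j) : Fin (2 * n + 2)) : ℕ) = 2 * j + 1 := rfl
      rw [h1]
      unfold Qp
      rw [show (2 * (j : ℕ) + 1) % 2 = 1 by omega, show (2 * (j : ℕ) + 1) / 2 = j by omega, pow_one]
    rw [e1, e2]
    rfl
  · have h1 : ((par n (Sum.inl i) : Fin (2 * n + 2)) : ℕ) = 2 * i := rfl
    rw [h1]
    omega
  · have h1 : ((par n (Sum.inr j) : Fin (2 * n + 2)) : ℕ) = 2 * j + 1 := rfl
    rw [h1]
    omega

lemma BB_last (n : ℕ) (i j : Fin (n + 1)) (hj : ¬ (j : ℕ) < n) : BB n i j = (-2) ^ (i : ℕ) := by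
  unfold BB
  rw [Matrix.of_apply, RR_col]
  · have e1 : Qp ((par n (Sum.inl i) : Fin (2 * n + 2)) : ℕ) = ss ^ (i : ℕ) := by
      simp [par, Qp]
    rw [e1, eval_pow]
    congr 1
    unfold ss
    simp
    norm_num
  · have h1 : ((par n (Sum.inl i) : Fin (2 * n + 2)) : ℕ) = 2 * i := rfl
    rw [h1]
    omega
  · have h1 : ((par n (Sum.inr j) : Fin (2 * n + 2)) : ℕ) = 2 * j + 1 := rfl
    rw [h1]
    omega

/-- unipotent matrix -/
def LL (n : ℕ) : Matrix (Fin (n + 1)) (Fin (n + 1)) ℚ :=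
  Matrix.of fun i k => if (k : ℕ) = i then 1 else if (k : ℕ) < i then 3 else 0

lemma LL_det (n : ℕ) : (LL n).det = 1 := by
  rw [Matrix.det_of_isLowerTriangular]
  · apply prod_eq_one
    intro i _
    simp [LL]
  · intro i j hij
    have hij' : i < j := by simpa using hij
    have hv : (i : ℕ) < j := hij'
    simp only [LL, Matrix.of_apply]
    rw [if_neg (by omega), if_neg (by omega)]

/-- signed bordered matrix -/
def NN (n : ℕ) : Matrix (Fin (n + 1)) (Fin (n + 1)) ℚ :=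
  Matrix.of fun i j => if (j : ℕ) < n then Aq i j else (-1) ^ (i : ℕ) * wv i

lemma LL_mul (n : ℕ) (i : Fin (n + 1)) (f : ℕ → ℚ) :
    ∑ k : Fin (n + 1), LL n i k * f k = f i + 3 * ∑ k ∈ range i, f k := by
  have h1 : ∑ k : Fin (n + 1), LL n i k * f k =
      ∑ k ∈ range (n + 1), (if k = (i : ℕ) then 1 else if k < (i : ℕ) then 3 else 0) * f k := by
    rw [← Fin.sum_univ_eq_sum_range
      (fun k => (if k = (i : ℕ) then 1 else if k < (i : ℕ) then 3 else 0) * f k) (n + 1)]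
    rfl
  have h2 : ∑ k ∈ range (n + 1), (if k = (i : ℕ) then 1 else if k < (i : ℕ) then 3 else 0) * f k =
      ∑ k ∈ range ((i : ℕ) + 1),
        (if k = (i : ℕ) then 1 else if k < (i : ℕ) then 3 else 0) * f k := by
    symm
    apply sum_subset
    · intro k hk
      rw [mem_range] at hk ⊢
      have := i.isLt
      omega
    · intro k _ hk
      rw [mem_range] at hk
      rw [if_neg (by omega), if_neg (by omega), zero_mul]
  rw [h1, h2, sum_range_succ, if_pos rfl, one_mul, add_comm, mul_sum]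
  congr 1
  apply sum_congr rfl
  intro k hk
  rw [mem_range] at hk
  rw [if_neg (by omega), if_pos hk]

lemma w_sum (i : ℕ) : ((-2 : ℚ)) ^ i = (-1) ^ i * wv i + 3 * ∑ k ∈ range i, (-1) ^ k * wv k := by
  induction i with
  | zero => simp [wv]
  | succ i ih =>
    rw [sum_range_succ, mul_add]
    have h1 : (-2 : ℚ) ^ i = (-1) ^ i * 2 ^ i := by
      rw [← mul_pow]; norm_num
    have h2 : (-2 : ℚ) ^ (i + 1) = - 2 * (-2) ^ i := by ring
    rw [h2]
    unfold wv at *
    push_cast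
    rw [pow_succ (-1 : ℚ), pow_succ (2 : ℚ)]
    linear_combination ih - 3 * h1

lemma BB_eq (n : ℕ) : BB n = LL n * NN n := by
  ext i j
  rw [Matrix.mul_apply]
  by_cases hj : (j : ℕ) < n
  · rw [BB_low n i j hj, Mp_eq]
    have : ∑ k, LL n i k * NN n k j = ∑ k : Fin (n + 1), LL n i k * (fun k => Aq k j) k := by
      apply sum_congr rfl
      intro k _
      simp [NN, hj]
    rw [this, LL_mul n i (fun k => Aq k j)]
    rfl
  · rw [BB_last n i j hj, w_sum]
    have : ∑ k, LL n i k * NN n k j =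
        ∑ k : Fin (n + 1), LL n i k * (fun k : ℕ => (-1) ^ k * wv k) k := by
      apply sum_congr rfl
      intro k _
      simp [NN, hj]
    rw [this, LL_mul n i (fun k : ℕ => (-1) ^ k * wv k)]

lemma NN_eq (n : ℕ) : NN n = Matrix.diagonal (fun i : Fin (n + 1) => (-1 : ℚ) ^ (i : ℕ)) * Nm n *
    Matrix.diagonal (fun j : Fin (n + 1) => if (j : ℕ) < n then (-1 : ℚ) ^ (j : ℕ) else 1) := by
  ext i j
  rw [Matrix.mul_diagonal, Matrix.diagonal_mul]
  simp only [NN, Nm, Matrix.of_apply]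
  by_cases hj : (j : ℕ) < n
  · simp only [hj, if_true]
    unfold Aq
    rw [pow_add]
    ring
  · simp only [hj, if_false]
    ring

lemma NN_det (n : ℕ) : (NN n).det ^ 2 = (Nm n).det ^ 2 := by
  rw [NN_eq, Matrix.det_mul, Matrix.det_mul, Matrix.det_diagonal, Matrix.det_diagonal, mul_pow,
    mul_pow, ← prod_pow, ← prod_pow]
  have h1 : ∏ i : Fin (n + 1), ((-1 : ℚ) ^ (i : ℕ)) ^ 2 = 1 := by
    apply prod_eq_one
    intro i _
    rw [← pow_mul, mul_comm, pow_mul]; norm_num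
  have h2 : ∏ j : Fin (n + 1), (if (j : ℕ) < n then (-1 : ℚ) ^ (j : ℕ) else 1) ^ 2 = 1 := by
    apply prod_eq_one
    intro i _
    split_ifs
    · rw [← pow_mul, mul_comm, pow_mul]; norm_num
    · norm_num
  rw [h1, h2]
  ring

lemma arr_det (n : ℕ) (hn : 1 ≤ n) : (arr n (fun a => 2 ^ a)).det ^ 2 = FF n ^ 4 := by
  have h1 := RR_det n
  have h2 : (RR n).det = (arr n (fun a => 2 ^ a)).det := by
    unfold RR
    rw [Matrix.det_mul, Matrix.det_mul, Matrix.det_transpose]
    have := PP_det n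
    calc _ = (PP n).det ^ 2 * (arr n (fun a => 2 ^ a)).det := by ring
      _ = _ := by rw [this, one_mul]
  rw [← h2, h1, BB_eq, Matrix.det_mul, LL_det, one_mul, show 4 = 2 * 2 by rfl, pow_mul, NN_det,
    Nm_eq n hn, ← pow_mul]

lemma CL_eq (n : ℕ) : CL (2 * n + 1) = (arr n (fun a => 2 ^ a)).map (Rat.castHom ℝ) := by
  ext a b
  rw [Matrix.map_apply]
  refine Fin.lastCases ?_ (fun a => ?_) a
  · refine Fin.lastCases ?_ (fun b => ?_) b
    · simp [CL, arr]
    · have hb : (b : ℕ) ≤ 2 * n := by have := b.isLt; omega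
      simp [CL, arr, hb]
  · have ha : (a : ℕ) ≤ 2 * n := by have := a.isLt; omega
    refine Fin.lastCases ?_ (fun b => ?_) b
    · simp [CL, arr, ha]
    · have hb : (b : ℕ) ≤ 2 * n := by have := b.isLt; omega
      simp [CL, arr, ha, hb]

theorem Z1_four (n : ℕ) (hn : 1 ≤ n) :
    Z1 (List.replicate (2 * n + 1) (0 : ℝ)) ^ 4 = ((FF n : ℚ) : ℝ) ^ 4 := by
  have h1 := Z1_sq n
  have h2 : (CL (2 * n + 1)).det = (((arr n (fun a => 2 ^ a)).det : ℚ) : ℝ) := by
    rw [CL_eq]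
    have := RingHom.map_det (Rat.castHom ℝ) (arr n (fun a => 2 ^ a))
    rw [Rat.coe_castHom] at this
    rw [this]
    rfl
  have h3 := arr_det n hn
  have h4 : Z1 (List.replicate (2 * n + 1) (0 : ℝ)) ^ 4 =
      (Z1 (List.replicate (2 * n + 1) (0 : ℝ)) ^ 2) ^ 2 := by ring
  rw [h4, h1, h2]
  exact_mod_cast h3

end Run7.h538.OS
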