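import Pool.Agent.Run7.h538.OS.Star

set_option autoImplicit false

/-! The Pfaffian formula for the partition functions: even case. -/

namespace Run7.h538.OS

open Polynomial Pool.Agent.Helper929

/-- points without border -/
def un {N : ℕ} (z : Fin N → ℝ) : Fin N → Option ℝ := fun i => some (z i)

lemma expand_even {n : ℕ} (x : ℝ) (z : Fin (n + 1) → ℝ)
    (h1 : ∀ j, 1 - x * z j ≠ 0) (h2 : ∀ j, 1 - x - z j ≠ 0) :
    Wt x (List.ofFn z) * pf (n + 2) (MM (un (Fin.cons x z : Fin (n + 2) → ℝ))) =
      ∑ j : Fin (n + 1), (-1) ^ (j : ℕ) * pf n (MM (un (rmv z j))) *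
        ((z j - x) * Wt x (List.ofFn (rmv z j))) := by
  rw [pf_expand, Finset.mul_sum]
  apply Finset.sum_congr rfl
  intro j _
  have e1 : Bm (un (Fin.cons x z : Fin (n + 2) → ℝ) 0)
      (un (Fin.cons x z : Fin (n + 2) → ℝ) j.succ) =
      (z j - x) / ((1 - x * z j) * (1 - x - z j)) := by
    simp [un, Bm]
  have e2 : (fun k => un (Fin.cons x z : Fin (n + 2) → ℝ) (j.succAbove k).succ) =
      un (rmv z j) := by
    funext k
    simp [un, rmv]
  rw [e1, e2, Wt_rmv x z j]
  have := h1 j
  have := h2 j
  field_simp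

/-- the Pfaffian formula for an even number of lines -/
def StarE (n : ℕ) : Prop := ∀ z : Fin n → ℝ, Good z →
  Z0 (List.ofFn z) * VL (List.ofFn z) =
    HL (List.ofFn z) * QL (List.ofFn z) * pf n (MM (un z))

lemma Z0_cons (x : ℝ) (xs : List ℝ) : Z0 (x :: xs) =
    (1 - 2 * x) * row x false xs (G0 xs) (List.replicate xs.length false) := by
  unfold Z0
  rw [List.length_cons, List.replicate_succ]
  simp only [G0]

lemma good_ne {x y : ℝ} (hx : 0 < x ∧ x < 1 / 10) (hy : 0 < y ∧ y < 1 / 10) :
    1 - x * y ≠ 0 ∧ 1 - x - y ≠ 0 ∧ 1 - x + x * y ≠ 0 ∧ 1 - 2 * x ≠ 0 := by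
  obtain ⟨a, b⟩ := hx
  obtain ⟨c, d⟩ := hy
  have h1 : 0 < x * y := mul_pos a c
  have h2 : x * y < 1 / 10 := by nlinarith
  refine ⟨?_, ?_, ?_, ?_⟩
  · intro h; linarith
  · intro h; linarith
  · intro h; linarith
  · intro h; linarith

lemma step_even (n : ℕ) (ih : StarE n) : StarE (n + 2) := by
  intro zz hzz
  obtain ⟨x, z, rfl⟩ : ∃ (x : ℝ) (z : Fin (n + 1) → ℝ), zz = Fin.cons x z :=
    ⟨zz 0, Fin.tail zz, (Fin.cons_self_tail zz).symm⟩
  have hx : 0 < x ∧ x < 1 / 10 := by simpa using hzz.1 0
  have hz : Good z := by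
    refine ⟨fun i => by simpa using hzz.1 i.succ, fun a b hab => ?_⟩
    have := hzz.2 (a₁ := a.succ) (a₂ := b.succ) (by simpa using hab)
    simpa using this
  set xs := List.ofFn z with hxs
  have hlen : xs.length = n + 1 := by simp [hxs]
  set c : Fin (n + 1) → ℝ := fun j => HL xs * QL xs * pf n (MM (un (rmv z j))) with hc
  set A : ℝ[X] := row X false (xs.map C) (fun t => C (G0 xs t)) (List.replicate xs.length false)
    with hA
  set P : ℝ[X] := A * (xs.map (fun y => C y - X)).prod * C (VL xs) with hP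
  have hAe : ∀ y : ℝ, A.eval y = row y false xs (G0 xs) (List.replicate xs.length false) :=
    fun y => eval_row y false xs (G0 xs) _
  have hPe : ∀ y : ℝ, P.eval y = A.eval y * (xs.map (fun w => w - y)).prod * VL xs := by
    intro y
    rw [hP, eval_mul, eval_mul, eval_prod, eval_C]
  have hRe : ∀ y : ℝ, (∀ j, 1 - y * z j ≠ 0) → (∀ j, 1 - y - z j ≠ 0) →
      (RP z c).eval y = HL xs * QL xs *
        (Wt y xs * pf (n + 2) (MM (un (Fin.cons y z : Fin (n + 2) → ℝ)))) := by
    intro y h1 h2
    rw [expand_even y z h1 h2, RP_eval, Finset.mul_sum]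
    apply Finset.sum_congr rfl
    intro j _
    rw [hc]
    ring
  have key : P = RP z c := by
    apply eq_of_degrees_lt_of_eval_finset_eq (pts z)
    · rw [pts_card z hz]
      apply lt_of_le_of_lt degree_le_natDegree
      have h1 : A.natDegree ≤ n := by
        have := deg_row_false xs (G0 xs)
        rw [hlen] at this
        rw [hA, hlen]
        simpa using this
      have h2 : ((xs.map (fun y => C y - X)).prod : ℝ[X]).natDegree ≤ 1 * (n + 1) := by
        rw [← hlen]
        exact natDegree_prod_le xs (fun y => C y - X) 1 deg_lin3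
      have h3 : P.natDegree ≤ (n + 1 * (n + 1)) + 0 := by
        rw [hP]
        exact deg_mul _ _ _ _ (deg_mul _ _ _ _ h1 h2) (by simp)
      exact_mod_cast (by omega : P.natDegree < 2 * n + 2)
    · rw [pts_card z hz]
      apply lt_of_le_of_lt degree_le_natDegree
      have := RP_deg z c
      exact_mod_cast (by omega : (RP z c).natDegree < 2 * n + 2)
    · intro y hy
      unfold pts at hy
      rw [Finset.mem_union, Finset.mem_image, Finset.mem_image] at hy
      rcases hy with ⟨j, _, rfl⟩ | ⟨j, _, rfl⟩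
      · rw [hPe, hRe _ (fun i => (good_ne (hz.1 j) (hz.1 i)).1)
          (fun i => (good_ne (hz.1 j) (hz.1 i)).2.1),
          pf_eq_zero (n + 2) _ 0 j.succ (Fin.succ_ne_zero j).symm (by simp [un])]
        have : (xs.map (fun w => w - z j)).prod = 0 := by
          rw [List.prod_eq_zero_iff, List.mem_map]
          exact ⟨z j, by rw [hxs, List.mem_ofFn]; exact ⟨j, rfl⟩, by ring⟩
        rw [this]
        ring
      · have hzj := hz.1 j
        have hz0 : z j ≠ 0 := hzj.1.ne'
        have hinv : 1 / z j * z j = 1 := by field_simp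
        rw [RP_eval_inv z c (1 / z j) j (by rw [hinv]; ring), hPe]
        obtain ⟨ps, qs, h1, h2, h3⟩ := ofFn_split n z j
        have h3' : List.ofFn (rmv z j) = ps ++ qs := h3
        have hih := ih (rmv z j) (hz.rmv j)
        rw [h3'] at hih ⊢
        have hlast : A.eval (1 / z j) = ((ps ++ qs).map (fun y => 1 - 1 / z j - y)).prod *
            (((ps ++ qs).map (fun y => 1 - y - z j)).prod * (1 - 2 * z j) * Z0 (ps ++ qs)) := by
          have e1 : Z0 (1 / z j :: xs) = (1 - 2 * (1 / z j)) * A.eval (1 / z j) := by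
            rw [Z0_cons, hAe]
          have e2 : Z0 (1 / z j :: xs) = Z0 (1 / z j :: ((ps ++ qs) ++ [z j])) := by
            rw [hxs, h2]
            have := Z0_move (z j) qs (1 / z j :: ps) (fun q hq => by
              have hqm : q ∈ List.ofFn z := by rw [h2]; simp [hq]
              rw [List.mem_ofFn] at hqm
              obtain ⟨i, rfl⟩ := hqm
              exact (good_ne (hz.1 j) (hz.1 i)).2.2.1)
            simpa using this
          rw [Z0_corner (1 / z j) (z j) (by rw [hinv]; ring)] at e2
          rw [e2] at e1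
          have hne : (1 - 2 * (1 / z j)) ≠ 0 := by
            intro h
            have : 2 * (1 / z j) = 1 := by linarith
            field_simp at this
            linarith
          exact (mul_left_cancel₀ hne e1).symm
        have hpt := point_eq (1 / z j) (z j) _ (Z0 (ps ++ qs)) (pf n (MM (un (rmv z j)))) ps qs
          hinv hlast hih
        rw [← h2, h1] at hpt
        rw [← hxs] at hpt
        exact hpt
  have hfin : P.eval x = (RP z c).eval x := by rw [key]
  rw [hPe, hRe x (fun i => (good_ne hx (hz.1 i)).1) (fun i => (good_ne hx (hz.1 i)).2.1),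
    hAe] at hfin
  rw [List.ofFn_succ]
  simp only [Fin.cons_zero, Fin.cons_succ]
  rw [← hxs, Z0_cons]
  have eH : HL (x :: xs) = (1 - 2 * x) * HL xs := by simp [HL]
  have eQ : QL (x :: xs) = Wt x xs * QL xs := rfl
  have eV : VL (x :: xs) = (xs.map (fun y => y - x)).prod * VL xs := rfl
  rw [eH, eQ, eV]
  linear_combination (1 - 2 * x) * hfin

theorem star_even : ∀ n : ℕ, StarE (2 * n)
  | 0 => by
      intro z _
      simp [Z0, G0, VL, HL, QL, pf]
  | n + 1 => step_even (2 * n) (star_even n)

end Run7.h538.OS
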