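import Pool.Agent.Run7.h538.OS.Count
import Pool.Agent.Run7.h538.OS.Det3

set_option autoImplicit false

/-! The number of odd-order off-diagonally symmetric alternating sign matrices. -/

namespace Run7.h538.OS

open Finset

lemma entries {m : ℕ} (c : ℤ) (hc : c = 0 ∨ c = 1) (f : Fin m → ℤ)
    (h : ∀ k, c + psum f k = 0 ∨ c + psum f k = 1) : ∀ k, f k = -1 ∨ f k = 0 ∨ f k = 1 := by
  induction m generalizing c with
  | zero => intro k; exact k.elim0
  | succ m ih =>
    have h0 := h 0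
    rw [psum_zero] at h0
    intro k
    refine Fin.cases ?_ (fun k => ?_) k
    · omega
    · apply ih (c + f 0) h0 (fun i => f i.succ)
      intro k
      have := h k.succ
      rwa [psum_succ, ← add_assoc] at this

lemma parity {m : ℕ} (hm : Odd m) (A : Matrix (Fin m) (Fin m) ℤ) (hs : ∀ i j, A i j = A j i)
    (h1 : ∀ j, ∑ i, A i j = 1) (hd : ∀ i, A i i = 0) : False := by
  have h2 : ∑ p : Fin m × Fin m, ((A p.1 p.2 : ℤ) : ZMod 2) = 0 := by
    apply Finset.sum_involution (fun p _ => (p.2, p.1))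
    · intro p _
      simp only
      rw [hs p.2 p.1]
      exact CharTwo.add_self_eq_zero _
    · intro p _ hp hpp
      apply hp
      have : p.1 = p.2 := by
        have := congrArg Prod.fst hpp
        simpa using this.symm
      rw [this, hd]
      simp
    · intro p _
      simp
    · intro p _
      rfl
  have h3 : ∑ p : Fin m × Fin m, ((A p.1 p.2 : ℤ) : ZMod 2) = (m : ZMod 2) := by
    rw [Fintype.sum_prod_type_right]
    have : ∀ j : Fin m, ∑ i : Fin m, ((A i j : ℤ) : ZMod 2) = 1 := by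
      intro j
      rw [← Int.cast_sum, h1 j]
      simp
    simp only [this]
    simp
  rw [h3] at h2
  have h4 : (m : ZMod 2) = 1 := by
    rw [← Nat.cast_one]
    rw [ZMod.natCast_eq_natCast_iff']
    obtain ⟨k, rfl⟩ := hm
    omega
  rw [h4] at h2
  exact one_ne_zero h2

lemma frozen_iff {m : ℕ} (hm : Odd m) (A : Matrix (Fin m) (Fin m) ℤ) :
    ((∀ i j, A i j = -1 ∨ A i j = 0 ∨ A i j = 1) ∧
      (∀ i k, (∑ j ∈ Finset.Iic k, A i j) = 0 ∨ (∑ j ∈ Finset.Iic k, A i j) = 1) ∧
      (∀ i, (∑ j, A i j) = 1) ∧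
      (∀ j k, (∑ i ∈ Finset.Iic k, A i j) = 0 ∨ (∑ i ∈ Finset.Iic k, A i j) = 1) ∧
      (∀ j, (∑ i, A i j) = 1) ∧
      (∀ i j, A i j = A j i) ∧
      (∃ d : Fin m, ∀ i, i ≠ d → A i i = 0)) ↔
    (SyP (fun _ => false) A ∧ D1 A) := by
  constructor
  · rintro ⟨_, _, _, h4, h5, h6, d, hd⟩
    refine ⟨⟨h6, fun j k => ?_, fun j => ?_⟩, d, ?_, hd⟩
    · have := h4 j k
      simpa [bi, psum] using this
    · have := h5 j
      simpa [bi] using this
    · intro h0
      apply parity hm A h6 h5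
      intro i
      by_cases hi : i = d
      · rw [hi, h0]
      · exact hd i hi
  · rintro ⟨⟨h1, h2, h3⟩, d, hd, hall⟩
    have h4 : ∀ j k, (∑ i ∈ Finset.Iic k, A i j) = 0 ∨ (∑ i ∈ Finset.Iic k, A i j) = 1 := by
      intro j k
      have := h2 j k
      simpa [bi, psum] using this
    have h5 : ∀ j, (∑ i, A i j) = 1 := by
      intro j
      have := h3 j
      simpa [bi] using this
    refine ⟨fun i j => ?_, fun i k => ?_, fun i => ?_, h4, h5, h1, d, hall⟩
    · exact entries 0 (Or.inl rfl) (fun i => A i j) (fun k => by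
        rw [zero_add]; exact h4 j k) i
    · have := h4 i k
      simp only [h1 _ i] at this
      exact this
    · have := h5 i
      simp only [h1 _ i] at this
      exact this

lemma FF_frozen (n : ℕ) (hn : 1 ≤ n) : FF n =
    (2 : ℚ) ^ (n - 1) * ((Nat.factorial (3 * n + 2) : ℕ) : ℚ)
            / ((Nat.factorial (2 * n + 1) : ℕ) : ℚ)
          * ∏ i ∈ Finset.Icc 1 n,
              (((Nat.factorial (6 * i - 2) : ℕ) : ℚ)
                / ((Nat.factorial (2 * n + 2 * i + 1) : ℕ) : ℚ)) := by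
  unfold FF
  have h1 : (2 : ℚ) ^ n / 2 = 2 ^ (n - 1) := by
    obtain ⟨k, rfl⟩ : ∃ k, n = k + 1 := ⟨n - 1, by omega⟩
    rw [pow_succ, Nat.add_sub_cancel]
    ring
  have h2 : ∏ i ∈ Finset.Icc 1 n, (((Nat.factorial (6 * i - 2) : ℕ) : ℚ)
      / ((Nat.factorial (2 * n + 2 * i + 1) : ℕ) : ℚ)) =
      ∏ i ∈ range n, (((6 * i + 4).factorial : ℚ) / ((2 * n + 2 * i + 3).factorial : ℚ)) := by
    have e : Finset.Icc 1 n = Finset.Ico 1 (n + 1) := by
      ext x
      simp only [Finset.mem_Icc, Finset.mem_Ico]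
      omega
    rw [e, Finset.prod_Ico_eq_prod_range]
    apply prod_congr
    · simp
    · intro i _
      rw [show 6 * (1 + i) - 2 = 6 * i + 4 by omega,
        show 2 * n + 2 * (1 + i) + 1 = 2 * n + 2 * i + 3 by ring]
  rw [h1, h2]

theorem main (n : ℕ) (hn : 1 ≤ n) :
    (nS (fun _ : Fin (2 * n + 1) => false) D1 : ℚ) = FF n := by
  have h1 := count1 (2 * n + 1) (fun _ => false)
  have h2 : Z1 (List.replicate (2 * n + 1) (0 : ℝ)) =
      (nS (fun _ : Fin (2 * n + 1) => false) D1 : ℝ) := by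
    rw [h1]
    unfold Z1
    rw [List.length_replicate, List.ofFn_const]
  have h3 := Z1_four n hn
  rw [h2] at h3
  have h4 : (0 : ℝ) ≤ (nS (fun _ : Fin (2 * n + 1) => false) D1 : ℝ) := by positivity
  have h5 : (0 : ℝ) ≤ ((FF n : ℚ) : ℝ) := by exact_mod_cast (FF_pos n).le
  have h6 := (pow_left_inj₀ h4 h5 (by norm_num : (4 : ℕ) ≠ 0)).mp h3
  exact_mod_cast h6

end Run7.h538.OS
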