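import Pool.Agent.Run7.h538.OsaTrans

set_option autoImplicit false

/-! The skew form on polynomials and its values on the even and odd basis. -/

namespace Run7.h538.OS

open Finset Polynomial Run7.h538.Osa

/-- one variable functional -/
noncomputable def cf1 (a : ℕ) : ℚ[X] →ₗ[ℚ] ℚ := Polynomial.lsum (fun b => (cc a b) • LinearMap.id)

/-- the skew form: `cf (X ^ a) (X ^ b) = cc a b` -/
noncomputable def cf : ℚ[X] →ₗ[ℚ] ℚ[X] →ₗ[ℚ] ℚ :=
  Polynomial.lsum (fun a => LinearMap.toSpanSingleton ℚ (ℚ[X] →ₗ[ℚ] ℚ) (cf1 a))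

lemma cf_mon (a b : ℕ) : cf (X ^ a) (X ^ b) = cc a b := by
  unfold cf cf1
  rw [Polynomial.lsum_apply, ← monomial_one_right_eq_X_pow, sum_monomial_index]
  · rw [LinearMap.toSpanSingleton_apply, one_smul, Polynomial.lsum_apply,
      ← monomial_one_right_eq_X_pow, sum_monomial_index]
    · simp
    · simp
  · simp

lemma cf_C_left (c : ℚ) (p q : ℚ[X]) : cf (C c * p) q = c * cf p q := by
  rw [← smul_eq_C_mul, map_smul, LinearMap.smul_apply, smul_eq_mul]

lemma cf_C_right (c : ℚ) (p q : ℚ[X]) : cf p (C c * q) = c * cf p q := by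
  rw [← smul_eq_C_mul, map_smul, smul_eq_mul]

lemma bil_zero (E : ℚ[X] → ℚ[X] → ℚ)
    (h1 : ∀ p p' q, E (p + p') q = E p q + E p' q) (h2 : ∀ c p q, E (C c * p) q = c * E p q)
    (h3 : ∀ p q q', E p (q + q') = E p q + E p q') (h4 : ∀ c p q, E p (C c * q) = c * E p q)
    (h : ∀ a b : ℕ, E (X ^ a) (X ^ b) = 0) : ∀ p q, E p q = 0 := by
  intro p q
  induction p using Polynomial.induction_on' with
  | add p p' hp hp' => rw [h1, hp, hp', add_zero]
  | monomial a c =>
    rw [← C_mul_X_pow_eq_monomial, h2]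
    have : E (X ^ a) q = 0 := by
      induction q using Polynomial.induction_on' with
      | add q q' hq hq' => rw [h3, hq, hq', add_zero]
      | monomial b d => rw [← C_mul_X_pow_eq_monomial, h4, h, mul_zero]
    rw [this, mul_zero]

lemma cf_skew (p q : ℚ[X]) : cf p q = - cf q p := by
  have := bil_zero (fun p q => cf p q + cf q p)
    (fun p p' q => by simp only [map_add, LinearMap.add_apply]; ring)
    (fun c p q => by simp only [cf_C_left, cf_C_right]; ring)
    (fun p q q' => by simp only [map_add, LinearMap.add_apply]; ring)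
    (fun c p q => by simp only [cf_C_left, cf_C_right]; ring)
    (fun a b => by simp only [cf_mon]; rw [cc_skew a b]; ring) p q
  linarith

/-- `x (1 - x)` -/
noncomputable def ss : ℚ[X] := X - X ^ 2

/-- the relation -/
lemma cf_rel (p q : ℚ[X]) : cf (ss * p) (ss * q) - 2 * cf (X * p) (X * q) + cf (X * p) q +
    cf p (X * q) = 0 := by
  have := bil_zero (fun p q => cf (ss * p) (ss * q) - 2 * cf (X * p) (X * q) + cf (X * p) q +
    cf p (X * q))
    (fun p p' q => by simp only [mul_add, map_add, LinearMap.add_apply]; ring)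
    (fun c p q => by simp only [mul_left_comm _ (C c), cf_C_left, cf_C_right]; ring)
    (fun p q q' => by simp only [mul_add, map_add, LinearMap.add_apply]; ring)
    (fun c p q => by simp only [mul_left_comm _ (C c), cf_C_left, cf_C_right]; ring)
    (fun a b => by
      have e : ∀ a : ℕ, (ss * X ^ a : ℚ[X]) = X ^ (a + 1) - X ^ (a + 2) := by
        intro a; unfold ss; ring
      have e' : ∀ a : ℕ, (X * X ^ a : ℚ[X]) = X ^ (a + 1) := by
        intro a; ring
      simp only [e, e', map_sub, LinearMap.sub_apply, cf_mon]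
      have := rec22 a b
      linear_combination this) p q
  exact this

/-- the product relation -/
lemma cf_rel2 (p q : ℚ[X]) : cf (ss ^ 2 * p) (ss ^ 2 * q) - 3 * cf (ss * p) (ss * q) +
    cf (ss * p) q + cf p (ss * q) = 0 := by
  have hK : ∀ a b : ℕ, cf (X ^ (a + 2) * p) (X ^ (b + 2) * q) - cf (X ^ (a + 1) * p) (X ^ (b + 2) * q)
      - cf (X ^ (a + 2) * p) (X ^ (b + 1) * q) - cf (X ^ (a + 1) * p) (X ^ (b + 1) * q) +
      cf (X ^ a * p) (X ^ (b + 1) * q) + cf (X ^ (a + 1) * p) (X ^ b * q) = 0 := by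
    intro a b
    have h := cf_rel (X ^ a * p) (X ^ b * q)
    have e : ∀ (a : ℕ) (p : ℚ[X]), ss * (X ^ a * p) = X ^ (a + 1) * p - X ^ (a + 2) * p := by
      intro a p; unfold ss; ring
    have e' : ∀ (a : ℕ) (p : ℚ[X]), X * (X ^ a * p) = X ^ (a + 1) * p := by
      intro a p; ring
    simp only [e, e', map_sub, LinearMap.sub_apply] at h
    linear_combination h
  have e2 : ∀ p : ℚ[X], ss ^ 2 * p = X ^ 2 * p - C 2 * (X ^ 3 * p) + X ^ 4 * p := by
    intro p
    have : (C 2 : ℚ[X]) = 2 := rfl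
    rw [this]; unfold ss; ring
  have e1 : ∀ p : ℚ[X], ss * p = X ^ 1 * p - X ^ 2 * p := by
    intro p; unfold ss; ring
  have e0 : ∀ p : ℚ[X], p = X ^ 0 * p := by
    intro p; simp
  rw [e2 p, e2 q, e1 p, e1 q]
  have f1 : cf (X ^ 1 * p - X ^ 2 * p) q = cf (X ^ 1 * p - X ^ 2 * p) (X ^ 0 * q) := by
    rw [← e0]
  have f2 : cf p (X ^ 1 * q - X ^ 2 * q) = cf (X ^ 0 * p) (X ^ 1 * q - X ^ 2 * q) := by
    rw [← e0]
  rw [f1, f2]
  simp only [map_sub, map_add, LinearMap.sub_apply, LinearMap.add_apply, cf_C_left, cf_C_right]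
  linear_combination hK 2 2 - hK 2 1 - hK 1 2 + 3 * hK 1 1 - hK 1 0 - hK 0 1 + hK 0 0

lemma comp_pow (a : ℕ) : ((X ^ a : ℚ[X]).comp (1 - X)) =
    ∑ i ∈ range (a + 1), C ((-1) ^ i * (a.choose i : ℚ)) * X ^ i := by
  rw [pow_comp, X_comp]
  have : (1 - X : ℚ[X]) ^ a = (-X + 1) ^ a := by ring
  rw [this, add_pow]
  apply sum_congr rfl
  intro i _
  rw [neg_pow, one_pow, C_mul, C_pow, C_neg, C_1]
  have : (C (a.choose i : ℚ) : ℚ[X]) = (a.choose i : ℚ[X]) := by simp
  rw [this]
  ring

lemma cf_anti (p q : ℚ[X]) : cf (p.comp (1 - X)) (q.comp (1 - X)) = - cf p q := by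
  have := bil_zero (fun p q => cf (p.comp (1 - X)) (q.comp (1 - X)) + cf p q)
    (fun p p' q => by simp only [add_comp, map_add, LinearMap.add_apply]; ring)
    (fun c p q => by simp only [mul_comp, C_comp, cf_C_left, cf_C_right]; ring)
    (fun p q q' => by simp only [add_comp, map_add, LinearMap.add_apply]; ring)
    (fun c p q => by simp only [mul_comp, C_comp, cf_C_left, cf_C_right]; ring)
    (fun a b => by
      rw [comp_pow, comp_pow, cf_mon]
      have e0 : ∀ Q : ℚ[X], cf (∑ i ∈ range (a + 1), C ((-1) ^ i * (a.choose i : ℚ)) * X ^ i) Q =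
          ∑ i ∈ range (a + 1), cf (C ((-1) ^ i * (a.choose i : ℚ)) * X ^ i) Q := by
        intro Q
        rw [map_sum, LinearMap.sum_apply]
      rw [e0]
      have h := U_cc a b
      have e : ∀ i, cf (C ((-1) ^ i * (a.choose i : ℚ)) * X ^ i)
          (∑ j ∈ range (b + 1), C ((-1) ^ j * (b.choose j : ℚ)) * X ^ j) =
          ∑ j ∈ range (b + 1), ((-1) ^ i * (a.choose i : ℚ)) * ((-1) ^ j * (b.choose j : ℚ)) *
            cc i j := by
        intro i
        rw [map_sum]
        apply sum_congr rfl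
        intro j _
        rw [cf_C_left, cf_C_right, cf_mon]
        ring
      simp only [e]
      rw [h]
      ring) p q
  linarith

lemma ss_comp : ss.comp (1 - X) = ss := by
  unfold ss
  rw [sub_comp, pow_comp, X_comp]
  ring

lemma cf_even (i k : ℕ) : cf (ss ^ i) (ss ^ k) = 0 := by
  have := cf_anti (ss ^ i) (ss ^ k)
  rw [pow_comp, pow_comp, ss_comp] at this
  linarith

lemma cf_one (p : ℚ[X]) : cf p 1 = p.eval 0 - p.eval 1 := by
  induction p using Polynomial.induction_on' with
  | add p p' hp hp' =>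
    rw [map_add, LinearMap.add_apply, hp, hp', eval_add, eval_add]; ring
  | monomial a c =>
    rw [← C_mul_X_pow_eq_monomial, cf_C_left]
    have h := cf_mon a 0
    rw [pow_zero] at h
    rw [h]
    rcases a with _ | a
    · simp [c00]
    · rw [ca0]; simp

lemma cf_X (p : ℚ[X]) : cf p X = p.eval 0 - (derivative p).eval 1 + (derivative p).eval 0 := by
  induction p using Polynomial.induction_on' with
  | add p p' hp hp' =>
    rw [map_add, LinearMap.add_apply, hp, hp', eval_add, derivative_add, eval_add, eval_add]; ring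
  | monomial a c =>
    rw [← C_mul_X_pow_eq_monomial, cf_C_left]
    have h := cf_mon a 1
    rw [pow_one] at h
    rw [h]
    rcases a with _ | _ | a
    · simp [c01]
    · simp [c11]
    · rw [ca1]
      simp [derivative_X_pow]
      ring

end Run7.h538.OS
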