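import Mathlib

set_option autoImplicit false

/-! The bordered determinant of Mills-Robbins-Rumsey type. -/

namespace Run7.h538.OS

open Finset

/-- binomial coefficient with an integer lower argument -/
def bz (N : ℕ) (m : ℤ) : ℚ := if 0 ≤ m then (N.choose m.toNat : ℚ) else 0

lemma bz_neg (N : ℕ) (m : ℤ) (h : m < 0) : bz N m = 0 := by
  unfold bz
  rw [if_neg (by omega)]

lemma bz_nat (N k : ℕ) : bz N (k : ℤ) = (N.choose k : ℚ) := by
  unfold bz
  rw [if_pos (by omega)]
  simp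

lemma bz_pascal (N : ℕ) (m : ℤ) : bz (N + 1) (m + 1) = bz N m + bz N (m + 1) := by
  rcases lt_trichotomy (m + 1) 0 with h | h | h
  · rw [bz_neg _ _ h, bz_neg _ _ h, bz_neg N m (by omega)]; ring
  · have hm : m = -1 := by omega
    subst hm
    have h1 := bz_nat (N + 1) 0
    have h2 := bz_nat N 0
    simp at h1 h2
    rw [show (-1 : ℤ) + 1 = 0 by ring, h1, h2, bz_neg N (-1) (by omega)]
    ring
  · obtain ⟨k, rfl⟩ : ∃ k : ℕ, m = k := ⟨m.toNat, by omega⟩
    have h1 := bz_nat (N + 1) (k + 1)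
    have h2 := bz_nat N (k + 1)
    have h3 := bz_nat N k
    push_cast at h1 h2
    rw [h1, h2, h3, Nat.choose_succ_succ]
    push_cast
    ring

lemma bz_absorb (N : ℕ) (m : ℤ) : ((m : ℚ) + 1) * bz N (m + 1) = ((N : ℚ) - m) * bz N m := by
  rcases lt_trichotomy (m + 1) 0 with h | h | h
  · rw [bz_neg _ _ h, bz_neg N m (by omega)]; ring
  · have hm : m = -1 := by omega
    subst hm
    rw [bz_neg N (-1) (by omega)]
    push_cast
    ring
  · obtain ⟨k, rfl⟩ : ∃ k : ℕ, m = k := ⟨m.toNat, by omega⟩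
    have h2 := bz_nat N (k + 1)
    have h3 := bz_nat N k
    push_cast at h2
    rw [h2, h3]
    have h4 := Nat.choose_succ_right_eq N k
    by_cases hk : k ≤ N
    · have h5 : ((N - k : ℕ) : ℚ) = (N : ℚ) - k := by push_cast [hk]; ring
      have h6 : ((N.choose (k + 1) : ℕ) : ℚ) * ((k : ℚ) + 1) = (N.choose k : ℕ) * ((N - k : ℕ) : ℚ) := by
        exact_mod_cast h4
      rw [h5] at h6
      push_cast
      linarith
    · rw [Nat.choose_eq_zero_of_lt (show N < k by omega),
        Nat.choose_eq_zero_of_lt (show N < k + 1 by omega)]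
      simp

/-- the matrix -/
def Bc (i j : ℕ) : ℚ := bz (i + j + 1) (2 * (i : ℤ) - j)

/-- the companion -/
def Xc (i j : ℕ) : ℚ := bz (i + j + 2) (2 * (i : ℤ) - j)

/-- `μ` -/
def mu (x : ℚ) : ℚ := x * (x + 3)

lemma key_a (i j : ℕ) : Xc i j + Xc (i + 1) j = Bc (i + 1) j + Bc (i + 1) (j + 1) := by
  unfold Xc Bc
  push_cast
  rw [show 2 * ((i : ℤ) + 1) - j = (2 * (i : ℤ) - j) + 1 + 1 by ring,
    show 2 * ((i : ℤ) + 1) - (j + 1) = (2 * (i : ℤ) - j) + 1 by ring,
    show i + 1 + j + 2 = (i + j + 2) + 1 by ring, show i + 1 + j + 1 = i + j + 2 by ring,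
    show i + 1 + (j + 1) + 1 = (i + j + 2) + 1 by ring,
    bz_pascal (i + j + 2) (2 * (i : ℤ) - j + 1), bz_pascal (i + j + 2) (2 * (i : ℤ) - j)]
  ring

lemma key_b (i j : ℕ) : mu i * Xc i j + mu (2 * i + 2) * Xc (i + 1) j =
    mu j * Bc (i + 1) j + mu (2 * j + 2) * Bc (i + 1) (j + 1) := by
  unfold Xc Bc mu
  push_cast
  rw [show 2 * ((i : ℤ) + 1) - j = (2 * (i : ℤ) - j) + 1 + 1 by ring,
    show 2 * ((i : ℤ) + 1) - (j + 1) = (2 * (i : ℤ) - j) + 1 by ring,
    show i + 1 + j + 2 = (i + j + 2) + 1 by ring, show i + 1 + j + 1 = i + j + 2 by ring,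
    show i + 1 + (j + 1) + 1 = (i + j + 2) + 1 by ring,
    bz_pascal (i + j + 2) (2 * (i : ℤ) - j + 1), bz_pascal (i + j + 2) (2 * (i : ℤ) - j)]
  have h1 := bz_absorb (i + j + 2) (2 * (i : ℤ) - j)
  have h2 := bz_absorb (i + j + 2) (2 * (i : ℤ) - j + 1)
  push_cast at h1 h2
  linear_combination ((i : ℚ) + 2 * j + 5) * h1 + (2 * (i : ℚ) + j + 5) * h2

/-- coefficients of the left null vector -/
def al (n : ℕ) : ℕ → ℚ
  | 0 => 1
  | i + 1 => - ((mu (2 * n) - mu (2 * i)) / (mu (2 * n) - mu i)) * al n i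

lemma mu_sub (a b : ℚ) : mu a - mu b = (a - b) * (a + b + 3) := by unfold mu; ring

lemma al_rec (n i : ℕ) (hi : i < 2 * n) :
    (mu (2 * n) - mu i) * al n (i + 1) = - (mu (2 * n) - mu (2 * i)) * al n i := by
  have h : mu (2 * n) - mu i ≠ 0 := by
    rw [mu_sub]
    have h1 : (i : ℚ) < 2 * n := by exact_mod_cast hi
    have h2 : (0 : ℚ) ≤ i := by positivity
    apply mul_ne_zero
    · intro h; linarith
    · intro h; linarith
  simp only [al]
  field_simp

/-- the transformed row -/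
def Tt (n j : ℕ) : ℚ := ∑ i ∈ range (n + 1), al n i * Bc i j

lemma Xc_zero (j : ℕ) : Xc 0 j = if j = 0 then 1 else 0 := by
  unfold Xc
  by_cases h : j = 0
  · subst h
    have := bz_nat 2 0
    simp at this
    simp [this]
  · rw [if_neg h, bz_neg _ _ (by push_cast; omega)]

lemma Bc_zero (j : ℕ) : Bc 0 j = if j = 0 then 1 else 0 := by
  unfold Bc
  by_cases h : j = 0
  · subst h
    have := bz_nat 1 0
    simp at this
    simp [this]
  · rw [if_neg h, bz_neg _ _ (by push_cast; omega)]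

lemma Tt_rec (n j : ℕ) :
    (mu (2 * n) - mu (2 * j + 2)) * Tt n (j + 1) + (mu (2 * n) - mu j) * Tt n j = 0 := by
  -- partial sums
  have key : ∀ m : ℕ, m ≤ n → (mu (2 * n) - mu (2 * j + 2)) * (∑ i ∈ range (m + 1),
      al n i * Bc i (j + 1)) + (mu (2 * n) - mu j) * (∑ i ∈ range (m + 1), al n i * Bc i j) =
      al n m * (mu (2 * n) - mu (2 * m)) * Xc m j := by
    intro m
    induction m with
    | zero =>
      intro _
      simp only [zero_add, sum_range_one, al, Bc_zero, Xc_zero]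
      by_cases h : j = 0
      · subst h
        simp [mu]
      · simp [h]
    | succ m ih =>
      intro hm
      have h1 := ih (by omega)
      have h2 := al_rec n m (by omega)
      have h3 := key_a m j
      have h4 := key_b m j
      rw [sum_range_succ, sum_range_succ (fun i => al n i * Bc i j)]
      push_cast
      rw [show (2 : ℚ) * ((m : ℚ) + 1) = 2 * m + 2 by ring]
      linear_combination h1 - al n (m + 1) * mu (2 * n) * h3 + al n (m + 1) * h4 + Xc m j * h2
  have h := key n le_rfl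
  rw [sub_self, mul_zero, zero_mul] at h
  exact h

lemma Tt_zero (n : ℕ) (hn : 1 ≤ n) : Tt n 0 = 0 := by
  unfold Tt
  obtain ⟨m, rfl⟩ : ∃ m, n = m + 1 := ⟨n - 1, by omega⟩
  rw [sum_range_succ', sum_range_succ']
  have h1 : ∑ i ∈ range m, al (m + 1) (i + 1 + 1) * Bc (i + 1 + 1) 0 = 0 := by
    apply sum_eq_zero
    intro i _
    have : Bc (i + 1 + 1) 0 = 0 := by
      unfold Bc
      have := bz_nat (i + 1 + 1 + 0 + 1) (2 * i + 4)
      push_cast at this
      push_cast
      rw [show 2 * ((i : ℤ) + 1 + 1) - 0 = 2 * i + 4 by ring, this, Nat.choose_eq_zero_of_lt (by omega)]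
      simp
    rw [this, mul_zero]
  have h2 := al_rec (m + 1) 0 (by omega)
  have h3 : Bc (0 + 1) 0 = 1 := by
    unfold Bc
    have := bz_nat 2 2
    norm_num at this ⊢
    exact this
  have h4 : mu (2 * ((m + 1 : ℕ) : ℚ)) ≠ 0 := by
    unfold mu
    positivity
  rw [h1, h3, Bc_zero]
  simp only [zero_add, al, if_true, mul_one]
  have h5 : mu (2 * ((0 : ℕ) : ℚ)) = 0 := by simp [mu]
  have h6 : mu ((0 : ℕ) : ℚ) = 0 := by simp [mu]
  rw [h5, h6, sub_zero, div_self h4]
  ring

lemma Tt_low (n : ℕ) : ∀ j, j < n → Tt n j = 0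
  | 0, h => Tt_zero n h
  | j + 1, h => by
      have h1 := Tt_rec n j
      rw [Tt_low n j (by omega), mul_zero, add_zero] at h1
      have h2 : mu (2 * n) - mu (2 * j + 2) ≠ 0 := by
        rw [mu_sub]
        have h1 : (j : ℚ) + 1 < n := by exact_mod_cast h
        have h2 : (0 : ℚ) ≤ j := by positivity
        apply mul_ne_zero
        · intro h; linarith
        · intro h; linarith
      exact (mul_eq_zero.mp h1).resolve_left h2

end Run7.h538.OS
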