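import Pool.Agent.Run7.h538.OS.Form
import Pool.Agent.Run7.h538.OS.Mrr

set_option autoImplicit false

/-! The values of the form on the even and odd basis. -/

namespace Run7.h538.OS

open Finset Polynomial Run7.h538.Osa

/-- pairing of `(x (1 - x)) ^ i` with `x (x (1 - x)) ^ j` -/
noncomputable def Mp (i j : ℕ) : ℚ := cf (ss ^ i) (X * ss ^ j)

/-- signed binomial matrix -/
def Aq (i j : ℕ) : ℚ := (-1) ^ (i + j) * Bc i j

/-- partial sums -/
def Gq (i j : ℕ) : ℚ := Aq i j + 3 * ∑ k ∈ range i, Aq k j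

lemma Mp_rec (i j : ℕ) :
    Mp (i + 2) (j + 2) - 3 * Mp (i + 1) (j + 1) + Mp i (j + 1) + Mp (i + 1) j = 0 := by
  have h := cf_rel2 (ss ^ i) (X * ss ^ j)
  have e1 : ss ^ 2 * ss ^ i = ss ^ (i + 2) := by ring
  have e2 : ss ^ 2 * (X * ss ^ j) = X * ss ^ (j + 2) := by ring
  have e3 : ss * ss ^ i = ss ^ (i + 1) := by ring
  have e4 : ss * (X * ss ^ j) = X * ss ^ (j + 1) := by ring
  rw [e1, e2, e3, e4] at h
  unfold Mp
  linear_combination h

lemma Aq_rec (i j : ℕ) :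
    Aq (i + 2) (j + 2) - 3 * Aq (i + 1) (j + 1) + Aq i (j + 1) + Aq (i + 1) j = 0 := by
  unfold Aq Bc
  push_cast
  rw [show 2 * ((i : ℤ) + 2) - (j + 2) = (2 * (i : ℤ) - j - 1) + 1 + 1 + 1 by ring,
    show 2 * ((i : ℤ) + 1) - (j + 1) = (2 * (i : ℤ) - j - 1) + 1 + 1 by ring,
    show 2 * ((i : ℤ)) - (j + 1) = (2 * (i : ℤ) - j - 1) by ring,
    show 2 * ((i : ℤ) + 1) - j = (2 * (i : ℤ) - j - 1) + 1 + 1 + 1 by ring,
    show i + 2 + (j + 2) + 1 = (i + j + 2) + 1 + 1 + 1 by ring,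
    show i + 1 + (j + 1) + 1 = (i + j + 2) + 1 by ring,
    show i + (j + 1) + 1 = (i + j + 2) by ring,
    show i + 1 + j + 1 = (i + j + 2) by ring]
  set m := 2 * (i : ℤ) - j - 1 with hm
  set N := i + j + 2 with hN
  rw [bz_pascal (N + 1 + 1) (m + 1 + 1), bz_pascal (N + 1) (m + 1 + 1),
    bz_pascal (N + 1) (m + 1), bz_pascal N (m + 1 + 1), bz_pascal N (m + 1), bz_pascal N m]
  rw [show i + 2 + (j + 2) = i + j + 4 by ring, show i + 1 + (j + 1) = i + j + 2 by ring,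
    show i + (j + 1) = i + j + 1 by ring, show i + 1 + j = i + j + 1 by ring,
    pow_add, pow_add (-1 : ℚ) (i + j) 2, pow_add (-1 : ℚ) (i + j) 1]
  norm_num
  ring

lemma Aq_zero (j : ℕ) : Aq 0 j = if j = 0 then 1 else 0 := by
  unfold Aq
  rw [Bc_zero]
  by_cases h : j = 0
  · subst h; simp
  · simp [h]

lemma Aq_one (j : ℕ) : Aq 1 (j + 2) = if j = 0 then -1 else 0 := by
  unfold Aq Bc
  by_cases h : j = 0
  · subst h
    have := bz_nat 4 0
    norm_num at this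
    norm_num [this]
  · rw [if_neg h, bz_neg _ _ (by push_cast; omega), mul_zero]

lemma Aq_10 : Aq 1 0 = -1 := by
  unfold Aq Bc
  have := bz_nat 2 2
  norm_num at this
  norm_num [this]

lemma Aq_11 : Aq 1 1 = 3 := by
  unfold Aq Bc
  have := bz_nat 3 1
  norm_num at this
  norm_num [this]

lemma Aq_21 : Aq 2 1 = -4 := by
  unfold Aq Bc
  have := bz_nat 4 3
  norm_num at this
  norm_num [this, Nat.choose]

lemma Aq_31 : Aq 3 1 = 1 := by
  unfold Aq Bc
  have := bz_nat 5 5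
  norm_num at this
  norm_num [this]

lemma Aq_i0 (i : ℕ) : Aq (i + 2) 0 = 0 := by
  unfold Aq Bc
  have := bz_nat (i + 3) (2 * i + 4)
  rw [Nat.choose_eq_zero_of_lt (by omega)] at this
  push_cast at this
  rw [show i + 2 + 0 + 1 = i + 3 by ring]
  push_cast
  rw [show 2 * ((i : ℤ) + 2) - 0 = 2 * i + 4 by ring, this, mul_zero]

lemma Aq_i1 (i : ℕ) : Aq (i + 4) 1 = 0 := by
  unfold Aq Bc
  have := bz_nat (i + 6) (2 * i + 7)
  rw [Nat.choose_eq_zero_of_lt (by omega)] at this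
  push_cast at this
  rw [show i + 4 + 1 + 1 = i + 6 by ring]
  push_cast
  rw [show 2 * ((i : ℤ) + 4) - 1 = 2 * i + 7 by ring, this, mul_zero]

lemma Gq_rec (i j : ℕ) :
    Gq (i + 2) (j + 2) - 3 * Gq (i + 1) (j + 1) + Gq i (j + 1) + Gq (i + 1) j = 0 := by
  unfold Gq
  rw [sum_range_succ', sum_range_succ', sum_range_succ' (fun k => Aq k (j + 1)),
    sum_range_succ' (fun k => Aq k j)]
  have h1 := Aq_rec i j
  have h2 : ∑ k ∈ range i, Aq (k + 1 + 1) (j + 2) - 3 * ∑ k ∈ range i, Aq (k + 1) (j + 1) +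
      ∑ k ∈ range i, Aq k (j + 1) + ∑ k ∈ range i, Aq (k + 1) j = 0 := by
    rw [mul_sum, ← sum_sub_distrib, ← sum_add_distrib, ← sum_add_distrib]
    apply sum_eq_zero
    intro k _
    exact Aq_rec k j
  have h3 := Aq_one j
  rw [show 0 + 1 = 1 by rfl, h3, Aq_zero, Aq_zero, Aq_zero]
  by_cases hj : j = 0
  · subst hj
    simp only [if_true]
    norm_num
    linear_combination h1 + 3 * h2
  · simp only [hj, if_false]
    norm_num
    linear_combination h1 + 3 * h2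

lemma ss0 : ss.eval 0 = 0 := by unfold ss; simp
lemma ss1 : ss.eval 1 = 0 := by unfold ss; simp
lemma dss : derivative ss = 1 - 2 * X := by
  unfold ss
  rw [derivative_sub, derivative_X, derivative_X_pow]
  simp
  rfl

lemma v1 (q : ℚ[X]) : cf (ss ^ 2 * q) 1 = 0 := by
  rw [cf_one]; simp [ss0, ss1]

lemma vX (q : ℚ[X]) : cf (ss ^ 2 * q) X = 0 := by
  rw [cf_X]; simp [ss0, ss1, derivative_mul, derivative_pow, dss]

lemma Mp_i0 (i : ℕ) : Mp (i + 2) 0 = 0 := by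
  unfold Mp
  rw [pow_zero, mul_one, show ss ^ (i + 2) = ss ^ 2 * ss ^ i by ring, vX]

lemma Mp_00 : Mp 0 0 = 1 := by
  unfold Mp
  rw [pow_zero, mul_one, cf_X]; simp

lemma Mp_10 : Mp 1 0 = 2 := by
  unfold Mp
  rw [pow_zero, mul_one, pow_one, cf_X, dss, ss0]; norm_num

lemma Mp_0j (j : ℕ) : Mp 0 (j + 1) = 0 := by
  unfold Mp
  rw [pow_zero, cf_skew, cf_one]; simp [ss0, ss1]

lemma rel_1j (j : ℕ) : Mp 1 (j + 1) = - 2 * cf (X * (X * ss ^ j)) X + cf (X * ss ^ j) X +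
    cf (X * (X * ss ^ j)) 1 := by
  have h := cf_rel 1 (X * ss ^ j)
  rw [mul_one, mul_one, cf_skew X (X * (X * ss ^ j)), cf_skew X (X * ss ^ j),
    cf_skew 1 (X * (X * ss ^ j))] at h
  unfold Mp
  rw [pow_one, show X * ss ^ (j + 1) = ss * (X * ss ^ j) by ring]
  linear_combination h

lemma Mp_11 : Mp 1 1 = 3 := by
  rw [show (1 : ℕ) = 0 + 1 by rfl, rel_1j 0, cf_X, cf_X, cf_one]
  simp [derivative_mul]
  norm_num

lemma Mp_12 : Mp 1 2 = -1 := by
  rw [show (2 : ℕ) = 1 + 1 by rfl, rel_1j 1, cf_X, cf_X, cf_one]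
  simp [derivative_mul, dss, ss0, ss1]
  norm_num

lemma Mp_1j (j : ℕ) : Mp 1 (j + 3) = 0 := by
  rw [show j + 3 = (j + 2) + 1 by ring, rel_1j (j + 2),
    show X * (X * ss ^ (j + 2)) = ss ^ 2 * (X ^ 2 * ss ^ j) by ring,
    show X * ss ^ (j + 2) = ss ^ 2 * (X * ss ^ j) by ring, vX, vX, v1]
  ring

lemma rel_X2 (p : ℚ[X]) : cf (ss * p) (X * X) = cf (ss * p) X - 2 * cf (X * p) X +
    cf (X * p) 1 + cf p X := by
  have h := cf_rel p 1
  rw [mul_one, mul_one] at h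
  have e : cf (ss * p) ss = cf (ss * p) X - cf (ss * p) (X * X) := by
    rw [← map_sub]
    congr 1
    unfold ss
    ring
  rw [e] at h
  linear_combination (-1 : ℚ) * h

lemma rel_i1 (i : ℕ) : Mp (i + 2) 1 = 2 * cf (ss * (X * ss ^ i)) (X * X) -
    cf (ss * (X * ss ^ i)) X - cf (ss * ss ^ i) (X * X) := by
  have h := cf_rel (ss ^ (i + 1)) X
  unfold Mp
  rw [show ss ^ (i + 2) = ss * ss ^ (i + 1) by ring, pow_one,
    show (X * ss : ℚ[X]) = ss * X by ring]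
  rw [show X * ss ^ (i + 1) = ss * (X * ss ^ i) by ring] at h
  rw [show ss * ss ^ i = ss ^ (i + 1) by ring]
  linear_combination h

lemma Mp_21 : Mp 2 1 = 5 := by
  rw [show (2 : ℕ) = 0 + 2 by rfl, rel_i1 0, rel_X2, rel_X2]
  simp only [cf_X, cf_one]
  simp [derivative_mul, dss, ss0, ss1]
  norm_num

lemma Mp_31 : Mp 3 1 = -2 := by
  rw [show (3 : ℕ) = 1 + 2 by rfl, rel_i1 1, rel_X2, rel_X2]
  simp only [cf_X, cf_one]
  simp [derivative_mul, dss, ss0, ss1]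
  norm_num

lemma Mp_i1 (i : ℕ) : Mp (i + 4) 1 = 0 := by
  rw [show i + 4 = (i + 2) + 2 by rfl, rel_i1 (i + 2), rel_X2, rel_X2]
  simp only [cf_X, cf_one]
  simp [derivative_mul, derivative_pow, dss, ss0, ss1]

theorem Mp_eq : ∀ i j : ℕ, Mp i j = Gq i j
  | 0, 0 => by rw [Mp_00]; unfold Gq; rw [Aq_zero]; simp
  | 0, j + 1 => by rw [Mp_0j]; unfold Gq; rw [Aq_zero]; simp
  | 1, 0 => by rw [Mp_10]; unfold Gq; rw [Aq_10, sum_range_one, Aq_zero]; norm_num
  | 1, 1 => by rw [Mp_11]; unfold Gq; rw [Aq_11, sum_range_one, Aq_zero]; norm_num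
  | 1, 2 => by
      rw [Mp_12]; unfold Gq
      rw [sum_range_one, Aq_zero, show (2 : ℕ) = 0 + 2 by rfl, Aq_one]; norm_num
  | 1, j + 3 => by
      rw [Mp_1j]; unfold Gq
      rw [sum_range_one, Aq_zero, show j + 3 = (j + 1) + 2 by rfl, Aq_one]; norm_num
  | i + 2, 0 => by
      rw [Mp_i0]; unfold Gq
      rw [Aq_i0, sum_range_succ', sum_range_succ', sum_eq_zero (fun k _ => Aq_i0 k), Aq_10,
        Aq_zero]
      norm_num
  | 2, 1 => by
      rw [Mp_21]; unfold Gq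
      rw [Aq_21, sum_range_succ, sum_range_one, Aq_11, Aq_zero]; norm_num
  | 3, 1 => by
      rw [Mp_31]; unfold Gq
      rw [Aq_31, sum_range_succ, sum_range_succ, sum_range_one, Aq_21, Aq_11, Aq_zero]; norm_num
  | i + 4, 1 => by
      rw [Mp_i1]; unfold Gq
      rw [Aq_i1, sum_range_succ', sum_range_succ', sum_range_succ', sum_range_succ',
        sum_eq_zero (fun k _ => Aq_i1 k), Aq_31, Aq_21, Aq_11, Aq_zero]
      norm_num
  | i + 2, j + 2 => by
      have h1 := Mp_rec i j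
      have h2 := Gq_rec i j
      rw [Mp_eq (i + 1) (j + 1), Mp_eq i (j + 1), Mp_eq (i + 1) j] at h1
      linarith

end Run7.h538.OS
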