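import Pool.Agent.Run7.h538.OS.Even

set_option autoImplicit false

/-! The Pfaffian formula for the partition functions: odd case. -/

namespace Run7.h538.OS

open Polynomial Pool.Agent.Helper929

/-- points with border -/
def bd {N : ℕ} (z : Fin N → ℝ) : Fin (N + 1) → Option ℝ :=
  Fin.snoc (α := fun _ => Option ℝ) (un z) none

lemma bd_castSucc {N : ℕ} (z : Fin N → ℝ) (i : Fin N) : bd z i.castSucc = some (z i) := by
  simp [bd, un]

lemma bd_last {N : ℕ} (z : Fin N → ℝ) : bd z (Fin.last N) = none := by
  simp [bd]

lemma expand_odd {n : ℕ} (hn : Odd n) (x : ℝ) (z : Fin (n + 1) → ℝ) (h0 : 1 - 2 * x ≠ 0)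
    (h1 : ∀ j, 1 - x * z j ≠ 0) (h2 : ∀ j, 1 - x - z j ≠ 0) :
    (1 - 2 * x) * Wt x (List.ofFn z) *
        pf (n + 3) (MM (bd (Fin.cons x z : Fin (n + 2) → ℝ))) =
      (1 - 2 * x) * (∑ j : Fin (n + 1), (-1) ^ (j : ℕ) * pf (n + 1) (MM (bd (rmv z j))) *
        ((z j - x) * Wt x (List.ofFn (rmv z j)))) +
      Wt x (List.ofFn z) * pf (n + 1) (MM (un z)) := by
  rw [pf_expand, Fin.sum_univ_castSucc]
  have e0 : bd (Fin.cons x z : Fin (n + 2) → ℝ) 0 = some x := by
    have := bd_castSucc (Fin.cons x z : Fin (n + 2) → ℝ) 0
    simpa using this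
  have e1 : ∀ j : Fin (n + 1), bd (Fin.cons x z : Fin (n + 2) → ℝ) (j.castSucc).succ =
      some (z j) := by
    intro j
    have := bd_castSucc (Fin.cons x z : Fin (n + 2) → ℝ) j.succ
    rw [Fin.succ_castSucc, this]
    simp
  have e2 : bd (Fin.cons x z : Fin (n + 2) → ℝ) (Fin.last (n + 1)).succ = none := by
    rw [Fin.succ_last]
    exact bd_last _
  have e3 : ∀ j : Fin (n + 1), (fun k : Fin (n + 1) =>
      bd (Fin.cons x z : Fin (n + 2) → ℝ) ((j.castSucc).succAbove k).succ) = bd (rmv z j) := by
    intro j
    funext k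
    refine Fin.lastCases ?_ (fun k => ?_) k
    · have hj : j.castSucc.succAbove (Fin.last n) = Fin.last (n + 1) := by
        rw [Fin.succAbove_of_le_castSucc _ _ (by
          rw [Fin.le_def, Fin.val_castSucc, Fin.val_castSucc, Fin.val_last]
          have := j.isLt
          omega), Fin.succ_last]
      rw [bd_last, hj]
      exact e2
    · rw [bd_castSucc, Fin.castSucc_succAbove_castSucc, e1]
      rfl
  have e4 : (fun k : Fin (n + 1) =>
      bd (Fin.cons x z : Fin (n + 2) → ℝ) ((Fin.last (n + 1)).succAbove k).succ) = un z := by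
    funext k
    rw [Fin.succAbove_last, e1]
    rfl
  have e5 : (-1 : ℝ) ^ ((Fin.last (n + 1) : Fin (n + 2)) : ℕ) = 1 := by
    rw [Fin.val_last]
    exact Even.neg_one_pow (by simpa using hn.add_one)
  rw [e4, e5, e0, e2, mul_add]
  congr 1
  · rw [Finset.mul_sum, Finset.mul_sum]
    apply Finset.sum_congr rfl
    intro j _
    rw [e1, e3, Wt_rmv x z j, Fin.val_castSucc]
    have := h1 j
    have := h2 j
    simp only [Bm]
    field_simp
  · simp only [Bm]
    field_simp

/-- the Pfaffian formula for an odd number of lines -/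
def StarO (n : ℕ) : Prop := ∀ z : Fin n → ℝ, Good z →
  Z1 (List.ofFn z) * VL (List.ofFn z) =
    HL (List.ofFn z) * QL (List.ofFn z) * pf (n + 1) (MM (bd z))

lemma Z1_cons (x : ℝ) (xs : List ℝ) : Z1 (x :: xs) =
    (1 - 2 * x) * row x false xs (G1 xs) (List.replicate xs.length false) +
      row x true xs (G0 xs) (List.replicate xs.length false) := by
  unfold Z1
  rw [List.length_cons, List.replicate_succ]
  simp only [G1, kd, Bool.not_false, one_mul]

lemma prod_sub_swap (a : ℝ) : ∀ L : List ℝ,
    (L.map (fun y => y - a)).prod = (-1) ^ L.length * (L.map (fun y => a - y)).prod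
  | [] => by simp
  | b :: L => by
      simp only [List.map_cons, List.prod_cons, List.length_cons, pow_succ]
      rw [prod_sub_swap a L]
      ring

lemma step_odd (n : ℕ) (hn : Odd n) (ihE : StarE (n + 1)) (ih : StarO n) : StarO (n + 2) := by
  intro zz hzz
  obtain ⟨x, z, rfl⟩ : ∃ (x : ℝ) (z : Fin (n + 1) → ℝ), zz = Fin.cons x z :=
    ⟨zz 0, Fin.tail zz, (Fin.cons_self_tail zz).symm⟩
  have hx : 0 < x ∧ x < 1 / 10 := by simpa using hzz.1 0
  have hz : Good z := by
    refine ⟨fun i => by simpa using hzz.1 i.succ, fun a b hab => ?_⟩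
    have := hzz.2 (a₁ := a.succ) (a₂ := b.succ) (by simpa using hab)
    simpa using this
  set xs := List.ofFn z with hxs
  have hlen : xs.length = n + 1 := by simp [hxs]
  set c : Fin (n + 1) → ℝ := fun j => HL xs * QL xs * pf (n + 1) (MM (bd (rmv z j))) with hc
  set cL : ℝ := HL xs * QL xs * pf (n + 1) (MM (un z)) with hcL
  set A : ℝ[X] := (1 - 2 * X) * row X false (xs.map C) (fun t => C (G1 xs t))
      (List.replicate xs.length false) +
    row X true (xs.map C) (fun t => C (G0 xs t)) (List.replicate xs.length false) with hA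
  set P : ℝ[X] := A * (xs.map (fun y => C y - X)).prod * C (VL xs) with hP
  set R : ℝ[X] := (1 - 2 * X) * RP z c + C cL * Wt X (xs.map C) with hR
  have hAe : ∀ y : ℝ, A.eval y = Z1 (y :: xs) := by
    intro y
    rw [hA, eval_add, eval_mul, eval_row, eval_row, Z1_cons]
    simp
  have hPe : ∀ y : ℝ, P.eval y = A.eval y * (xs.map (fun w => w - y)).prod * VL xs := by
    intro y
    rw [hP, eval_mul, eval_mul, eval_prod, eval_C]
  have hRe' : ∀ y : ℝ, R.eval y = (1 - 2 * y) * (RP z c).eval y + cL * Wt y xs := by
    intro y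
    rw [hR, eval_add, eval_mul, eval_mul, eval_Wt, eval_C]
    simp
  have hRe : ∀ y : ℝ, 1 - 2 * y ≠ 0 → (∀ j, 1 - y * z j ≠ 0) → (∀ j, 1 - y - z j ≠ 0) →
      R.eval y = HL xs * QL xs *
        ((1 - 2 * y) * Wt y xs * pf (n + 3) (MM (bd (Fin.cons y z : Fin (n + 2) → ℝ)))) := by
    intro y h0 h1 h2
    rw [expand_odd hn y z h0 h1 h2, hRe', RP_eval, mul_add]
    congr 1
    · rw [Finset.mul_sum, Finset.mul_sum, Finset.mul_sum]
      apply Finset.sum_congr rfl
      intro j _
      rw [hc]
      ring
    · rw [hcL]
      ring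
  have hhalf : (1 / 2 : ℝ) ∉ pts z := by
    intro h
    unfold pts at h
    rw [Finset.mem_union, Finset.mem_image, Finset.mem_image] at h
    rcases h with ⟨j, _, h⟩ | ⟨j, _, h⟩
    · have := (hz.1 j).2
      rw [h] at this
      linarith
    · have h2 := hz.1 j
      have h3 : (10 : ℝ) < 1 / z j := by
        rw [lt_div_iff₀ h2.1]; linarith
      rw [h] at h3
      linarith
  have key : P = R := by
    apply eq_of_degrees_lt_of_eval_finset_eq (insert (1 / 2) (pts z))
    · rw [Finset.card_insert_of_notMem hhalf, pts_card z hz]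
      apply lt_of_le_of_lt degree_le_natDegree
      have h1 : A.natDegree ≤ n + 1 := by
        rw [hA]
        apply deg_add
        · have h3 := deg_row_false xs (G1 xs)
          have h4 : (1 - 2 * X : ℝ[X]).natDegree ≤ 1 := by
            apply deg_sub
            · simp
            · have : (2 * X : ℝ[X]) = C 2 * X := rfl
              rw [this]
              exact (natDegree_C_mul_le _ _).trans natDegree_X_le
          rw [hlen, Nat.add_sub_cancel] at h3
          rw [hlen]
          have := deg_mul _ _ 1 n h4 h3
          omega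
        · have h3 := deg_row_true xs (G0 xs)
          rw [hlen] at h3 ⊢
          exact h3
      have h2 : ((xs.map (fun y => C y - X)).prod : ℝ[X]).natDegree ≤ 1 * (n + 1) := by
        rw [← hlen]
        exact natDegree_prod_le xs (fun y => C y - X) 1 deg_lin3
      have h3 : P.natDegree ≤ ((n + 1) + 1 * (n + 1)) + 0 := by
        rw [hP]
        exact deg_mul _ _ _ _ (deg_mul _ _ _ _ h1 h2) (by simp)
      exact_mod_cast (by omega : P.natDegree < 2 * n + 2 + 1)
    · rw [Finset.card_insert_of_notMem hhalf, pts_card z hz]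
      apply lt_of_le_of_lt degree_le_natDegree
      have h1 : R.natDegree ≤ 2 * n + 2 := by
        rw [hR]
        apply deg_add
        · have h4 : (1 - 2 * X : ℝ[X]).natDegree ≤ 1 := by
            apply deg_sub
            · simp
            · have : (2 * X : ℝ[X]) = C 2 * X := rfl
              rw [this]
              exact (natDegree_C_mul_le _ _).trans natDegree_X_le
          have := deg_mul _ _ _ _ h4 (RP_deg z c)
          omega
        · refine (natDegree_C_mul_le _ _).trans ?_
          have := natDegree_prod_le xs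
            ((fun y => (1 - X * y) * (1 - X - y)) ∘ C) 2
            (fun y => deg_mul _ _ 1 1 (deg_lin1 y) (deg_lin2 y))
          unfold Wt
          rw [List.map_map]
          rw [hlen] at this
          omega
      exact_mod_cast (by omega : R.natDegree < 2 * n + 2 + 1)
    · intro y hy
      rw [Finset.mem_insert] at hy
      rcases hy with rfl | hy
      · rw [hPe, hAe, hRe', Z1_half (1 / 2) (by norm_num)]
        have hE := ihE z hz
        rw [← hxs] at hE
        rw [prod_sub_swap, hlen, hn.add_one.neg_one_pow, Wt_eq]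
        have : (xs.map (fun y => (1 : ℝ) - 1 / 2 - y)).prod =
            (xs.map (fun y => (1 : ℝ) / 2 - y)).prod := by
          congr 1
          apply List.map_congr_left
          intro a _
          ring
        rw [this]
        linear_combination ((xs.map (fun y => (1 : ℝ) - 1 / 2 * y)).prod *
          (xs.map (fun y => (1 : ℝ) / 2 - y)).prod) * hE
      · unfold pts at hy
        rw [Finset.mem_union, Finset.mem_image, Finset.mem_image] at hy
        rcases hy with ⟨j, _, rfl⟩ | ⟨j, _, rfl⟩
        · rw [hPe, hRe _ (good_ne (hz.1 j) (hz.1 j)).2.2.2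
            (fun i => (good_ne (hz.1 j) (hz.1 i)).1)
            (fun i => (good_ne (hz.1 j) (hz.1 i)).2.1),
            pf_eq_zero (n + 3) _ 0 (j.succ).castSucc (by
              intro h
              have := congrArg Fin.val h
              simp at this) (by
              rw [bd_castSucc]
              have := bd_castSucc (Fin.cons (z j) z : Fin (n + 2) → ℝ) 0
              simp only [Fin.castSucc_zero, Fin.cons_zero] at this
              rw [this]
              simp)]
          have : (xs.map (fun w => w - z j)).prod = 0 := by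
            rw [List.prod_eq_zero_iff, List.mem_map]
            exact ⟨z j, by rw [hxs, List.mem_ofFn]; exact ⟨j, rfl⟩, by ring⟩
          rw [this]
          ring
        · have hzj := hz.1 j
          have hz0 : z j ≠ 0 := hzj.1.ne'
          have hinv : 1 / z j * z j = 1 := by field_simp
          rw [hRe', RP_eval_inv z c (1 / z j) j (by rw [hinv]; ring), hPe]
          obtain ⟨ps, qs, h1, h2, h3⟩ := ofFn_split n z j
          have h3' : List.ofFn (rmv z j) = ps ++ qs := h3
          have hih := ih (rmv z j) (hz.rmv j)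
          rw [h3'] at hih ⊢
          have hW : Wt (1 / z j) xs = 0 := by
            rw [hxs, h2, Wt_split, hinv]
            ring
          have hlast : A.eval (1 / z j) = (1 - 2 * (1 / z j)) *
              (((ps ++ qs).map (fun y => 1 - 1 / z j - y)).prod *
              (((ps ++ qs).map (fun y => 1 - y - z j)).prod * (1 - 2 * z j) *
                Z1 (ps ++ qs))) := by
            rw [hAe, ← Z1_corner (1 / z j) (z j) (by rw [hinv]; ring), hxs, h2]
            have := Z1_move (z j) qs (1 / z j :: ps) (fun q hq => by
              have hqm : q ∈ List.ofFn z := by rw [h2]; simp [hq]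
              rw [List.mem_ofFn] at hqm
              obtain ⟨i, rfl⟩ := hqm
              exact (good_ne (hz.1 j) (hz.1 i)).2.2.1)
            simpa using this
          have hpt := point_eq (1 / z j) (z j) _ (Z1 (ps ++ qs))
            (pf (n + 1) (MM (bd (rmv z j)))) ps qs hinv rfl hih
          rw [← h2, h1] at hpt
          rw [← hxs] at hpt
          rw [hlast, hW]
          linear_combination (1 - 2 * (1 / z j)) * hpt
  have hfin : P.eval x = R.eval x := by rw [key]
  rw [hPe, hRe x (good_ne hx hx).2.2.2 (fun i => (good_ne hx (hz.1 i)).1)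
    (fun i => (good_ne hx (hz.1 i)).2.1), hAe] at hfin
  rw [List.ofFn_succ]
  simp only [Fin.cons_zero, Fin.cons_succ]
  rw [← hxs]
  have eH : HL (x :: xs) = (1 - 2 * x) * HL xs := by simp [HL]
  have eQ : QL (x :: xs) = Wt x xs * QL xs := rfl
  have eV : VL (x :: xs) = (xs.map (fun y => y - x)).prod * VL xs := rfl
  rw [eH, eQ, eV]
  linear_combination hfin

theorem star_odd : ∀ n : ℕ, StarO (2 * n + 1)
  | 0 => by
      intro z hz
      have h1 : List.ofFn z = [z 0] := by simp
      have hne := (good_ne (hz.1 0) (hz.1 0)).2.2.2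
      have e1 : bd z 0 = some (z 0) := bd_castSucc z 0
      have e2 : bd z (Fin.succ 0) = none := bd_last z
      rw [h1, pf_expand]
      rw [Fin.sum_univ_castSucc]
      simp only [Finset.univ_eq_empty, Finset.sum_empty, pf]
      rw [e1]
      have e3 : bd z (Fin.last 0).succ = none := bd_last z
      rw [e3]
      simp [Z1, G1, G0, VL, HL, QL, row, kd, Bm]
      field_simp
  | n + 1 => step_odd (2 * n + 1) (by exact odd_two_mul_add_one n) (star_even (n + 1)) (star_odd n)

end Run7.h538.OS
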