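import Pool.Agent.Run7.h538.OS.Ser
import Pool.Agent.Run7.h538.OS.Odd

set_option autoImplicit false

/-! Entrywise limits. -/

namespace Run7.h538.OS

open Finset Filter Topology Run7.h538.Osa

lemma lim_aux (F : ℝ → ℝ) (s : ℕ → ℝ) (d M : ℕ) (hd : d < M) (e : ℝ → ℝ)
    (he : ContinuousAt e 0)
    (hF : ∀ᶠ t in 𝓝[>] (0 : ℝ), F t = (∑ i ∈ range M, s i * t ^ i) + t ^ M * e t)
    (hs : ∀ i, i < d → s i = 0) :
    Tendsto (fun t => F t / t ^ d) (𝓝[>] 0) (𝓝 (s d)) := by
  set g : ℝ → ℝ := fun t => (∑ i ∈ range (M - d), s (i + d) * t ^ i) + t ^ (M - d) * e t with hg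
  have h1 : g 0 = s d := by
    rw [hg]
    simp only
    rw [zero_pow (by omega), zero_mul, add_zero, sum_eq_single 0]
    · simp
    · intro b _ hb
      rw [zero_pow hb, mul_zero]
    · intro h
      exfalso
      apply h
      rw [mem_range]
      omega
  have h2 : ContinuousAt g 0 := by
    rw [hg]
    apply ContinuousAt.add
    · exact (continuous_finsetSum _ (fun i _ => by fun_prop)).continuousAt
    · exact ((continuous_pow _).continuousAt).mul he
  have h3 : Tendsto g (𝓝[>] 0) (𝓝 (s d)) := by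
    rw [← h1]
    exact h2.tendsto.mono_left nhdsWithin_le_nhds
  refine h3.congr' ?_
  filter_upwards [hF, self_mem_nhdsWithin] with t ht htpos
  have htpos' : (0 : ℝ) < t := htpos
  rw [ht, hg]
  simp only
  have hMd : M = (M - d) + d := by omega
  have h4 : ∑ i ∈ range M, s i * t ^ i = t ^ d * ∑ i ∈ range (M - d), s (i + d) * t ^ i := by
    conv_lhs => rw [hMd, add_comm, sum_range_add]
    rw [sum_eq_zero (s := range d) (fun i hi => by rw [hs i (mem_range.mp hi), zero_mul]),
      zero_add, mul_sum]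
    apply sum_congr rfl
    intro i _
    rw [pow_add, add_comm d i]
    ring
  have h5 : t ^ M = t ^ d * t ^ (M - d) := by
    rw [← pow_add]
    congr 1
    omega
  rw [h4, h5, mul_assoc, ← mul_add, mul_div_cancel_left₀]
  positivity

section

variable (N : ℕ)

/-- the base points -/
noncomputable def zt (i : Fin N) : ℝ := (i : ℝ) + 1

/-- inverse Vandermonde matrix -/
noncomputable def WW : Matrix (Fin N) (Fin N) ℝ := (Matrix.vandermonde (zt N))⁻¹

lemma zt_inj : Function.Injective (zt N) := by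
  intro a b h
  unfold zt at h
  have : ((a : ℕ) : ℝ) = (b : ℕ) := by linarith
  exact Fin.ext (by exact_mod_cast this)

lemma det_ne : (Matrix.vandermonde (zt N)).det ≠ 0 :=
  Matrix.det_vandermonde_ne_zero_iff.mpr (zt_inj N)

lemma WW_mul : WW N * Matrix.vandermonde (zt N) = 1 :=
  Matrix.nonsing_inv_mul _ (isUnit_iff_ne_zero.mpr (det_ne N))

/-- moments -/
noncomputable def mom (a : Fin N) (k : ℕ) : ℝ := ∑ i, WW N a i * zt N i ^ k

lemma mom_eq (a : Fin N) (k : ℕ) (hk : k < N) : mom N a k = if k = a then 1 else 0 := by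
  have h := congrFun (congrFun (WW_mul N) a) ⟨k, hk⟩
  rw [Matrix.mul_apply] at h
  simp only [Matrix.vandermonde_apply] at h
  unfold mom
  rw [h, Matrix.one_apply]
  by_cases h' : k = a
  · rw [if_pos h', if_pos (by apply Fin.ext; exact h'.symm)]
  · rw [if_neg h', if_neg (by intro h''; apply h'; rw [h''])]

lemma sum_P (a b : Fin N) (k : ℕ) :
    ∑ i, ∑ j, WW N a i * WW N b j * P (zt N i) (zt N j) k =
      ∑ ab ∈ antidiagonal k, (cc ab.1 ab.2 : ℝ) * (mom N a ab.1 * mom N b ab.2) := by
  unfold P hp mom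
  simp only [mul_sum, sum_mul]
  have e1 : ∀ i : Fin N, ∑ j : Fin N, ∑ ab ∈ antidiagonal k,
      WW N a i * WW N b j * ((co genFun ab.1 ab.2 : ℝ) * (zt N i ^ ab.1 * zt N j ^ ab.2)) =
      ∑ ab ∈ antidiagonal k, ∑ j : Fin N,
      WW N a i * WW N b j * ((co genFun ab.1 ab.2 : ℝ) * (zt N i ^ ab.1 * zt N j ^ ab.2)) :=
    fun i => sum_comm
  simp only [e1]
  rw [sum_comm]
  apply sum_congr rfl
  intro ab _
  rw [sum_comm]
  apply sum_congr rfl
  intro j _
  apply sum_congr rfl
  intro i _
  rw [co_gen]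
  ring

lemma sum_P_low (a b : Fin N) (k : ℕ) (hk : k < a + b) :
    ∑ i, ∑ j, WW N a i * WW N b j * P (zt N i) (zt N j) k = 0 := by
  rw [sum_P]
  apply sum_eq_zero
  intro ab hab
  rw [HasAntidiagonal.mem_antidiagonal] at hab
  have ha := a.isLt
  have hb := b.isLt
  by_cases h1 : ab.1 < a
  · rw [mom_eq N a ab.1 (by omega), if_neg (by omega)]; ring
  · rw [mom_eq N b ab.2 (by omega), if_neg (by omega)]; ring

lemma sum_P_eq (a b : Fin N) :
    ∑ i, ∑ j, WW N a i * WW N b j * P (zt N i) (zt N j) (a + b) = cc a b := by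
  rw [sum_P]
  have ha := a.isLt
  have hb := b.isLt
  rw [sum_eq_single ((a : ℕ), (b : ℕ))]
  · rw [mom_eq N a a ha, mom_eq N b b hb]
    simp
  · intro ab hab hne
    rw [HasAntidiagonal.mem_antidiagonal] at hab
    by_cases h1 : ab.1 < a
    · rw [mom_eq N a ab.1 (by omega), if_neg (by omega)]; ring
    · by_cases h2 : ab.1 = a
      · exfalso
        apply hne
        ext
        · exact h2
        · simp only; omega
      · rw [mom_eq N b ab.2 (by omega), if_neg (by omega)]; ring
  · intro h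
    exfalso
    apply h
    rw [HasAntidiagonal.mem_antidiagonal]

lemma small_ne (p q : ℝ) : ∀ᶠ t in 𝓝[>] (0 : ℝ),
    1 - t * p * (t * q) ≠ 0 ∧ 1 - t * p - t * q ≠ 0 := by
  have h1 : ContinuousAt (fun t : ℝ => 1 - t * p * (t * q)) 0 := by fun_prop
  have h2 : ContinuousAt (fun t : ℝ => 1 - t * p - t * q) 0 := by fun_prop
  have e1 := h1.eventually_ne (y := 0) (by norm_num)
  have e2 := h2.eventually_ne (y := 0) (by norm_num)
  exact (e1.and e2).filter_mono nhdsWithin_le_nhds

lemma lim_entry (a b : Fin N) :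
    Tendsto (fun t => (∑ i, ∑ j, WW N a i * WW N b j *
      Bm (some (t * zt N i)) (some (t * zt N j))) / t ^ ((a : ℕ) + b)) (𝓝[>] 0)
      (𝓝 (cc a b : ℝ)) := by
  rw [← sum_P_eq N a b]
  apply lim_aux _ (fun k => ∑ i, ∑ j, WW N a i * WW N b j * P (zt N i) (zt N j) k)
    ((a : ℕ) + b) (2 * N + 2) (by have := a.isLt; have := b.isLt; omega)
    (fun t => - ∑ i, ∑ j, WW N a i * WW N b j * (Er (zt N i) (zt N j) t (2 * N) /
      ((1 - t * zt N i * (t * zt N j)) * (1 - t * zt N i - t * zt N j))))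
  · apply ContinuousAt.neg
    apply tendsto_finsetSum
    intro i _
    apply tendsto_finsetSum
    intro j _
    apply ContinuousAt.mul continuousAt_const
    apply ContinuousAt.div
    · unfold Er; fun_prop
    · fun_prop
    · norm_num
  · have hall : ∀ᶠ t in 𝓝[>] (0 : ℝ), ∀ i j : Fin N,
        1 - t * zt N i * (t * zt N j) ≠ 0 ∧ 1 - t * zt N i - t * zt N j ≠ 0 := by
      rw [eventually_all]
      intro i
      rw [eventually_all]
      intro j
      exact small_ne _ _
    filter_upwards [hall] with t ht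
    have e1 : ∀ i j : Fin N, WW N a i * WW N b j * Bm (some (t * zt N i)) (some (t * zt N j)) =
        (∑ k ∈ range (2 * N + 2), WW N a i * WW N b j * P (zt N i) (zt N j) k * t ^ k) -
        t ^ (2 * N + 2) * (WW N a i * WW N b j * (Er (zt N i) (zt N j) t (2 * N) /
      ((1 - t * zt N i * (t * zt N j)) * (1 - t * zt N i - t * zt N j)))) := by
      intro i j
      have h1 : Bm (some (t * zt N i)) (some (t * zt N j)) =
        (t * zt N j - t * zt N i) / ((1 - t * zt N i * (t * zt N j)) *
          (1 - t * zt N i - t * zt N j)) := rfl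
      rw [h1, f_eq (zt N i) (zt N j) t (2 * N) (ht i j).1 (ht i j).2, mul_sub, mul_sum]
      congr 1
      · apply sum_congr rfl
        intro k _
        ring
      · ring
    simp only [e1, sum_sub_distrib, mul_neg, mul_sum, sum_mul]
    rw [sub_eq_add_neg]
    congr 1
    have e2 : ∀ i : Fin N, ∑ j : Fin N, ∑ k ∈ range (2 * N + 2),
        WW N a i * WW N b j * P (zt N i) (zt N j) k * t ^ k =
        ∑ k ∈ range (2 * N + 2), ∑ j : Fin N,
        WW N a i * WW N b j * P (zt N i) (zt N j) k * t ^ k := fun i => sum_comm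
    simp only [e2]
    rw [sum_comm]
  · intro k hk
    exact sum_P_low N a b k hk

lemma lim_border (a : Fin N) :
    Tendsto (fun t => (∑ i, WW N a i * Bm (some (t * zt N i)) none) / t ^ (a : ℕ)) (𝓝[>] 0)
      (𝓝 ((2 : ℝ) ^ (a : ℕ))) := by
  have h0 : (2 : ℝ) ^ (a : ℕ) = 2 ^ (a : ℕ) * mom N a a := by
    rw [mom_eq N a a a.isLt]; simp
  rw [h0]
  apply lim_aux _ (fun k => 2 ^ k * mom N a k) (a : ℕ) N a.isLt
    (fun t => ∑ i, WW N a i * ((2 * zt N i) ^ N / (1 - 2 * (t * zt N i))))
  · apply tendsto_finsetSum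
    intro i _
    apply ContinuousAt.mul continuousAt_const
    apply ContinuousAt.div
    · fun_prop
    · fun_prop
    · norm_num
  · have hall : ∀ᶠ t in 𝓝[>] (0 : ℝ), ∀ i : Fin N, 1 - 2 * (t * zt N i) ≠ 0 := by
      rw [eventually_all]
      intro i
      have h1 : ContinuousAt (fun t : ℝ => 1 - 2 * (t * zt N i)) 0 := by fun_prop
      exact (h1.eventually_ne (y := 0) (by norm_num)).filter_mono nhdsWithin_le_nhds
    filter_upwards [hall] with t ht
    have e1 : ∀ i : Fin N, WW N a i * Bm (some (t * zt N i)) none =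
        (∑ k ∈ range N, 2 ^ k * (WW N a i * zt N i ^ k) * t ^ k) +
        t ^ N * (WW N a i * ((2 * zt N i) ^ N / (1 - 2 * (t * zt N i)))) := by
      intro i
      have h1 : Bm (some (t * zt N i)) none = 1 / (1 - 2 * (t * zt N i)) := rfl
      have h2 : 1 / (1 - 2 * (t * zt N i)) = (∑ k ∈ range N, (2 * (t * zt N i)) ^ k) +
          (2 * (t * zt N i)) ^ N / (1 - 2 * (t * zt N i)) := by
        have h3 := ht i
        have h4 := geom_sum_mul (2 * (t * zt N i)) N
        rw [div_eq_iff h3, add_mul, div_mul_cancel₀ _ h3]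
        linear_combination h4
      rw [h1, h2, mul_add, mul_sum]
      congr 1
      · apply sum_congr rfl
        intro k _
        rw [mul_pow, mul_pow]
        ring
      · rw [mul_pow, mul_pow, mul_pow]
        ring
    simp only [e1, sum_add_distrib, mul_sum]
    congr 1
    rw [sum_comm]
    apply sum_congr rfl
    intro k _
    unfold mom
    rw [mul_sum, sum_mul]
  · intro k hk
    rw [mom_eq N a k (by have := a.isLt; omega), if_neg (by omega), mul_zero]

end

end Run7.h538.OS
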