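import Pool.Agent.Run7.h538.OS.Mrr

set_option autoImplicit false

/-! Evaluation of the bordered determinant. -/

namespace Run7.h538.OS

open Finset

lemma al_rec' (n i : ℕ) (hi : i < 2 * n) :
    (2 * (n : ℚ) - i) * (2 * n + 3 + i) * al n (i + 1) =
      - (2 * ((n : ℚ) - i) * (2 * n + 2 * i + 3)) * al n i := by
  have := al_rec n i hi
  rw [mu_sub, mu_sub] at this
  linear_combination this

lemma al_ne (n : ℕ) : ∀ i, i ≤ n → al n i ≠ 0
  | 0, _ => by simp [al]
  | i + 1, h => by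
      intro h0
      have h1 := al_rec' n i (by omega)
      rw [h0, mul_zero] at h1
      have h2 := al_ne n i (by omega)
      have h3 : (i : ℚ) + 1 ≤ n := by exact_mod_cast h
      have h4 : (0 : ℚ) ≤ i := by positivity
      have h5 : (2 * ((n : ℚ) - i) * (2 * n + 2 * i + 3)) ≠ 0 := by
        apply mul_ne_zero
        · intro h; linarith
        · intro h; linarith
      have h6 := mul_ne_zero h5 h2
      apply h6
      linarith

lemma al_top (n : ℕ) (hn : 1 ≤ n) : al n (n + 1) = 0 := by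
  have h1 := al_rec' n n (by omega)
  rw [sub_self, mul_zero, zero_mul, neg_zero, zero_mul] at h1
  have h2 : (1 : ℚ) ≤ n := by exact_mod_cast hn
  have h3 : (2 * (n : ℚ) - n) * (2 * n + 3 + n) ≠ 0 := by
    apply mul_ne_zero
    · intro h; linarith
    · intro h; linarith
  exact (mul_eq_zero.mp h1).resolve_left h3

/-- relation between the coefficients for `n` and `n + 1` -/
lemma al_shift (n : ℕ) (hn : 1 ≤ n) : ∀ i, i ≤ n + 1 →
    al n i * ((2 * n + 2 * i + 3) * (2 * n + 2 - i) * (2 * n + 1 - i) * (n + 2)) =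
      al (n + 1) i * ((n + 1 - i) * (2 * n + 1) * (2 * n + 3 + i) * (2 * n + 4 + i))
  | 0, _ => by simp only [al]; push_cast; ring
  | i + 1, h => by
      have ih := al_shift n hn i (by omega)
      have h1 := al_rec' n i (by omega)
      have h2 := al_rec' (n + 1) i (by omega)
      have h3 : (i : ℚ) ≤ n := by exact_mod_cast (by omega : i ≤ n)
      have h4 : (0 : ℚ) ≤ i := by positivity
      have h5 : (1 : ℚ) ≤ n := by exact_mod_cast hn
      push_cast at h2 ⊢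
      -- cancel
      have hc : ((2 * (n : ℚ) - i) * (2 * n + 3 + i)) * ((2 * (n + 1) - i) * (2 * (n + 1) + 3 + i)) *
          (2 * n + 2 * i + 3) ≠ 0 := by
        refine mul_ne_zero (mul_ne_zero (mul_ne_zero ?_ ?_) (mul_ne_zero ?_ ?_)) ?_
        · intro h; linarith
        · intro h; linarith
        · intro h; linarith
        · intro h; linarith
        · intro h; linarith
      apply mul_left_cancel₀ hc
      linear_combination ((2 * (n + 1) - i) * (2 * (n + 1) + 3 + i) *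
        (2 * n + 2 * i + 3)) * ((2 * n + 2 * (i + 1) + 3) * (2 * n + 2 - (i + 1)) *
          (2 * n + 1 - (i + 1)) * (n + 2)) * h1 -
        ((2 * (n : ℚ) - i) * (2 * n + 3 + i)) * (2 * n + 2 * i + 3) *
          ((n + 1 - (i + 1)) * (2 * n + 1) * (2 * n + 3 + (i + 1)) * (2 * n + 4 + (i + 1))) * h2 -
        2 * ((n : ℚ) - i) * (2 * n + 2 * i + 3) * (2 * n + 2 * i + 5) * (2 * n - i) *
          (2 * n + 5 + i) * ih

/-- the last column -/
def wv (i : ℕ) : ℚ := (3 * i + 2) * 2 ^ i / 2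

/-- transformed last column -/
def Sv (n : ℕ) : ℚ := ∑ i ∈ range (n + 1), al n i * wv i

lemma Sv_rec (n : ℕ) (hn : 1 ≤ n) : (2 * (n : ℚ) + 1) * Sv (n + 1) + 2 * (n + 2) * Sv n = 0 := by
  have h5 : (1 : ℚ) ≤ n := by exact_mod_cast hn
  have e1 : Sv n = ∑ i ∈ range (n + 2), al n i * wv i := by
    unfold Sv
    rw [sum_range_succ _ (n + 1), al_top n hn, zero_mul, add_zero]
  set G : ℕ → ℚ := fun i => - (2 * (n : ℚ) + 1) * (4 * n + 5) * al (n + 1) i * (2 ^ i / 2) *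
    (2 * n + 4 + i) * i / ((2 * n + 2 * i + 3) * (2 * n + 2 - i)) with hG
  have key : ∀ i, i < n + 2 → (2 * (n : ℚ) + 1) * (al (n + 1) i * wv i) +
      2 * (n + 2) * (al n i * wv i) = G (i + 1) - G i := by
    intro i hi
    have h3 : (i : ℚ) ≤ n + 1 := by exact_mod_cast (by omega : i ≤ n + 1)
    have h4 : (0 : ℚ) ≤ i := by positivity
    have h1 := al_shift n hn i (by omega)
    have h2 := al_rec' (n + 1) i (by omega)
    push_cast at h2
    have n1 : (2 * (n : ℚ) + 2 * i + 3) ≠ 0 := by intro h; linarith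
    have n2 : (2 * (n : ℚ) + 2 - i) ≠ 0 := by intro h; linarith
    have n3 : (2 * (n : ℚ) + 1 - i) ≠ 0 := by intro h; linarith
    have n4 : ((n : ℚ) + 2) ≠ 0 := by intro h; linarith
    have n5 : (2 * (n : ℚ) + 5 + i) ≠ 0 := by intro h; linarith
    have n6 : (2 * (n : ℚ) + 2 * (i + 1) + 3) ≠ 0 := by intro h; linarith
    have n7 : (2 * (n : ℚ) + 2 - (i + 1)) ≠ 0 := by intro h; linarith
    obtain ⟨D1, hD1⟩ : ∃ D1 : ℚ, D1 = 2 * (n : ℚ) + 2 * i + 3 := ⟨_, rfl⟩
    obtain ⟨D2, hD2⟩ : ∃ D2 : ℚ, D2 = 2 * (n : ℚ) + 2 - i := ⟨_, rfl⟩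
    obtain ⟨D3, hD3⟩ : ∃ D3 : ℚ, D3 = 2 * (n : ℚ) + 1 - i := ⟨_, rfl⟩
    obtain ⟨D4, hD4⟩ : ∃ D4 : ℚ, D4 = 2 * (n : ℚ) + 2 * (i + 1) + 3 := ⟨_, rfl⟩
    obtain ⟨D5, hD5⟩ : ∃ D5 : ℚ, D5 = 2 * (n : ℚ) + 5 + i := ⟨_, rfl⟩
    have hG0 : G i * (D1 * D2) = - (2 * (n : ℚ) + 1) * (4 * n + 5) * al (n + 1) i * (2 ^ i / 2) *
        (2 * n + 4 + i) * i := by
      rw [hG]
      simp only
      rw [← hD1, ← hD2, div_mul_cancel₀]
      rw [hD1, hD2]
      exact mul_ne_zero n1 n2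
    have hG1 : G (i + 1) * (D4 * D3) = - (2 * (n : ℚ) + 1) * (4 * n + 5) * al (n + 1) (i + 1) *
        (2 ^ i) * (2 * n + 5 + i) * (i + 1) := by
      rw [hG]
      simp only
      push_cast
      rw [show (2 * (n : ℚ) + 2 - (i + 1)) = D3 by rw [hD3]; ring, ← hD4, div_mul_cancel₀]
      · rw [pow_succ]; ring
      · rw [hD3, hD4]
        exact mul_ne_zero n6 n3
    have hG2 : G (i + 1) * (D2 * D3) = (2 * (n : ℚ) + 1) * (4 * n + 5) * al (n + 1) i *
        (2 ^ i) * 2 * (n + 1 - i) * (i + 1) := by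
      have hc : D4 * D5 ≠ 0 := by rw [hD4, hD5]; exact mul_ne_zero n6 n5
      apply mul_left_cancel₀ hc
      have h2' : D2 * D5 * al (n + 1) (i + 1) = - (2 * ((n : ℚ) + 1 - i) * D4) * al (n + 1) i := by
        rw [hD2, hD4, hD5]; linear_combination h2
      rw [hD5] at h2' ⊢
      linear_combination (2 * (n : ℚ) + 5 + i) * D2 * hG1 -
        (2 * (n : ℚ) + 1) * (4 * n + 5) * (2 ^ i) * (2 * n + 5 + i) * (i + 1) * h2'
    have hc : D1 * D2 * D3 ≠ 0 := by
      rw [hD1, hD2, hD3]; exact mul_ne_zero (mul_ne_zero n1 n2) n3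
    apply mul_left_cancel₀ hc
    have h1' : al n i * (D1 * D2 * D3) * (n + 2) =
        al (n + 1) i * ((n + 1 - i) * (2 * n + 1) * (2 * n + 3 + i) * (2 * n + 4 + i)) := by
      rw [hD1, hD2, hD3]; linear_combination h1
    unfold wv
    have hfin : D1 * D2 * D3 * ((2 * (n : ℚ) + 1) * (al (n + 1) i * ((3 * i + 2) * 2 ^ i / 2))) +
        2 * (al (n + 1) i * ((n + 1 - i) * (2 * n + 1) * (2 * n + 3 + i) * (2 * n + 4 + i))) *
          ((3 * i + 2) * 2 ^ i / 2) =
        D1 * ((2 * (n : ℚ) + 1) * (4 * n + 5) * al (n + 1) i *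
        (2 ^ i) * 2 * (n + 1 - i) * (i + 1)) - D3 * (- (2 * (n : ℚ) + 1) * (4 * n + 5) *
        al (n + 1) i * (2 ^ i / 2) * (2 * n + 4 + i) * i) := by
      rw [hD1, hD2, hD3]
      ring
    linear_combination hfin + 2 * ((3 * (i : ℚ) + 2) * 2 ^ i / 2) * h1' - D1 * hG2 + D3 * hG0
  have hsum : ∑ i ∈ range (n + 2), ((2 * (n : ℚ) + 1) * (al (n + 1) i * wv i) +
      2 * (n + 2) * (al n i * wv i)) = ∑ i ∈ range (n + 2), (G (i + 1) - G i) := by
    apply sum_congr rfl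
    intro i hi
    exact key i (mem_range.mp hi)
  rw [sum_range_sub] at hsum
  have g0 : G 0 = 0 := by rw [hG]; simp
  have g1 : G (n + 2) = 0 := by
    rw [hG]
    simp only
    rw [show n + 2 = (n + 1) + 1 by ring, al_top (n + 1) (by omega)]
    simp
  rw [g0, g1, sub_zero, sum_add_distrib, ← mul_sum, ← mul_sum, ← e1] at hsum
  exact hsum

end Run7.h538.OS
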