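import Pool.Agent.Run7.h538.OS.Mrr2

set_option autoImplicit false

/-! Evaluation of the bordered determinant, continued. -/

namespace Run7.h538.OS

open Finset

lemma al_diag (n : ℕ) (hn : 1 ≤ n) : al (n + 1) (n + 1) * (3 * (2 * n + 1) * (3 * n + 4) * (3 * n + 5)) =
    - 2 * (4 * n + 5) * (4 * n + 3) * (n + 2) * al n n := by
  have h1 := al_shift n hn n (by omega)
  have h2 := al_rec' (n + 1) n (by omega)
  push_cast at h2
  have h5 : (1 : ℚ) ≤ n := by exact_mod_cast hn
  have hc : ((n : ℚ) + 1) * (n + 2) ≠ 0 := by positivity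
  apply mul_left_cancel₀ hc
  linear_combination (3 * (2 * (n : ℚ) + 1) * (3 * n + 4)) * (n + 1) * h2 +
    2 * (4 * (n : ℚ) + 5) * h1

/-- the ratio of consecutive determinants -/
def hh (n : ℕ) : ℚ := ∏ m ∈ range n,
  (2 * ((m : ℚ) + 1) * (4 * n + 2 * m + 5)) / ((n - m) * (3 * n + 3 + m))

lemma Tt_top (n : ℕ) : Tt n (2 * n) = al n n := by
  unfold Tt
  rw [sum_range_succ, sum_eq_zero, zero_add]
  · have : Bc n (2 * n) = 1 := by
      unfold Bc
      have := bz_nat (n + 2 * n + 1) 0
      push_cast at this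
      rw [show 2 * (n : ℤ) - ((2 * n : ℕ) : ℤ) = 0 by push_cast; ring, this]
      simp
    rw [this, mul_one]
  · intro i hi
    have hi' := mem_range.mp hi
    have : Bc i (2 * n) = 0 := by
      unfold Bc
      rw [bz_neg]
      push_cast
      omega
    rw [this, mul_zero]

lemma Tt_diag (n : ℕ) : Tt n n = al n n * hh n := by
  have key : ∀ k, k ≤ n → Tt n n = Tt n (n + k) * ∏ m ∈ range k,
      (2 * ((m : ℚ) + 1) * (4 * n + 2 * m + 5)) / ((n - m) * (3 * n + 3 + m)) := by
    intro k
    induction k with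
    | zero => intro _; simp
    | succ k ih =>
      intro hk
      rw [ih (by omega), prod_range_succ]
      have h1 := Tt_rec n (n + k)
      rw [mu_sub, mu_sub] at h1
      push_cast at h1
      have h2 : (k : ℚ) + 1 ≤ n := by exact_mod_cast hk
      have h3 : (0 : ℚ) ≤ k := by positivity
      have h4 : ((n : ℚ) - k) * (3 * n + 3 + k) ≠ 0 := by
        apply mul_ne_zero
        · intro h; linarith
        · intro h; linarith
      have h5 : Tt n (n + k) = Tt n (n + (k + 1)) *
          ((2 * ((k : ℚ) + 1) * (4 * n + 2 * k + 5)) / ((n - k) * (3 * n + 3 + k))) := by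
        rw [← mul_div_assoc, eq_div_iff h4]
        have e : n + (k + 1) = n + k + 1 := by ring
        rw [e]
        linear_combination h1
      rw [h5]
      ring
  have h := key n le_rfl
  rw [show n + n = 2 * n by ring, Tt_top] at h
  exact h

lemma prod_fac (a k : ℕ) : (∏ m ∈ range k, ((a : ℚ) + 1 + m)) * (a.factorial : ℚ) =
    ((a + k).factorial : ℚ) := by
  induction k with
  | zero => simp
  | succ k ih =>
    rw [prod_range_succ, mul_right_comm, ih, show a + (k + 1) = (a + k) + 1 by ring,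
      Nat.factorial_succ]
    push_cast
    ring

lemma prod_odd (a k : ℕ) : (∏ m ∈ range k, (2 * (2 * ((a : ℚ) + m) + 1))) *
    ((a + k).factorial : ℚ) * ((2 * a).factorial : ℚ) =
    ((2 * a + 2 * k).factorial : ℚ) * (a.factorial : ℚ) := by
  induction k with
  | zero => simp; ring
  | succ k ih =>
    rw [prod_range_succ, show a + (k + 1) = (a + k) + 1 by ring, Nat.factorial_succ,
      show 2 * a + 2 * (k + 1) = (2 * a + 2 * k) + 1 + 1 by ring, Nat.factorial_succ,
      Nat.factorial_succ]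
    push_cast
    linear_combination (2 * (2 * ((a : ℚ) + k) + 1)) * (a + k + 1) * ih

lemma hh_eq (n : ℕ) : hh n * (((4 * n + 2).factorial : ℚ) * ((4 * n + 4).factorial : ℚ)) =
    ((6 * n + 4).factorial : ℚ) * ((2 * n + 2).factorial : ℚ) := by
  have e1 : hh n = (∏ m ∈ range n, (2 * (2 * (((2 * n + 2 : ℕ) : ℚ) + m) + 1))) *
      (∏ m ∈ range n, ((m : ℚ) + 1)) / ((∏ m ∈ range n, ((n : ℚ) - m)) *
        (∏ m ∈ range n, (((3 * n + 2 : ℕ) : ℚ) + 1 + m))) := by
    unfold hh
    rw [← prod_mul_distrib, ← prod_mul_distrib, ← prod_div_distrib]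
    apply prod_congr rfl
    intro m _
    push_cast
    congr 1
    · ring
    · ring
  have e2 : ∏ m ∈ range n, ((m : ℚ) + 1) = n.factorial := by
    have := prod_fac 0 n
    simp only [Nat.factorial_zero, Nat.cast_one, mul_one, zero_add, CharP.cast_eq_zero] at this
    rw [← this]
    apply prod_congr rfl
    intro m _
    ring
  have e3 : ∏ m ∈ range n, ((n : ℚ) - m) = n.factorial := by
    rw [← e2, ← prod_range_reflect]
    apply prod_congr rfl
    intro m hm
    rw [mem_range] at hm
    have : ((n - 1 - m : ℕ) : ℚ) = (n : ℚ) - 1 - m := by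
      rw [Nat.cast_sub (by omega), Nat.cast_sub (by omega)]
      simp
    rw [this]
    ring
  have e4 := prod_fac (3 * n + 2) n
  have e5 := prod_odd (2 * n + 2) n
  rw [show 3 * n + 2 + n = 4 * n + 2 by ring] at e4
  rw [show 2 * n + 2 + n = 3 * n + 2 by ring, show 2 * (2 * n + 2) = 4 * n + 4 by ring,
    show 4 * n + 4 + 2 * n = 6 * n + 4 by ring] at e5
  have f1 : (n.factorial : ℚ) ≠ 0 := by positivity
  have f2 : ((3 * n + 2).factorial : ℚ) ≠ 0 := by positivity
  have f3 : ((4 * n + 2).factorial : ℚ) ≠ 0 := by positivity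
  have f4 : (∏ m ∈ range n, (((3 * n + 2 : ℕ) : ℚ) + 1 + m)) ≠ 0 := by
    intro h
    rw [h, zero_mul] at e4
    exact f3 e4.symm
  rw [e1, e2, e3, div_mul_eq_mul_div, div_eq_iff (mul_ne_zero f1 f4), ← e5, ← e4]
  ring

/-- the bordered matrix -/
def Nm (n : ℕ) : Matrix (Fin (n + 1)) (Fin (n + 1)) ℚ :=
  Matrix.of fun i j => if (j : ℕ) < n then Bc i j else wv i

/-- the matrix without border -/
def Dm (n : ℕ) : Matrix (Fin n) (Fin n) ℚ := Matrix.of fun i j => Bc i j

lemma det_last {n : ℕ} (M : Matrix (Fin (n + 1)) (Fin (n + 1)) ℚ) (c : Fin (n + 1) → ℚ)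
    (h : ∀ j : Fin n, ∑ i, c i * M i j.castSucc = 0) :
    c (Fin.last n) * M.det = (∑ i, c i * M i (Fin.last n)) *
      (M.submatrix Fin.castSucc Fin.castSucc).det := by
  rw [← smul_eq_mul (c (Fin.last n)), ← Matrix.det_updateRow_sum, Matrix.det_succ_row _ (Fin.last n),
    Fin.sum_univ_castSucc, sum_eq_zero, zero_add]
  · rw [← two_mul, pow_mul]
    have e : ((M.updateRow (Fin.last n) (∑ k, c k • M k)).submatrix (Fin.last n).succAbove
        (Fin.last n).succAbove) = M.submatrix Fin.castSucc Fin.castSucc := by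
      ext i j
      rw [Matrix.submatrix_apply, Matrix.submatrix_apply, Fin.succAbove_last,
        Matrix.updateRow_ne (Fin.castSucc_lt_last i).ne]
    rw [e, Matrix.updateRow_self, Finset.sum_apply]
    simp
  · intro j _
    rw [Matrix.updateRow_self, Finset.sum_apply]
    have := h j
    simp only [Pi.smul_apply, smul_eq_mul] at this ⊢
    rw [this]
    ring

lemma Nm_det (n : ℕ) : al n n * (Nm n).det = Sv n * (Dm n).det := by
  have := det_last (Nm n) (fun i => al n i) (by
    intro j
    have h1 := Tt_low n j j.isLt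
    unfold Tt at h1
    rw [← h1, ← Fin.sum_univ_eq_sum_range (fun i => al n i * Bc i j) (n + 1)]
    apply sum_congr rfl
    intro i _
    simp [Nm])
  simp only [Fin.val_last] at this
  rw [this]
  congr 1
  · unfold Sv
    rw [← Fin.sum_univ_eq_sum_range (fun i => al n i * wv i) (n + 1)]
    apply sum_congr rfl
    intro i _
    simp [Nm]
  · congr 1
    ext i j
    simp [Nm, Dm]

lemma Dm_det (n : ℕ) : (Dm (n + 1)).det = hh n * (Dm n).det := by
  have := det_last (Dm (n + 1)) (fun i => al n i) (by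
    intro j
    have h1 := Tt_low n j j.isLt
    unfold Tt at h1
    rw [← h1, ← Fin.sum_univ_eq_sum_range (fun i => al n i * Bc i j) (n + 1)]
    apply sum_congr rfl
    intro i _
    simp [Dm])
  simp only [Fin.val_last] at this
  have h2 : ∑ i : Fin (n + 1), al n i * Dm (n + 1) i (Fin.last n) = Tt n n := by
    unfold Tt
    rw [← Fin.sum_univ_eq_sum_range (fun i => al n i * Bc i n) (n + 1)]
    apply sum_congr rfl
    intro i _
    simp [Dm]
  have h3 : (Dm (n + 1)).submatrix Fin.castSucc Fin.castSucc = Dm n := by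
    ext i j
    simp [Dm]
  rw [h2, h3, Tt_diag] at this
  apply mul_left_cancel₀ (al_ne n n le_rfl)
  rw [this]
  ring

lemma Nm_rec (n : ℕ) (hn : 1 ≤ n) : (Nm (n + 1)).det * ((4 * n + 3) * (4 * n + 5)) =
    (Nm n).det * (3 * (3 * n + 4) * (3 * n + 5)) * hh n := by
  have h1 := Nm_det (n + 1)
  have h2 := Nm_det n
  rw [Dm_det] at h1
  have h3 := Sv_rec n hn
  have h4 := al_diag n hn
  have h5 : (1 : ℚ) ≤ n := by exact_mod_cast hn
  have h6 := al_ne n n le_rfl
  have hc : al n n * (2 * (n + 2)) ≠ 0 := mul_ne_zero h6 (by positivity)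
  apply mul_left_cancel₀ hc
  linear_combination (-(3 * (2 * (n : ℚ) + 1) * (3 * n + 4) * (3 * n + 5))) * h1 +
    (Nm (n + 1)).det * h4 - (3 * (3 * (n : ℚ) + 4) * (3 * n + 5)) * hh n * (Dm n).det * h3 +
    (2 * ((n : ℚ) + 2)) * (3 * (3 * n + 4) * (3 * n + 5)) * hh n * h2 * (-1)

end Run7.h538.OS
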