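import Pool.Agent.Run7.h538.OS.Sym

set_option autoImplicit false

/-! Symmetry of the partition functions with zero boundary in the parameters. -/

namespace Run7.h538.OS

variable {K : Type*} [CommRing K]

lemma row_congr (x : K) : ∀ (ys : List K) (h : Bool) (k₁ k₂ : List Bool → K) (vs : List Bool),
    (∀ t : List Bool, t.length = ys.length → k₁ t = k₂ t) →
    row x h ys k₁ vs = row x h ys k₂ vs
  | [], true, k₁, k₂, vs, hk => by simp [row, hk [] rfl]
  | [], false, k₁, k₂, vs, hk => by simp [row]
  | y :: ys, true, k₁, k₂, [], hk => by simp [row]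
  | y :: ys, false, k₁, k₂, [], hk => by simp [row]
  | y :: ys, h, k₁, k₂, v :: vs, hk => by
      have a := fun h => row_congr x ys h (fun t => k₁ (false :: t)) (fun t => k₂ (false :: t)) vs
        (fun t ht => hk _ (by simp [ht]))
      have b := fun h => row_congr x ys h (fun t => k₁ (true :: t)) (fun t => k₂ (true :: t)) vs
        (fun t ht => hk _ (by simp [ht]))
      cases h <;> cases v <;> simp only [row, a, b]

lemma G0_swap (x y : K) (xs : List K) : ∀ (ps : List K) (vs : List Bool),
    vs.length = ps.length + 2 + xs.length →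
    sact x y ps.length (G0 (ps ++ x :: y :: xs)) vs =
      (1 - x + x * y) * G0 (ps ++ y :: x :: xs) vs
  | [], [], hl => by simp at hl; omega
  | [], [v], hl => by simp at hl; omega
  | [], v :: w :: t, hl => G0_head x y xs v w t
  | p :: ps, [], hl => by simp at hl; omega
  | p :: ps, v :: vs, hl => by
      have hl' : vs.length = ps.length + 2 + xs.length := by simp at hl; omega
      have e1 : sact x y (p :: ps).length (G0 (p :: ps ++ x :: y :: xs)) (v :: vs) =
          sact x y ps.length
            (fun s => (1 - 2 * p) * row p v (ps ++ x :: y :: xs) (G0 (ps ++ x :: y :: xs)) s) vs :=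
        rfl
      rw [e1, sact_smul, ybe_at p x y xs ps v _ vs hl']
      rw [row_congr p (ps ++ y :: x :: xs) v _
        (fun t => (1 - x + x * y) * G0 (ps ++ y :: x :: xs) t) vs, row_smul]
      · simp only [List.cons_append, G0]
        ring
      · intro t ht
        apply G0_swap x y xs ps t
        rw [ht]
        simp
        omega

lemma G1_swap (x y : K) (xs : List K) : ∀ (ps : List K) (vs : List Bool),
    vs.length = ps.length + 2 + xs.length →
    sact x y ps.length (G1 (ps ++ x :: y :: xs)) vs =
      (1 - x + x * y) * G1 (ps ++ y :: x :: xs) vs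
  | [], [], hl => by simp at hl; omega
  | [], [v], hl => by simp at hl; omega
  | [], v :: w :: t, hl => G1_head x y xs v w t
  | p :: ps, [], hl => by simp at hl; omega
  | p :: ps, v :: vs, hl => by
      have hl' : vs.length = ps.length + 2 + xs.length := by simp at hl; omega
      have e1 : sact x y (p :: ps).length (G1 (p :: ps ++ x :: y :: xs)) (v :: vs) =
          sact x y ps.length
            (fun s => (1 - 2 * p) * row p v (ps ++ x :: y :: xs) (G1 (ps ++ x :: y :: xs)) s +
              kd p v * row p (!v) (ps ++ x :: y :: xs) (G0 (ps ++ x :: y :: xs)) s) vs :=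
        rfl
      rw [e1, sact_lin, ybe_at p x y xs ps v _ vs hl', ybe_at p x y xs ps (!v) _ vs hl']
      have hlen : ∀ t : List Bool, t.length = (ps ++ y :: x :: xs).length →
          t.length = ps.length + 2 + xs.length := by
        intro t ht
        rw [ht]
        simp
        omega
      rw [row_congr p (ps ++ y :: x :: xs) v _
        (fun t => (1 - x + x * y) * G1 (ps ++ y :: x :: xs) t) vs
          (fun t ht => G1_swap x y xs ps t (hlen t ht)),
        row_congr p (ps ++ y :: x :: xs) (!v) _
        (fun t => (1 - x + x * y) * G0 (ps ++ y :: x :: xs) t) vs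
          (fun t ht => G0_swap x y xs ps t (hlen t ht)), row_smul, row_smul]
      simp only [List.cons_append, G1]
      ring

lemma sact_replicate (x y : K) (k : List Bool → K) (m : ℕ) : ∀ (p : ℕ) (k : List Bool → K),
    sact x y p k (List.replicate (p + 2 + m) false) =
      (1 - x + x * y) * k (List.replicate (p + 2 + m) false)
  | 0, k => by
      rw [show 0 + 2 + m = m + 1 + 1 by omega, List.replicate_succ, List.replicate_succ]
      simp only [sact]
  | p + 1, k => by
      rw [show p + 1 + 2 + m = (p + 2 + m) + 1 by omega, List.replicate_succ]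
      simp only [sact]
      rw [sact_replicate x y (fun s => k (false :: s)) m p]

/-- zero boundary -/
def Z0 (xs : List K) : K := G0 xs (List.replicate xs.length false)

/-- zero boundary -/
def Z1 (xs : List K) : K := G1 xs (List.replicate xs.length false)

lemma Z0_swap [IsDomain K] (x y : K) (ps xs : List K) (h : 1 - x + x * y ≠ 0) :
    Z0 (ps ++ x :: y :: xs) = Z0 (ps ++ y :: x :: xs) := by
  have h1 := G0_swap x y xs ps (List.replicate (ps.length + 2 + xs.length) false) (by simp)
  rw [sact_replicate x y (G0 (ps ++ x :: y :: xs))] at h1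
  have h2 := mul_left_cancel₀ h h1
  unfold Z0
  have e1 : (ps ++ x :: y :: xs).length = ps.length + 2 + xs.length := by simp; omega
  have e2 : (ps ++ y :: x :: xs).length = ps.length + 2 + xs.length := by simp; omega
  rw [e1, e2, h2]

lemma Z1_swap [IsDomain K] (x y : K) (ps xs : List K) (h : 1 - x + x * y ≠ 0) :
    Z1 (ps ++ x :: y :: xs) = Z1 (ps ++ y :: x :: xs) := by
  have h1 := G1_swap x y xs ps (List.replicate (ps.length + 2 + xs.length) false) (by simp)
  rw [sact_replicate x y (G0 (ps ++ x :: y :: xs))] at h1
  have h2 := mul_left_cancel₀ h h1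
  unfold Z1
  have e1 : (ps ++ x :: y :: xs).length = ps.length + 2 + xs.length := by simp; omega
  have e2 : (ps ++ y :: x :: xs).length = ps.length + 2 + xs.length := by simp; omega
  rw [e1, e2, h2]

lemma Z0_move [IsDomain K] (x : K) : ∀ (qs ps : List K), (∀ q ∈ qs, 1 - x + x * q ≠ 0) →
    Z0 (ps ++ x :: qs) = Z0 (ps ++ qs ++ [x])
  | [], ps, _ => by simp
  | q :: qs, ps, h => by
      rw [Z0_swap x q ps qs (h q (by simp))]
      have := Z0_move x qs (ps ++ [q]) (fun r hr => h r (by simp [hr]))
      simpa using this

lemma Z1_move [IsDomain K] (x : K) : ∀ (qs ps : List K), (∀ q ∈ qs, 1 - x + x * q ≠ 0) →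
    Z1 (ps ++ x :: qs) = Z1 (ps ++ qs ++ [x])
  | [], ps, _ => by simp
  | q :: qs, ps, h => by
      rw [Z1_swap x q ps qs (h q (by simp))]
      have := Z1_move x qs (ps ++ [q]) (fun r hr => h r (by simp [hr]))
      simpa using this

end Run7.h538.OS
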