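import Pool.Agent.Run7.h538.OS.Corner
import Pool.Agent.Helper929.Pfaffian

set_option autoImplicit false

/-! Preparations for the interpolation: list products, Pfaffians, degrees. -/

namespace Run7.h538.OS

open Polynomial Pool.Agent.Helper929

section ring

variable {K : Type*} [CommRing K]

/-- Vandermonde product -/
def VL : List K → K
  | [] => 1
  | x :: xs => (xs.map (fun y => y - x)).prod * VL xs

/-- product of the weights -/
def QL : List K → K
  | [] => 1
  | x :: xs => (xs.map (fun y => (1 - x * y) * (1 - x - y))).prod * QL xs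

/-- product of the boundary weights -/
def HL (xs : List K) : K := (xs.map (fun x => 1 - 2 * x)).prod

lemma VL_split (z : K) (qs : List K) : ∀ ps : List K,
    VL (ps ++ z :: qs) = (-1) ^ ps.length * ((ps ++ qs).map (fun y => y - z)).prod *
      VL (ps ++ qs)
  | [] => by simp [VL]
  | p :: ps => by
      simp only [List.cons_append, VL, VL_split z qs ps, List.map_cons, List.prod_cons,
        List.map_append, List.prod_append, List.length_cons, pow_succ]
      ring

lemma QL_split (z : K) (qs : List K) : ∀ ps : List K,
    QL (ps ++ z :: qs) = ((ps ++ qs).map (fun y => (1 - z * y) * (1 - z - y))).prod *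
      QL (ps ++ qs)
  | [] => by simp [QL]
  | p :: ps => by
      simp only [List.cons_append, QL, QL_split z qs ps, List.map_cons, List.prod_cons,
        List.map_append, List.prod_append]
      ring

lemma HL_split (z : K) (ps qs : List K) :
    HL (ps ++ z :: qs) = (1 - 2 * z) * HL (ps ++ qs) := by
  simp only [HL, List.map_cons, List.prod_cons, List.map_append, List.prod_append]
  ring

lemma row_map {L : Type*} [CommRing L] (φ : K →+* L) (x : K) : ∀ (ys : List K) (h : Bool)
    (k : List Bool → K) (vs : List Bool),
    φ (row x h ys k vs) = row (φ x) h (ys.map φ) (fun t => φ (k t)) vs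
  | [], true, k, vs => by simp [row]
  | [], false, k, vs => by simp [row]
  | y :: ys, true, k, [] => by simp [row]
  | y :: ys, false, k, [] => by simp [row]
  | y :: ys, h, k, v :: vs => by
      have ih := fun h k => row_map φ x ys h k vs
      cases h <;> cases v <;>
        simp only [row, List.map_cons, map_add, map_mul, map_sub, map_one, ih, gq]

end ring

lemma ofFn_split {α : Type*} : ∀ (m : ℕ) (z : Fin (m + 1) → α) (j : Fin (m + 1)),
    ∃ ps qs : List α, ps.length = j ∧ List.ofFn z = ps ++ z j :: qs ∧
      List.ofFn (fun k => z (j.succAbove k)) = ps ++ qs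
  | m, z, j => by
      induction m with
      | zero =>
        have hj : j = 0 := by
          apply Fin.ext
          have := j.isLt
          simp only [Fin.val_zero]
          omega
        subst hj
        exact ⟨[], [], by simp, by simp, by simp⟩
      | succ m ih =>
        refine Fin.cases ?_ (fun j' => ?_) j
        · refine ⟨[], List.ofFn (fun k => z k.succ), by simp, ?_, ?_⟩
          · rw [List.ofFn_succ]; rfl
          · simp
        · obtain ⟨ps, qs, h1, h2, h3⟩ := ih (fun k => z k.succ) j'
          refine ⟨z 0 :: ps, qs, by simp [h1], ?_, ?_⟩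
          · rw [List.ofFn_succ, h2]; rfl
          · rw [List.ofFn_succ]
            simp only [Fin.succ_succAbove_zero, Fin.succ_succAbove_succ, List.cons_append, h3]

/-- the skew form on points; `none` is the border -/
noncomputable def Bm : Option ℝ → Option ℝ → ℝ
  | some x, some y => (y - x) / ((1 - x * y) * (1 - x - y))
  | some x, none => 1 / (1 - 2 * x)
  | none, some y => - (1 / (1 - 2 * y))
  | none, none => 0

lemma Bm_skew (a b : Option ℝ) : Bm a b = - Bm b a := by
  cases a <;> cases b <;> simp only [Bm]
  · ring
  · ring
  · rename_i x y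
    rw [show (1 - y * x) * (1 - y - x) = (1 - x * y) * (1 - x - y) by ring, ← neg_div]
    congr 1
    ring

/-- the matrix of the form -/
noncomputable def MM {N : ℕ} (u : Fin N → Option ℝ) : Matrix (Fin N) (Fin N) ℝ :=
  Matrix.of fun i j => Bm (u i) (u j)

lemma pf_expand (N : ℕ) (u : Fin (N + 2) → Option ℝ) :
    pf (N + 2) (MM u) = ∑ j : Fin (N + 1), (-1) ^ (j : ℕ) * Bm (u 0) (u j.succ) *
      pf N (MM (fun k => u (j.succAbove k).succ)) := by
  rfl

lemma pf_eq_zero (N : ℕ) (u : Fin N → Option ℝ) (i j : Fin N) (hij : i ≠ j) (h : u i = u j) :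
    pf N (MM u) = 0 := by
  have h1 := pf_sq N (MM u) (fun a b => by simp only [MM, Matrix.of_apply]; exact Bm_skew _ _)
  have h2 : (MM u).det = 0 := by
    apply Matrix.det_zero_of_row_eq hij
    funext k
    simp [MM, h]
  rw [h2] at h1
  exact pow_eq_zero_iff (two_ne_zero) |>.mp h1

/-! degrees -/

lemma natDegree_prod_le (L : List ℝ) (F : ℝ → ℝ[X]) (d : ℕ) (hF : ∀ y, (F y).natDegree ≤ d) :
    ((L.map F).prod).natDegree ≤ d * L.length := by
  induction L with
  | nil => simp
  | cons a L ih =>
    rw [List.map_cons, List.prod_cons, List.length_cons]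
    calc (F a * (L.map F).prod).natDegree ≤ (F a).natDegree + ((L.map F).prod).natDegree :=
          natDegree_mul_le
      _ ≤ d + d * L.length := by have := hF a; omega
      _ = d * (L.length + 1) := by ring

lemma deg_sub (p q : ℝ[X]) (d : ℕ) (hp : p.natDegree ≤ d) (hq : q.natDegree ≤ d) :
    (p - q).natDegree ≤ d :=
  (natDegree_sub_le p q).trans (max_le hp hq)

lemma deg_add (p q : ℝ[X]) (d : ℕ) (hp : p.natDegree ≤ d) (hq : q.natDegree ≤ d) :
    (p + q).natDegree ≤ d :=
  (natDegree_add_le p q).trans (max_le hp hq)

lemma deg_mul (p q : ℝ[X]) (a b : ℕ) (hp : p.natDegree ≤ a) (hq : q.natDegree ≤ b) :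
    (p * q).natDegree ≤ a + b :=
  natDegree_mul_le.trans (add_le_add hp hq)

lemma deg_lin1 (y : ℝ) : (1 - X * C y : ℝ[X]).natDegree ≤ 1 := by
  apply deg_sub
  · simp
  · exact (natDegree_mul_C_le _ _).trans natDegree_X_le

lemma deg_lin2 (y : ℝ) : (1 - X - C y : ℝ[X]).natDegree ≤ 1 := by
  apply deg_sub
  · apply deg_sub
    · simp
    · exact natDegree_X_le
  · simp

lemma deg_lin3 (y : ℝ) : (C y - X : ℝ[X]).natDegree ≤ 1 := by
  apply deg_sub
  · simp
  · exact natDegree_X_le

lemma deg_row_true (ys : List ℝ) (k : List Bool → ℝ) :
    (row X true (ys.map C) (fun t => C (k t)) (List.replicate ys.length false)).natDegree ≤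
      ys.length := by
  have h := row_true_zero (K := ℝ[X]) X (ys.map C) (fun t => C (k t))
  rw [List.length_map] at h
  rw [h, List.map_map]
  refine (natDegree_mul_C_le _ _).trans ?_
  have := natDegree_prod_le ys ((fun y => 1 - X * y) ∘ C) 1 (fun y => deg_lin1 y)
  simpa using this

lemma deg_row_false : ∀ (ys : List ℝ) (k : List Bool → ℝ),
    (row X false (ys.map C) (fun t => C (k t)) (List.replicate ys.length false)).natDegree ≤
      ys.length - 1
  | [], k => by simp [row]
  | y :: ys, k => by
      simp only [List.map_cons, List.length_cons, List.replicate_succ, row,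
        Nat.add_sub_cancel]
      refine (natDegree_add_le _ _).trans (max_le ?_ ?_)
      · rcases ys with _ | ⟨w, ys⟩
        · simp [row]
        · refine natDegree_mul_le.trans ?_
          have h1 := deg_lin2 y
          have h2 := deg_row_false (w :: ys) (fun t => k (false :: t))
          simp only [List.length_cons, Nat.add_sub_cancel] at h2 ⊢
          omega
      · exact deg_row_true ys (fun t => k (true :: t))

end Run7.h538.OS
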