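import Mathlib

set_option autoImplicit false

/-! Six-vertex row operators for symmetric alternating sign matrices.

A line with parameter `x` runs to the right and crosses vertical lines with parameters `ys`.
Horizontal and vertical states are Booleans (partial row and column sums of the matrix).
Weights: `1 - x y` if the two states differ, `1 - x - y` if they agree and nothing happens,
`1` for an entry `1` of the matrix and `g x * g y` for an entry `-1`. -/

namespace Run7.h538.OS

variable {K : Type*} [CommRing K]

/-- `1 - x + x ^ 2` -/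
def gq (x : K) : K := 1 - x + x * x

/-- the row operator -/
def row (x : K) : Bool → List K → (List Bool → K) → List Bool → K
  | true, [], k, _ => k []
  | false, [], _, _ => 0
  | _, _ :: _, _, [] => 0
  | false, y :: ys, k, false :: vs =>
      (1 - x - y) * row x false ys (fun t => k (false :: t)) vs +
        row x true ys (fun t => k (true :: t)) vs
  | false, y :: ys, k, true :: vs => (1 - x * y) * row x false ys (fun t => k (true :: t)) vs
  | true, y :: ys, k, false :: vs => (1 - x * y) * row x true ys (fun t => k (false :: t)) vs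
  | true, y :: ys, k, true :: vs =>
      (1 - x - y) * row x true ys (fun t => k (true :: t)) vs +
        gq x * gq y * row x false ys (fun t => k (false :: t)) vs

lemma row_lin (x a b : K) : ∀ (ys : List K) (h : Bool) (k₁ k₂ : List Bool → K) (vs : List Bool),
    row x h ys (fun t => a * k₁ t + b * k₂ t) vs = a * row x h ys k₁ vs + b * row x h ys k₂ vs
  | [], true, k₁, k₂, vs => by simp [row]
  | [], false, k₁, k₂, vs => by simp [row]
  | y :: ys, true, k₁, k₂, [] => by simp [row]
  | y :: ys, false, k₁, k₂, [] => by simp [row]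
  | y :: ys, false, k₁, k₂, false :: vs => by
      simp only [row]; rw [row_lin x a b ys, row_lin x a b ys]; ring
  | y :: ys, false, k₁, k₂, true :: vs => by
      simp only [row]; rw [row_lin x a b ys]; ring
  | y :: ys, true, k₁, k₂, false :: vs => by
      simp only [row]; rw [row_lin x a b ys]; ring
  | y :: ys, true, k₁, k₂, true :: vs => by
      simp only [row]; rw [row_lin x a b ys, row_lin x a b ys]; ring

lemma row_add (x : K) (ys : List K) (h : Bool) (k₁ k₂ : List Bool → K) (vs : List Bool) :
    row x h ys (fun t => k₁ t + k₂ t) vs = row x h ys k₁ vs + row x h ys k₂ vs := by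
  have := row_lin x 1 1 ys h k₁ k₂ vs
  simpa using this

lemma row_smul (x a : K) (ys : List K) (h : Bool) (k : List Bool → K) (vs : List Bool) :
    row x h ys (fun t => a * k t) vs = a * row x h ys k vs := by
  have := row_lin x a 0 ys h k k vs
  simpa using this

lemma row_zero (x : K) (ys : List K) (h : Bool) (vs : List Bool) :
    row x h ys (fun _ => 0) vs = 0 := by
  have := row_smul x 0 ys h (fun _ => 0) vs
  simpa using this

/-- action of the crossing of two vertical lines at position `p` -/
def sact (y₁ y₂ : K) : ℕ → (List Bool → K) → List Bool → K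
  | 0, k, false :: false :: t => (1 - y₁ + y₁ * y₂) * k (false :: false :: t)
  | 0, k, true :: true :: t => (1 - y₁ + y₁ * y₂) * k (true :: true :: t)
  | 0, k, false :: true :: t =>
      gq y₁ * k (false :: true :: t) + (y₂ - y₁) * k (true :: false :: t)
  | 0, k, true :: false :: t =>
      (y₂ - y₁) * k (false :: true :: t) + gq y₂ * k (true :: false :: t)
  | p + 1, k, v :: t => sact y₁ y₂ p (fun s => k (v :: s)) t
  | _, _, _ => 0

lemma sact_lin (y₁ y₂ a b : K) : ∀ (p : ℕ) (k₁ k₂ : List Bool → K) (vs : List Bool),
    sact y₁ y₂ p (fun t => a * k₁ t + b * k₂ t) vs =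
      a * sact y₁ y₂ p k₁ vs + b * sact y₁ y₂ p k₂ vs
  | 0, k₁, k₂, [] => by simp [sact]
  | 0, k₁, k₂, [v] => by cases v <;> simp [sact]
  | 0, k₁, k₂, v :: w :: t => by cases v <;> cases w <;> simp only [sact] <;> ring
  | p + 1, k₁, k₂, [] => by simp [sact]
  | p + 1, k₁, k₂, v :: t => by
      simp only [sact]; rw [sact_lin y₁ y₂ a b p]

lemma sact_add (y₁ y₂ : K) (p : ℕ) (k₁ k₂ : List Bool → K) (vs : List Bool) :
    sact y₁ y₂ p (fun t => k₁ t + k₂ t) vs = sact y₁ y₂ p k₁ vs + sact y₁ y₂ p k₂ vs := by
  have := sact_lin y₁ y₂ 1 1 p k₁ k₂ vs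
  simpa using this

lemma sact_smul (y₁ y₂ a : K) (p : ℕ) (k : List Bool → K) (vs : List Bool) :
    sact y₁ y₂ p (fun t => a * k t) vs = a * sact y₁ y₂ p k vs := by
  have := sact_lin y₁ y₂ a 0 p k k vs
  simpa using this

/-- Yang-Baxter equation -/
lemma ybe_head (x y₁ y₂ : K) (ys : List K) (h : Bool) (k : List Bool → K) (v₁ v₂ : Bool)
    (vs : List Bool) :
    sact y₁ y₂ 0 (row x h (y₁ :: y₂ :: ys) k) (v₁ :: v₂ :: vs) =
      row x h (y₂ :: y₁ :: ys) (sact y₁ y₂ 0 k) (v₁ :: v₂ :: vs) := by
  cases h <;> cases v₁ <;> cases v₂ <;>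
    simp only [sact, row, row_lin, row_smul, gq] <;> ring

lemma ybe_at (x y₁ y₂ : K) (ys : List K) : ∀ (ps : List K) (h : Bool) (k : List Bool → K)
    (vs : List Bool), vs.length = ps.length + 2 + ys.length →
    sact y₁ y₂ ps.length (row x h (ps ++ y₁ :: y₂ :: ys) k) vs =
      row x h (ps ++ y₂ :: y₁ :: ys) (sact y₁ y₂ ps.length k) vs
  | [], h, k, [], hl => by simp at hl; omega
  | [], h, k, [v], hl => by simp at hl; omega
  | [], h, k, v :: w :: t, hl => ybe_head x y₁ y₂ ys h k v w t
  | p :: ps, h, k, [], hl => by simp at hl; omega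
  | p :: ps, h, k, v :: vs, hl => by
      have hl' : vs.length = ps.length + 2 + ys.length := by simp at hl; omega
      have ih := fun h k => ybe_at x y₁ y₂ ys ps h k vs hl'
      cases h <;> cases v <;>
        simp only [List.length_cons, List.cons_append, sact, row, sact_lin, sact_smul, ih]
      · have := sact_lin y₁ y₂ (1 - x - p) 1 ps.length
          (row x false (ps ++ y₁ :: y₂ :: ys) (fun t => k (false :: t)))
          (row x true (ps ++ y₁ :: y₂ :: ys) (fun t => k (true :: t))) vs
        simp only [one_mul, ih] at this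
        exact this

end Run7.h538.OS
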