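import Pool.Agent.Run7.h538.OsaForm

set_option autoImplicit false

/-! Homogeneous parts of the series of `(y - x) / ((1 - x y) (1 - x - y))` and truncation. -/

namespace Run7.h538.OS

open Finset MvPowerSeries Run7.h538.Osa

/-- homogeneous part of degree `k`, evaluated at `(p, q)` -/
noncomputable def hp (F : MvPowerSeries (Fin 2) ℚ) (p q : ℝ) (k : ℕ) : ℝ :=
  ∑ ab ∈ antidiagonal k, (co F ab.1 ab.2 : ℝ) * (p ^ ab.1 * q ^ ab.2)

lemma hp_X0_succ (F : MvPowerSeries (Fin 2) ℚ) (p q : ℝ) (k : ℕ) :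
    hp (X 0 * F) p q (k + 1) = p * hp F p q k := by
  unfold hp
  rw [Finset.Nat.sum_antidiagonal_succ]
  simp only [co_X0_zero, co_X0_succ]
  rw [mul_sum]
  simp only [Rat.cast_zero, zero_mul, zero_add]
  apply sum_congr rfl
  intro ab _
  ring

lemma hp_X0_zero (F : MvPowerSeries (Fin 2) ℚ) (p q : ℝ) : hp (X 0 * F) p q 0 = 0 := by
  unfold hp
  simp [co_X0_zero]

lemma hp_X1_succ (F : MvPowerSeries (Fin 2) ℚ) (p q : ℝ) (k : ℕ) :
    hp (X 1 * F) p q (k + 1) = q * hp F p q k := by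
  unfold hp
  rw [Finset.Nat.sum_antidiagonal_succ']
  simp only [co_X1_zero, co_X1_succ]
  rw [mul_sum]
  simp only [Rat.cast_zero, zero_mul, add_zero, zero_add]
  apply sum_congr rfl
  intro ab _
  ring

lemma hp_X1_zero (F : MvPowerSeries (Fin 2) ℚ) (p q : ℝ) : hp (X 1 * F) p q 0 = 0 := by
  unfold hp
  simp [co_X1_zero]

lemma hp_sub (F G : MvPowerSeries (Fin 2) ℚ) (p q : ℝ) (k : ℕ) :
    hp (F - G) p q k = hp F p q k - hp G p q k := by
  unfold hp
  rw [← sum_sub_distrib]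
  apply sum_congr rfl
  intro ab _
  rw [co_sub]
  push_cast
  ring

lemma hp_add (F G : MvPowerSeries (Fin 2) ℚ) (p q : ℝ) (k : ℕ) :
    hp (F + G) p q k = hp F p q k + hp G p q k := by
  unfold hp
  rw [← sum_add_distrib]
  apply sum_congr rfl
  intro ab _
  rw [co_add]
  push_cast
  ring

/-- the homogeneous parts of the series -/
noncomputable def P (p q : ℝ) (k : ℕ) : ℝ := hp genFun p q k

lemma hp_one_zero (p q : ℝ) : hp 1 p q 0 = 1 := by
  simp [hp, co_one]

lemma hp_one_succ (p q : ℝ) (k : ℕ) : hp 1 p q (k + 1) = 0 := by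
  unfold hp
  apply sum_eq_zero
  intro ab hab
  rw [HasAntidiagonal.mem_antidiagonal] at hab
  rw [co_one, if_neg (by omega)]
  simp

lemma P_eq (p q : ℝ) (k : ℕ) : P p q k - hp (X 0 * genFun) p q k - hp (X 1 * genFun) p q k
    - hp (X 0 * (X 1 * genFun)) p q k + hp (X 0 * (X 0 * (X 1 * genFun))) p q k
    + hp (X 0 * (X 1 * (X 1 * genFun))) p q k = hp (X 1 * 1) p q k - hp (X 0 * 1) p q k := by
  have := congrArg (fun F => hp F p q k) genFun_eq'
  unfold P
  simpa only [hp_sub, hp_add] using this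

lemma P0 (p q : ℝ) : P p q 0 = 0 := by
  have := P_eq p q 0
  simp only [hp_X0_zero, hp_X1_zero] at this
  linarith

lemma P1 (p q : ℝ) : P p q 1 = q - p := by
  have := P_eq p q 1
  simp only [hp_X0_succ, hp_X1_succ, hp_X0_zero, hp_X1_zero, hp_one_zero] at this
  have h0 : hp genFun p q 0 = 0 := P0 p q
  rw [h0] at this
  linarith

lemma P2 (p q : ℝ) : P p q 2 = (p + q) * P p q 1 := by
  have := P_eq p q 2
  simp only [hp_X0_succ, hp_X1_succ, hp_X0_zero, hp_X1_zero, hp_one_succ] at this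
  have h0 : hp genFun p q 0 = 0 := P0 p q
  have h1 : hp genFun p q 1 = P p q 1 := rfl
  rw [h0, h1] at this
  linarith

lemma P3 (p q : ℝ) (k : ℕ) : P p q (k + 3) = (p + q) * P p q (k + 2) + p * q * P p q (k + 1) -
    p * q * (p + q) * P p q k := by
  have := P_eq p q (k + 3)
  simp only [hp_X0_succ, hp_X1_succ, hp_one_succ] at this
  have h0 : ∀ k, hp genFun p q k = P p q k := fun _ => rfl
  simp only [h0] at this
  linarith

/-- the remainder -/
noncomputable def Er (p q t : ℝ) (k : ℕ) : ℝ :=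
  - P p q (k + 2) + t * (- (p * q) * P p q (k + 1) + p * q * (p + q) * P p q k) +
    t ^ 2 * (p * q * (p + q)) * P p q (k + 1)

lemma trunc (p q t : ℝ) (k : ℕ) :
    (1 - t * p * (t * q)) * (1 - t * p - t * q) * ∑ i ∈ range (k + 2), P p q i * t ^ i =
      (t * q - t * p) + t ^ (k + 2) * Er p q t k := by
  induction k with
  | zero =>
    rw [sum_range_succ, sum_range_succ, sum_range_zero]
    unfold Er
    rw [P2, P1, P0]
    ring
  | succ k ih =>
    rw [show k + 1 + 2 = (k + 2) + 1 by ring, sum_range_succ, mul_add, ih]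
    unfold Er
    rw [show k + 1 + 2 = k + 3 by ring, P3, show k + 1 + 1 = k + 2 by ring]
    ring

lemma f_eq (p q t : ℝ) (k : ℕ) (h1 : 1 - t * p * (t * q) ≠ 0) (h2 : 1 - t * p - t * q ≠ 0) :
    (t * q - t * p) / ((1 - t * p * (t * q)) * (1 - t * p - t * q)) =
      (∑ i ∈ range (k + 2), P p q i * t ^ i) -
        t ^ (k + 2) * (Er p q t k / ((1 - t * p * (t * q)) * (1 - t * p - t * q))) := by
  have := trunc p q t k
  have h3 : (1 - t * p * (t * q)) * (1 - t * p - t * q) ≠ 0 := mul_ne_zero h1 h2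
  rw [eq_sub_iff_add_eq, ← mul_div_assoc, ← add_div, div_eq_iff h3, ← this]
  ring

end Run7.h538.OS
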