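import Pool.Agent.Run7.h538.OS.Pre

set_option autoImplicit false

/-! The Pfaffian formula for the partition functions. -/

namespace Run7.h538.OS

open Polynomial Pool.Agent.Helper929

/-- product of the weights of one line -/
def Wt {K : Type*} [CommRing K] (x : K) (L : List K) : K :=
  (L.map (fun y => (1 - x * y) * (1 - x - y))).prod

lemma Wt_split {K : Type*} [CommRing K] (x z : K) (ps qs : List K) :
    Wt x (ps ++ z :: qs) = (1 - x * z) * (1 - x - z) * Wt x (ps ++ qs) := by
  simp only [Wt, List.map_cons, List.prod_cons, List.map_append, List.prod_append]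
  ring

/-- remove the point `j` -/
def rmv {m : ℕ} {α : Type*} (z : Fin (m + 1) → α) (j : Fin (m + 1)) : Fin m → α :=
  fun k => z (j.succAbove k)

lemma Wt_rmv {m : ℕ} (x : ℝ) (z : Fin (m + 1) → ℝ) (j : Fin (m + 1)) :
    Wt x (List.ofFn z) = (1 - x * z j) * (1 - x - z j) * Wt x (List.ofFn (rmv z j)) := by
  obtain ⟨ps, qs, _, h2, h3⟩ := ofFn_split m z j
  rw [h2, Wt_split]
  unfold rmv
  rw [h3]

lemma mem_rmv {m : ℕ} (z : Fin (m + 1) → ℝ) (i j : Fin (m + 1)) (h : i ≠ j) :
    z j ∈ List.ofFn (rmv z i) := by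
  rw [List.mem_ofFn]
  obtain ⟨k, hk⟩ := Fin.exists_succAbove_eq h.symm
  exact ⟨k, by simp [rmv, hk]⟩

/-- the polynomial of the expansion along the first row -/
noncomputable def RP {m : ℕ} (z : Fin (m + 1) → ℝ) (c : Fin (m + 1) → ℝ) : ℝ[X] :=
  ∑ j : Fin (m + 1), C ((-1) ^ (j : ℕ) * c j) *
    ((C (z j) - X) * Wt X ((List.ofFn (rmv z j)).map C))

lemma eval_Wt (x : ℝ) (L : List ℝ) : (Wt X (L.map C)).eval x = Wt x L := by
  unfold Wt
  rw [eval_list_prod, List.map_map, List.map_map]
  congr 1
  apply List.map_congr_left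
  intro a _
  simp
  left
  ring

lemma RP_eval {m : ℕ} (z : Fin (m + 1) → ℝ) (c : Fin (m + 1) → ℝ) (x : ℝ) :
    (RP z c).eval x = ∑ j : Fin (m + 1), (-1) ^ (j : ℕ) * c j *
      ((z j - x) * Wt x (List.ofFn (rmv z j))) := by
  unfold RP
  rw [eval_finsetSum]
  apply Finset.sum_congr rfl
  intro j _
  rw [eval_mul, eval_mul, eval_Wt]
  simp

lemma RP_deg {m : ℕ} (z : Fin (m + 1) → ℝ) (c : Fin (m + 1) → ℝ) :
    (RP z c).natDegree ≤ 1 + 2 * m := by
  unfold RP
  apply natDegree_sum_le_of_forall_le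
  intro j _
  refine (natDegree_C_mul_le _ _).trans ?_
  apply deg_mul _ _ 1 (2 * m) (deg_lin3 _)
  have := natDegree_prod_le (List.ofFn (rmv z j))
    ((fun y => (1 - X * y) * (1 - X - y)) ∘ C) 2 (fun y => deg_mul _ _ 1 1 (deg_lin1 y) (deg_lin2 y))
  unfold Wt
  rw [List.map_map]
  simpa using this

/-- only one term remains if `x z j = 1` -/
lemma RP_eval_inv {m : ℕ} (z : Fin (m + 1) → ℝ) (c : Fin (m + 1) → ℝ) (x : ℝ)
    (j : Fin (m + 1)) (hx : 1 - x * z j = 0) :
    (RP z c).eval x = (-1) ^ (j : ℕ) * c j * ((z j - x) * Wt x (List.ofFn (rmv z j))) := by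
  rw [RP_eval]
  apply Finset.sum_eq_single_of_mem j (Finset.mem_univ j)
  intro i _ hi
  have h0 : Wt x (List.ofFn (rmv z i)) = 0 := by
    unfold Wt
    rw [List.prod_eq_zero_iff, List.mem_map]
    exact ⟨z j, mem_rmv z i j hi, by rw [hx, zero_mul]⟩
  rw [h0]
  ring

/-- the key identity of products -/
lemma prod_inv (x z : ℝ) (h : x * z = 1) : ∀ L : List ℝ,
    (L.map (fun y => y - x)).prod * (L.map (fun y => y - z)).prod =
      (L.map (fun y => 1 - z * y)).prod * (L.map (fun y => 1 - x * y)).prod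
  | [] => by simp
  | a :: L => by
      have ih := prod_inv x z h L
      simp only [List.map_cons, List.prod_cons]
      have e : (a - x) * (a - z) = (1 - z * a) * (1 - x * a) := by
        linear_combination (1 - a ^ 2) * h
      calc _ = ((a - x) * (a - z)) * ((L.map (fun y => y - x)).prod *
            (L.map (fun y => y - z)).prod) := by ring
        _ = _ := by rw [e, ih]; ring

lemma Wt_eq (x : ℝ) (L : List ℝ) : Wt x L =
    (L.map (fun y => 1 - x * y)).prod * (L.map (fun y => 1 - x - y)).prod := by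
  unfold Wt
  rw [List.prod_map_mul]

lemma point_eq (x z a Zs p : ℝ) (ps qs : List ℝ) (h : x * z = 1)
    (ha : a = ((ps ++ qs).map (fun y => 1 - x - y)).prod *
      (((ps ++ qs).map (fun y => 1 - y - z)).prod * (1 - 2 * z) * Zs))
    (ih : Zs * VL (ps ++ qs) = HL (ps ++ qs) * QL (ps ++ qs) * p) :
    a * ((ps ++ z :: qs).map (fun y => y - x)).prod * VL (ps ++ z :: qs) =
      (-1) ^ ps.length * (HL (ps ++ z :: qs) * QL (ps ++ z :: qs) * p) *
        ((z - x) * Wt x (ps ++ qs)) := by
  have e1 : ((ps ++ z :: qs).map (fun y => y - x)).prod =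
      (z - x) * ((ps ++ qs).map (fun y => y - x)).prod := by
    simp only [List.map_cons, List.prod_cons, List.map_append, List.prod_append]
    ring
  have e2 := VL_split z qs ps
  have e3 := QL_split z qs ps
  have e4 := HL_split z ps qs
  have e5 : ((ps ++ qs).map (fun y => (1 - z * y) * (1 - z - y))).prod =
      ((ps ++ qs).map (fun y => 1 - z * y)).prod * ((ps ++ qs).map (fun y => 1 - z - y)).prod := by
    rw [List.prod_map_mul]
  have e6 : ((ps ++ qs).map (fun y => 1 - y - z)).prod =
      ((ps ++ qs).map (fun y => 1 - z - y)).prod := by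
    congr 1
    apply List.map_congr_left
    intro y _
    ring
  have e7 := prod_inv x z h (ps ++ qs)
  rw [e1, e2, e3, e4, e5, Wt_eq, ha, e6]
  linear_combination ((-1) ^ ps.length * (z - x) * (1 - 2 * z) *
    ((ps ++ qs).map (fun y => 1 - x - y)).prod * ((ps ++ qs).map (fun y => 1 - z - y)).prod) *
    (((ps ++ qs).map (fun y => y - x)).prod * ((ps ++ qs).map (fun y => y - z)).prod * ih +
      HL (ps ++ qs) * QL (ps ++ qs) * p * e7)

/-- good tuples -/
def Good {N : ℕ} (z : Fin N → ℝ) : Prop :=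
  (∀ i, 0 < z i ∧ z i < 1 / 10) ∧ Function.Injective z

lemma Good.rmv {m : ℕ} {z : Fin (m + 1) → ℝ} (h : Good z) (j : Fin (m + 1)) : Good (rmv z j) :=
  ⟨fun i => h.1 _, fun a b hab => Fin.succAbove_right_injective (h.2 hab)⟩

/-- the interpolation points -/
noncomputable def pts {m : ℕ} (z : Fin (m + 1) → ℝ) : Finset ℝ :=
  Finset.univ.image z ∪ Finset.univ.image (fun j => 1 / z j)

lemma pts_card {m : ℕ} (z : Fin (m + 1) → ℝ) (h : Good z) : (pts z).card = 2 * m + 2 := by
  unfold pts
  rw [Finset.card_union_of_disjoint]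
  · rw [Finset.card_image_of_injective _ h.2, Finset.card_image_of_injective]
    · simp; ring
    · intro a b hab
      apply h.2
      have := (h.1 a).1
      have := (h.1 b).1
      field_simp at hab
      linarith
  · rw [Finset.disjoint_left]
    intro x hx hx'
    simp only [Finset.mem_image, Finset.mem_univ, true_and] at hx hx'
    obtain ⟨i, hi⟩ := hx
    obtain ⟨j, hj⟩ := hx'
    have h1 := h.1 i
    have h2 := h.1 j
    have h3 : (10 : ℝ) < 1 / z j := by
      rw [lt_div_iff₀ h2.1]; linarith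
    rw [hj, ← hi] at h3
    linarith

/-- the polynomial with zero boundary -/
lemma eval_row (x : ℝ) (h : Bool) (xs : List ℝ) (k : List Bool → ℝ) (vs : List Bool) :
    (row X h (xs.map C) (fun t => C (k t)) vs).eval x = row x h xs k vs := by
  have := row_map (evalRingHom x) X (xs.map C) h (fun t => C (k t)) vs
  simp only [coe_evalRingHom, eval_X, eval_C, List.map_map] at this
  rw [this]
  congr 1
  simp [Function.comp_def]

lemma eval_prod (x : ℝ) (xs : List ℝ) :
    ((xs.map (fun y => C y - X)).prod).eval x = (xs.map (fun y => y - x)).prod := by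
  rw [eval_list_prod, List.map_map]
  congr 1
  apply List.map_congr_left
  intro a _
  simp

end Run7.h538.OS
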