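import Pool.Agent.Run7.h538.OS.Row

set_option autoImplicit false

/-! The partition functions `G0` (no nonzero diagonal entry) and `G1` (exactly one nonzero diagonal
entry) and their symmetry (Yang-Baxter and reflection equations). -/

namespace Run7.h538.OS

variable {K : Type*} [CommRing K]

/-- two rows, first `x` then `y` -/
def tw (x y : K) (h₁ h₂ : Bool) (xs : List K) (k : List Bool → K) (vs : List Bool) : K :=
  row x h₁ xs (row y h₂ xs k) vs

/-- The crossing of two rows can be moved through the columns. -/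
lemma tw_exchange (x y : K) : ∀ (xs : List K) (k : List Bool → K) (vs : List Bool),
    (1 - x + x * y) * tw x y false false xs k vs = (1 - x + x * y) * tw y x false false xs k vs ∧
    (1 - x + x * y) * tw x y true true xs k vs = (1 - x + x * y) * tw y x true true xs k vs ∧
    gq x * tw x y false true xs k vs + (y - x) * tw x y true false xs k vs =
      (1 - x + x * y) * tw y x false true xs k vs ∧
    (y - x) * tw x y false true xs k vs + gq y * tw x y true false xs k vs =
      (1 - x + x * y) * tw y x true false xs k vs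
  | [], k, vs => by
      simp [tw, row]
  | z :: xs, k, [] => by
      simp [tw, row]
  | z :: xs, k, false :: vs => by
      obtain ⟨a1, a2, a3, a4⟩ := tw_exchange x y xs (fun t => k (false :: t)) vs
      obtain ⟨b1, b2, b3, b4⟩ := tw_exchange x y xs (fun t => k (true :: t)) vs
      simp only [tw, row, row_add, row_smul, gq] at *
      refine ⟨?_, ?_, ?_, ?_⟩
      · linear_combination (1 - x - z) * (1 - y - z) * a1 + (1 - y - z) * b3 + (1 - x * z) * b4
      · linear_combination (1 - x * z) * (1 - y * z) * a2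
      · linear_combination (1 - y - z) * (1 - x * z) * a3 + (1 - x - z) * b2 +
          (1 - x + x * x) * (1 - z + z * z) * a4
      · linear_combination (1 - y * z) * (1 - x - z) * a4 + (1 - y * z) * b2
  | z :: xs, k, true :: vs => by
      obtain ⟨a1, a2, a3, a4⟩ := tw_exchange x y xs (fun t => k (false :: t)) vs
      obtain ⟨b1, b2, b3, b4⟩ := tw_exchange x y xs (fun t => k (true :: t)) vs
      simp only [tw, row, row_add, row_smul, gq] at *
      refine ⟨?_, ?_, ?_, ?_⟩
      · linear_combination (1 - x * z) * (1 - y * z) * b1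
      · linear_combination (1 - x - z) * (1 - y - z) * b2 +
          (1 - y - z) * (1 - x + x * x) * (1 - z + z * z) * a4 +
          (1 - y + y * y) * (1 - z + z * z) * (1 - x * z) * a3
      · linear_combination (1 - y * z) * (1 - x - z) * b3 +
          (1 - y * z) * (1 - x + x * x) * (1 - z + z * z) * a1
      · linear_combination (1 - y - z) * (1 - x * z) * b4 +
          (1 - y + y * y) * (1 - z + z * z) * (1 - x - z) * a1 +
          (1 - y + y * y) * (1 - z + z * z) * b3

/-- partition function: no nonzero diagonal entry -/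
def G0 : List K → List Bool → K
  | [], _ => 1
  | _ :: _, [] => 0
  | x :: xs, v :: vs => (1 - 2 * x) * row x v xs (G0 xs) vs

/-- weight of a nonzero diagonal entry -/
def kd (x : K) : Bool → K
  | false => 1
  | true => gq x

/-- partition function: exactly one nonzero diagonal entry -/
def G1 : List K → List Bool → K
  | [], _ => 0
  | _ :: _, [] => 0
  | x :: xs, v :: vs => (1 - 2 * x) * row x v xs (G1 xs) vs + kd x v * row x (!v) xs (G0 xs) vs

lemma G0_head (x y : K) (xs : List K) (v₁ v₂ : Bool) (vs : List Bool) :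
    sact x y 0 (G0 (x :: y :: xs)) (v₁ :: v₂ :: vs) =
      (1 - x + x * y) * G0 (y :: x :: xs) (v₁ :: v₂ :: vs) := by
  obtain ⟨a1, a2, a3, a4⟩ := tw_exchange x y xs (G0 xs) vs
  cases v₁ <;> cases v₂ <;> simp only [sact, G0, row, row_add, row_smul, tw, gq] at *
  · linear_combination (1 - 2 * x) * (1 - 2 * y) * (1 - x - y) * a1 +
      (1 - 2 * x) * (1 - 2 * y) * a2
  · linear_combination (1 - 2 * x) * (1 - 2 * y) * (1 - x * y) * a3
  · linear_combination (1 - 2 * x) * (1 - 2 * y) * (1 - x * y) * a4
  · linear_combination (1 - 2 * x) * (1 - 2 * y) * (1 - x - y) * a2 +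
      (1 - 2 * x) * (1 - 2 * y) * (1 - x + x * x) * (1 - y + y * y) * a1

lemma G1_head (x y : K) (xs : List K) (v₁ v₂ : Bool) (vs : List Bool) :
    sact x y 0 (G1 (x :: y :: xs)) (v₁ :: v₂ :: vs) =
      (1 - x + x * y) * G1 (y :: x :: xs) (v₁ :: v₂ :: vs) := by
  obtain ⟨a1, a2, a3, a4⟩ := tw_exchange x y xs (G0 xs) vs
  obtain ⟨b1, b2, b3, b4⟩ := tw_exchange x y xs (G1 xs) vs
  cases v₁ <;> cases v₂ <;>
    simp only [sact, G0, G1, row, row_add, row_smul, tw, gq, kd, Bool.not_true,
      Bool.not_false] at *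
  · linear_combination (1 - 2 * x) * (1 - 2 * y) * (1 - x - y) * b1 +
      (1 - 2 * x) * (1 - 2 * y) * b2 + (1 - 2 * x) * (1 - x * y) * a4 +
      (1 - 2 * y) * (1 - x - y) * a3 + (1 - 2 * y) * (1 - x + x * x) * a4
  · linear_combination (1 - 2 * x) * (1 - 2 * y) * (1 - x * y) * b3 +
      (1 - 2 * x) * (1 - x - y) * a2 +
      (1 - 2 * x) * (1 - x + x * x) * (1 - y + y * y) * a1 +
      (1 - 2 * y) * (1 - x * y) * (1 - x + x * x) * a1
  · linear_combination (1 - 2 * x) * (1 - 2 * y) * (1 - x * y) * b4 +
      (1 - 2 * x) * (1 - x - y) * (1 - y + y * y) * a1 +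
      (1 - 2 * x) * (1 - y + y * y) * a2 + (1 - 2 * y) * (1 - x * y) * a2
  · linear_combination (1 - 2 * x) * (1 - 2 * y) * (1 - x - y) * b2 +
      (1 - 2 * x) * (1 - 2 * y) * (1 - x + x * x) * (1 - y + y * y) * b1 +
      (1 - 2 * x) * (1 - x * y) * (1 - y + y * y) * a3 +
      (1 - 2 * y) * (1 - x - y) * (1 - x + x * x) * a4 +
      (1 - 2 * y) * (1 - x + x * x) * (1 - y + y * y) * a3

end Run7.h538.OS
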